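import Mathlib

set_option autoImplicit false

namespace Pool.Agent.Zk68.Q

open Asymptotics Topology in
theorem exp_bound {𝒜 : Type*} [NormedRing 𝒜] [NormedAlgebra ℝ 𝒜] [CompleteSpace 𝒜] :
    ∃ δ > 0, ∃ C : ℝ, 0 ≤ C ∧ ∀ Y : 𝒜, ‖Y‖ ≤ δ →
      ‖NormedSpace.exp Y - 1 - Y‖ ≤ C * ‖Y‖ ^ 2 := by
  have h := (NormedSpace.exp_hasFPowerSeriesAt_zero (𝕂 := ℝ) (𝔸 := 𝒜)).isBigO_sub_partialSum_pow 2
  obtain ⟨C, hC⟩ := h.bound
  have h2 := Metric.eventually_nhds_iff_ball.mp hC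
  obtain ⟨δ, hδ, hb⟩ := h2
  refine ⟨δ / 2, by positivity, max C 0, le_max_right _ _, fun Y hY => ?_⟩
  have h3 := hb Y (by
    rw [Metric.mem_ball, dist_zero_right]; linarith)
  rw [zero_add] at h3
  have h4 : (NormedSpace.expSeries ℝ 𝒜).partialSum 2 Y = 1 + Y := by
    rw [FormalMultilinearSeries.partialSum, Finset.sum_range_succ, Finset.sum_range_one,
      NormedSpace.expSeries_apply_eq, NormedSpace.expSeries_apply_eq]
    simp
  rw [h4, norm_pow, norm_norm] at h3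
  rw [sub_sub]
  refine h3.trans ?_
  gcongr
  exact le_max_left _ _

end Pool.Agent.Zk68.Q
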