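import Mathlib
import Pool.Agent.H212R2.KLS.T1

set_option autoImplicit false
set_option linter.unusedSectionVars false

/-!
Overlaps of the unit ball of a norm with its translates.
-/

namespace Pool.Agent.Zk68.Q

open MeasureTheory Module Set
open scoped ENNReal Pointwise

variable {E : Type*} [NormedAddCommGroup E] [NormedSpace ℝ E] [FiniteDimensional ℝ E]

/-- the points of the unit ball of `N` which are moved by `v` to points of the unit ball -/
def Ov (N : Seminorm ℝ E) (v : E) : Set E := {z | N z ≤ 1 ∧ N (z + v) ≤ 1}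

theorem Ov_zero (N : Seminorm ℝ E) : Ov N 0 = {z | N z ≤ 1} := by
  ext z; simp [Ov]

theorem Ov_sub (N : Seminorm ℝ E) (v : E) : Ov N v ⊆ Ov N 0 := by
  rw [Ov_zero]; exact fun z hz => hz.1

theorem Ov_closed {N : Seminorm ℝ E} (hc : Continuous N) (v : E) : IsClosed (Ov N v) :=
  (isClosed_le hc continuous_const).inter
    (isClosed_le (hc.comp (continuous_id.add continuous_const)) continuous_const)

variable [MeasurableSpace E] [BorelSpace E] (μ : Measure E) [μ.IsAddHaarMeasure]

/-- the overlap -/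
noncomputable def m (N : Seminorm ℝ E) (v : E) : ℝ := μ.real (Ov N v)

variable {μ} {N : Seminorm ℝ E}

theorem img (S : Set E) (a : E) : μ ((fun z => z + a) '' S) = μ S := by
  rw [image_add_right, measure_preimage_add_right]

theorem fin (hf : μ (Ov N 0) ≠ ⊤) (v : E) : μ (Ov N v) ≠ ⊤ :=
  ne_top_of_le_ne_top hf (measure_mono (Ov_sub N v))

theorem m_nonneg (v : E) : 0 ≤ m μ N v := measureReal_nonneg

theorem m_le (hf : μ (Ov N 0) ≠ ⊤) (v : E) : m μ N v ≤ m μ N 0 :=
  measureReal_mono (Ov_sub N v) hf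

theorem m_pos (hc : Continuous N) (hf : μ (Ov N 0) ≠ ⊤) : 0 < m μ N 0 := by
  refine ENNReal.toReal_pos (fun h => ?_) hf
  have ho : IsOpen {z | N z < 1} := isOpen_lt hc continuous_const
  have hne : ({z | N z < 1} : Set E).Nonempty := ⟨0, by simp⟩
  have h1 := ho.measure_pos μ hne
  have h2 : μ {z | N z < 1} ≤ μ (Ov N 0) := measure_mono (by
    rw [Ov_zero]; exact fun z (hz : N z < 1) => (show N z ≤ 1 from hz.le))
  rw [h] at h2
  exact absurd h1 (not_lt.mpr h2)

/-- The overlap along a ray, up to a point of the ball. -/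
theorem ray (hf : μ (Ov N 0) ≠ ⊤) {x : E} (hx : N x ≤ 1) {t : ℝ} (h0 : 0 ≤ t) (h1 : t ≤ 1) :
    m μ N (t • x) ≤ (2 - t) ^ finrank ℝ E * m μ N x := by
  set l : ℝ := 1 / (2 - t) with hl
  have h2 : 0 < 2 - t := by linarith
  have hl0 : 0 < l := by positivity
  have hl1 : l ≤ 1 := by rw [hl, div_le_one h2]; linarith
  have hlt : l * (2 - t) = 1 := by rw [hl]; field_simp
  have hsub : (fun z => l • z + (-((1 - l) • x))) '' Ov N (t • x) ⊆ Ov N x := by
    rintro _ ⟨z, ⟨hz1, hz2⟩, rfl⟩
    constructor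
    · calc N (l • z + (-((1 - l) • x))) ≤ N (l • z) + N (-((1 - l) • x)) := map_add_le_add _ _ _
        _ = l * N z + (1 - l) * N x := by
            rw [map_neg_eq_map, map_smul_eq_mul, map_smul_eq_mul, Real.norm_of_nonneg hl0.le,
              Real.norm_of_nonneg (by linarith)]
        _ ≤ l * 1 + (1 - l) * 1 := by gcongr
        _ = 1 := by ring
    · have e : l • z + (-((1 - l) • x)) + x = l • (z + t • x) + (1 - l) • x := by
        have : (1 - l) = l - l * t := by nlinarith
        have h3 : -((1 - l) • x) + x = (l * t) • x + (1 - l) • x := by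
          rw [← neg_smul, ← add_smul]
          conv_lhs => rw [← one_smul ℝ x, smul_smul, ← add_smul]
          congr 1
          linarith
        rw [add_assoc, h3, smul_add, smul_smul, add_assoc]
      show N (l • z + (-((1 - l) • x)) + x) ≤ 1
      rw [e]
      calc N (l • (z + t • x) + (1 - l) • x) ≤ N (l • (z + t • x)) + N ((1 - l) • x) :=
            map_add_le_add _ _ _
        _ = l * N (z + t • x) + (1 - l) * N x := by
            rw [map_smul_eq_mul, map_smul_eq_mul, Real.norm_of_nonneg hl0.le,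
              Real.norm_of_nonneg (by linarith)]
        _ ≤ l * 1 + (1 - l) * 1 := by gcongr
        _ = 1 := by ring
  have himg : (fun z => l • z + (-((1 - l) • x))) '' Ov N (t • x) =
      (fun z => z + (-((1 - l) • x))) '' (l • Ov N (t • x)) := by
    rw [← image_smul, image_image]
  have hm : μ ((fun z => l • z + (-((1 - l) • x))) '' Ov N (t • x)) =
      ENNReal.ofReal (l ^ finrank ℝ E) * μ (Ov N (t • x)) := by
    rw [himg, img, Measure.addHaar_smul,
      abs_of_nonneg (by positivity)]
  have h3 : ENNReal.ofReal (l ^ finrank ℝ E) * μ (Ov N (t • x)) ≤ μ (Ov N x) := by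
    rw [← hm]; exact measure_mono hsub
  have h4 : l ^ finrank ℝ E * m μ N (t • x) ≤ m μ N x := by
    have := ENNReal.toReal_mono (fin hf x) h3
    rwa [ENNReal.toReal_mul, ENNReal.toReal_ofReal (by positivity)] at this
  calc m μ N (t • x) = (l * (2 - t)) ^ finrank ℝ E * m μ N (t • x) := by rw [hlt]; simp
    _ = (2 - t) ^ finrank ℝ E * (l ^ finrank ℝ E * m μ N (t • x)) := by rw [mul_pow]; ring
    _ ≤ (2 - t) ^ finrank ℝ E * m μ N x := by gcongr

/-- chain inequality -/
theorem chain (hc : Continuous N) (hf : μ (Ov N 0) ≠ ⊤) (v w : E) :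
    m μ N 0 - m μ N (v + w) ≤ (m μ N 0 - m μ N v) + (m μ N 0 - m μ N w) := by
  have hsub : Ov N 0 ⊆ Ov N (v + w) ∪ ((Ov N 0 \ Ov N v) ∪
      (fun z => z + v) ⁻¹' (Ov N 0 \ Ov N w)) := by
    intro z hz
    rw [Ov_zero] at hz
    by_cases h1 : N (z + v) ≤ 1
    · by_cases h2 : N (z + v + w) ≤ 1
      · left
        exact ⟨hz, by rw [← add_assoc]; exact h2⟩
      · right; right
        refine ⟨by rw [Ov_zero]; exact h1, fun h => h2 h.2⟩
    · right; left
      exact ⟨by rw [Ov_zero]; exact hz, fun h => h1 h.2⟩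
  have hd : ∀ u : E, μ.real (Ov N 0 \ Ov N u) = m μ N 0 - m μ N u := fun u =>
    measureReal_sdiff (Ov_sub N u) (Ov_closed hc u).measurableSet hf
  have hfd : ∀ u : E, μ (Ov N 0 \ Ov N u) ≠ ⊤ := fun u =>
    ne_top_of_le_ne_top hf (measure_mono sdiff_subset)
  have hpre : μ ((fun z => z + v) ⁻¹' (Ov N 0 \ Ov N w)) = μ (Ov N 0 \ Ov N w) :=
    measure_preimage_add_right μ v _
  have hpre' : μ.real ((fun z => z + v) ⁻¹' (Ov N 0 \ Ov N w)) = m μ N 0 - m μ N w := by
    rw [measureReal_def, hpre, ← hd w]; rfl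
  have hfu : μ ((Ov N 0 \ Ov N v) ∪ (fun z => z + v) ⁻¹' (Ov N 0 \ Ov N w)) ≠ ⊤ := by
    refine ne_top_of_le_ne_top ?_ (measure_union_le _ _)
    rw [hpre]
    exact ENNReal.add_ne_top.mpr ⟨hfd v, hfd w⟩
  have h1 : μ.real (Ov N 0) ≤ μ.real (Ov N (v + w)) + (μ.real (Ov N 0 \ Ov N v) +
      μ.real ((fun z => z + v) ⁻¹' (Ov N 0 \ Ov N w))) := by
    refine (measureReal_mono hsub ?_).trans ((measureReal_union_le _ _).trans ?_)
    · refine ne_top_of_le_ne_top ?_ (measure_union_le _ _)
      exact ENNReal.add_ne_top.mpr ⟨fin hf _, hfu⟩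
    · gcongr
      exact measureReal_union_le _ _
  rw [hd v, hpre'] at h1
  have : μ.real (Ov N 0) = m μ N 0 := rfl
  have h' : μ.real (Ov N (v + w)) = m μ N (v + w) := rfl
  rw [this, h'] at h1
  linarith

theorem chain_sum (hc : Continuous N) (hf : μ (Ov N 0) ≠ ⊤) {ι : Type*} (s : Finset ι)
    (v : ι → E) :
    m μ N 0 - m μ N (∑ i ∈ s, v i) ≤ ∑ i ∈ s, (m μ N 0 - m μ N (v i)) := by
  classical
  induction s using Finset.induction_on with
  | empty => simp
  | insert a s ha ih =>
    rw [Finset.sum_insert ha, Finset.sum_insert ha]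
    exact (chain hc hf _ _).trans (by linarith)

/-- log-concavity -/
theorem logc (hc : Continuous N) (hf : μ (Ov N 0) ≠ ⊤) (v : E) {s : ℝ} (h0 : 0 < s)
    (h1 : s ≤ 1) : (m μ N v / m μ N 0) ^ s ≤ m μ N (s • v) / m μ N 0 := by
  have hp := m_pos hc hf
  rcases eq_or_lt_of_le h1 with rfl | h1
  · simp
  · have H : ∀ x ∈ Ov N 0, ∀ y ∈ Ov N v, (1 - s) • x + s • y ∈ Ov N (s • v) := by
      intro x hx y hy
      rw [Ov_zero] at hx
      have hx' : N x ≤ 1 := hx
      constructor
      · calc N ((1 - s) • x + s • y) ≤ N ((1 - s) • x) + N (s • y) := map_add_le_add _ _ _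
          _ = (1 - s) * N x + s * N y := by
            rw [map_smul_eq_mul, map_smul_eq_mul, Real.norm_of_nonneg h0.le,
              Real.norm_of_nonneg (by linarith)]
          _ ≤ (1 - s) * 1 + s * 1 := by
            have := hy.1
            gcongr
          _ = 1 := by ring
      · have e : (1 - s) • x + s • y + s • v = (1 - s) • x + s • (y + v) := by
          rw [smul_add, add_assoc]
        show N ((1 - s) • x + s • y + s • v) ≤ 1
        rw [e]
        calc N ((1 - s) • x + s • (y + v)) ≤ N ((1 - s) • x) + N (s • (y + v)) :=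
              map_add_le_add _ _ _
          _ = (1 - s) * N x + s * N (y + v) := by
            rw [map_smul_eq_mul, map_smul_eq_mul, Real.norm_of_nonneg h0.le,
              Real.norm_of_nonneg (by linarith)]
          _ ≤ (1 - s) * 1 + s * 1 := by
            have := hy.2
            gcongr
          _ = 1 := by ring
    have h1s : 0 < 1 - s := by linarith
    have hPL := Pool.Agent.H212R2.KLS.PL μ s h0 h1 ((Ov N 0).indicator 1) ((Ov N v).indicator 1)
      ((Ov N (s • v)).indicator 1) (measurable_one.indicator (Ov_closed hc 0).measurableSet)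
      (measurable_one.indicator (Ov_closed hc v).measurableSet)
      (measurable_one.indicator (Ov_closed hc _).measurableSet) (by
        intro x y
        by_cases hx : x ∈ Ov N 0
        · by_cases hy : y ∈ Ov N v
          · rw [indicator_of_mem hx, indicator_of_mem hy, indicator_of_mem (H x hx y hy)]
            simp
          · rw [indicator_of_notMem hy, ENNReal.zero_rpow_of_pos h0, mul_zero]
            exact zero_le
        · rw [indicator_of_notMem hx, ENNReal.zero_rpow_of_pos h1s, zero_mul]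
          exact zero_le)
    rw [lintegral_indicator_one (Ov_closed hc 0).measurableSet,
      lintegral_indicator_one (Ov_closed hc v).measurableSet,
      lintegral_indicator_one (Ov_closed hc _).measurableSet] at hPL
    have h3 := ENNReal.toReal_mono (fin hf (s • v)) hPL
    rw [ENNReal.toReal_mul, ← ENNReal.toReal_rpow, ← ENNReal.toReal_rpow] at h3
    have h4 : m μ N 0 ^ (1 - s) * m μ N v ^ s ≤ m μ N (s • v) := h3
    rw [Real.div_rpow (m_nonneg v) hp.le, div_le_div_iff₀ (Real.rpow_pos_of_pos hp s) hp]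
    calc m μ N v ^ s * m μ N 0 = (m μ N 0 ^ (1 - s) * m μ N v ^ s) * m μ N 0 ^ s := by
          have : m μ N 0 ^ (1 - s) * m μ N 0 ^ s = m μ N 0 := by
            rw [← Real.rpow_add hp]; simp
          calc m μ N v ^ s * m μ N 0 = m μ N v ^ s * (m μ N 0 ^ (1 - s) * m μ N 0 ^ s) := by
                rw [this]
            _ = _ := by ring
      _ ≤ m μ N (s • v) * m μ N 0 ^ s := by
          gcongr

/-- isometries preserve the overlaps -/
theorem isom (hc : Continuous N) (hf : μ (Ov N 0) ≠ ⊤) (h0 : ∀ x, N x = 0 → x = 0)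
    (U : E →ₗ[ℝ] E) (hU : ∀ x, N (U x) = N x) (v : E) : m μ N (U v) = m μ N v := by
  have hinj : Function.Injective U := by
    rw [← LinearMap.ker_eq_bot, LinearMap.ker_eq_bot']
    intro x hx
    apply h0
    rw [← hU, hx, map_zero]
  have hdet : LinearMap.det U ≠ 0 := by
    intro h
    have := LinearMap.bot_lt_ker_of_det_eq_zero h
    rw [LinearMap.ker_eq_bot.mpr hinj] at this
    exact lt_irrefl _ this
  have hpre : ∀ w : E, U ⁻¹' (Ov N (U w)) = Ov N w := by
    intro w
    ext z
    simp only [mem_preimage, Ov, mem_ofPred_eq, hU, ← map_add]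
  have h1 := Measure.addHaar_preimage_linearMap μ hdet (Ov N (U 0))
  rw [hpre, map_zero] at h1
  have h2 := Measure.addHaar_preimage_linearMap μ hdet (Ov N (U v))
  rw [hpre] at h2
  have hp : μ (Ov N 0) ≠ 0 := fun h => by
    have := m_pos hc hf
    rw [m, measureReal_def, h] at this
    simp at this
  have h3 : ENNReal.ofReal |(LinearMap.det U)⁻¹| = 1 := by
    have h4 : 1 * μ (Ov N 0) = ENNReal.ofReal |(LinearMap.det U)⁻¹| * μ (Ov N 0) := by
      rw [one_mul]; exact h1
    exact ((ENNReal.mul_left_inj hp hf).mp h4).symm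
  rw [h3, one_mul] at h2
  rw [m, m, measureReal_def, measureReal_def, h2]

theorem m_neg (v : E) : m μ N (-v) = m μ N v := by
  have h : Ov N (-v) = (fun z => z + (-v)) ⁻¹' (Ov N v) := by
    ext z
    simp only [Ov, mem_ofPred_eq, mem_preimage]
    rw [neg_add_cancel_right]
    exact and_comm
  rw [m, m, measureReal_def, measureReal_def, h, measure_preimage_add_right]

/-- the packing lemma -/
theorem pack (hc : Continuous N) (hf : μ (Ov N 0) ≠ ⊤) {ι : Type*} (s : Finset ι) (x : E)
    (p : ι → E) (r : ℝ) (hr : 0 < r) (h1 : ∀ i ∈ s, N (p i) + r ≤ 1)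
    (h2 : ∀ i ∈ s, N (x - p i) + r ≤ 1)
    (h3 : ∀ i ∈ s, ∀ j ∈ s, i ≠ j → 2 * s.card * m μ N (r⁻¹ • (p i - p j)) ≤ m μ N 0) :
    r ^ finrank ℝ E * m μ N 0 * s.card / 2 ≤ m μ N x := by
  classical
  let S : ι → Set E := fun i => {w | N (w - p i) ≤ r}
  have hSc : ∀ i, IsClosed (S i) := fun i =>
    isClosed_le (hc.comp (continuous_id.sub continuous_const)) continuous_const
  have hSS : ∀ i j, μ (S i ∩ S j) = ENNReal.ofReal (r ^ finrank ℝ E) *
      μ (Ov N (r⁻¹ • (p i - p j))) := by
    intro i j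
    have e : S i ∩ S j = (fun z => z + p i) '' (r • Ov N (r⁻¹ • (p i - p j))) := by
      ext w
      simp only [mem_inter_iff, mem_image, S, mem_ofPred_eq]
      constructor
      · rintro ⟨ha, hb⟩
        refine ⟨w - p i, ?_, by abel⟩
        refine ⟨r⁻¹ • (w - p i), ⟨?_, ?_⟩, ?_⟩
        · rw [map_smul_eq_mul, Real.norm_of_nonneg (by positivity)]
          rw [inv_mul_le_iff₀ hr, mul_one]; exact ha
        · rw [← smul_add, map_smul_eq_mul, Real.norm_of_nonneg (by positivity)]
          rw [inv_mul_le_iff₀ hr, mul_one]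
          have : w - p i + (p i - p j) = w - p j := by abel
          rw [this]; exact hb
        · simp only
          rw [smul_smul, mul_inv_cancel₀ hr.ne', one_smul]
      · rintro ⟨z, ⟨y, ⟨hy1, hy2⟩, rfl⟩, rfl⟩
        simp only
        constructor
        · rw [add_sub_cancel_right, map_smul_eq_mul, Real.norm_of_nonneg hr.le]
          calc r * N y ≤ r * 1 := by gcongr
            _ = r := mul_one r
        · have : r • y + p i - p j = r • (y + r⁻¹ • (p i - p j)) := by
            rw [smul_add, smul_smul, mul_inv_cancel₀ hr.ne', one_smul]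
            abel
          rw [this, map_smul_eq_mul, Real.norm_of_nonneg hr.le]
          calc r * N (y + r⁻¹ • (p i - p j)) ≤ r * 1 := by gcongr
            _ = r := mul_one r
    rw [e, img, Measure.addHaar_smul,
      abs_of_nonneg (by positivity)]
  have hSm : ∀ i, μ (S i) = ENNReal.ofReal (r ^ finrank ℝ E) * μ (Ov N 0) := by
    intro i
    have := hSS i i
    rwa [inter_self, sub_self, smul_zero] at this
  have hSfin : ∀ i, μ (S i) ≠ ⊤ := fun i => by
    rw [hSm]; exact ENNReal.mul_ne_top ENNReal.ofReal_ne_top hf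
  have hSr : ∀ i, μ.real (S i) = r ^ finrank ℝ E * m μ N 0 := fun i => by
    rw [measureReal_def, hSm, ENNReal.toReal_mul, ENNReal.toReal_ofReal (by positivity)]; rfl
  have hSSr : ∀ i j, μ.real (S i ∩ S j) = r ^ finrank ℝ E * m μ N (r⁻¹ • (p i - p j)) := by
    intro i j
    rw [measureReal_def, hSS, ENNReal.toReal_mul, ENNReal.toReal_ofReal (by positivity)]; rfl
  let D : ι → Set E := fun i => S i \ ⋃ j ∈ s.erase i, S j
  have hDm : ∀ i, MeasurableSet (D i) := fun i =>
    (hSc i).measurableSet.diff (Finset.measurableSet_biUnion _ fun j _ => (hSc j).measurableSet)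
  have hDr : ∀ i ∈ s, r ^ finrank ℝ E * m μ N 0 / 2 ≤ μ.real (D i) := by
    intro i hi
    have hcov : S i ⊆ D i ∪ ⋃ j ∈ s.erase i, (S i ∩ S j) := by
      intro w hw
      by_cases h : w ∈ ⋃ j ∈ s.erase i, S j
      · right
        rw [mem_iUnion₂] at h ⊢
        obtain ⟨j, hj, hwj⟩ := h
        exact ⟨j, hj, hw, hwj⟩
      · left; exact ⟨hw, h⟩
    have hb : μ (D i ∪ ⋃ j ∈ s.erase i, (S i ∩ S j)) ≠ ⊤ := by
      refine ne_top_of_le_ne_top (hSfin i) (measure_mono (union_subset sdiff_subset ?_))
      exact iUnion₂_subset fun j _ => inter_subset_left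
    have hle : μ.real (S i) ≤ μ.real (D i) + ∑ j ∈ s.erase i, μ.real (S i ∩ S j) := by
      refine (measureReal_mono hcov hb).trans ((measureReal_union_le _ _).trans ?_)
      gcongr
      exact measureReal_biUnion_finset_le _ _
    have hsum : ∑ j ∈ s.erase i, μ.real (S i ∩ S j) ≤ r ^ finrank ℝ E * m μ N 0 / 2 := by
      have hcard : 0 < (s.card : ℝ) := by
        exact_mod_cast Finset.card_pos.mpr ⟨i, hi⟩
      calc ∑ j ∈ s.erase i, μ.real (S i ∩ S j)
          ≤ ∑ j ∈ s.erase i, r ^ finrank ℝ E * m μ N 0 / (2 * s.card) := by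
            refine Finset.sum_le_sum fun j hj => ?_
            rw [hSSr, le_div_iff₀ (by positivity)]
            have := h3 i hi j (Finset.mem_of_mem_erase hj) (Finset.ne_of_mem_erase hj).symm
            calc r ^ finrank ℝ E * m μ N (r⁻¹ • (p i - p j)) * (2 * s.card)
                = r ^ finrank ℝ E * (2 * s.card * m μ N (r⁻¹ • (p i - p j))) := by ring
              _ ≤ r ^ finrank ℝ E * m μ N 0 := by gcongr
        _ = (s.erase i).card * (r ^ finrank ℝ E * m μ N 0 / (2 * s.card)) := by
            rw [Finset.sum_const, nsmul_eq_mul]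
        _ ≤ s.card * (r ^ finrank ℝ E * m μ N 0 / (2 * s.card)) := by
            have : (s.erase i).card ≤ s.card := Finset.card_erase_le
            have h0 := m_nonneg (μ := μ) (N := N) 0
            gcongr
        _ = r ^ finrank ℝ E * m μ N 0 / 2 := by field_simp
    rw [hSr] at hle
    linarith
  have hdisj : (s : Set ι).PairwiseDisjoint D := by
    intro i hi j hj hij
    rw [Function.onFun, Set.disjoint_left]
    intro w hwi hwj
    exact hwj.2 (mem_iUnion₂.mpr ⟨i, Finset.mem_erase.mpr ⟨hij, hi⟩, hwi.1⟩)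
  have hW : (⋃ i ∈ s, D i) ⊆ (fun w => -w) ⁻¹' (Ov N x) := by
    refine iUnion₂_subset fun i hi w hw => ?_
    have hw1 : N (w - p i) ≤ r := hw.1
    constructor
    · rw [map_neg_eq_map]
      calc N w = N ((w - p i) + p i) := by rw [sub_add_cancel]
        _ ≤ N (w - p i) + N (p i) := map_add_le_add _ _ _
        _ ≤ 1 := by linarith [h1 i hi]
    · calc N (-w + x) = N ((x - p i) - (w - p i)) := by congr 1; abel
        _ ≤ N (x - p i) + N (w - p i) := map_sub_le_add _ _ _
        _ ≤ 1 := by linarith [h2 i hi]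
  have hWm : μ.real ((fun w => -w) ⁻¹' (Ov N x)) = m μ N x := by
    have : μ ((fun w : E => -w) ⁻¹' (Ov N x)) = μ (Ov N x) := by
      have h := Measure.measure_preimage_neg μ (Ov N x)
      exact h
    rw [measureReal_def, this]; rfl
  have hWf : μ ((fun w : E => -w) ⁻¹' (Ov N x)) ≠ ⊤ := by
    have h := Measure.measure_preimage_neg μ (Ov N x)
    have : μ ((fun w : E => -w) ⁻¹' (Ov N x)) = μ (Ov N x) := h
    rw [this]; exact fin hf x
  calc r ^ finrank ℝ E * m μ N 0 * s.card / 2
      = ∑ i ∈ s, r ^ finrank ℝ E * m μ N 0 / 2 := by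
        rw [Finset.sum_const, nsmul_eq_mul]; ring
    _ ≤ ∑ i ∈ s, μ.real (D i) := Finset.sum_le_sum hDr
    _ = μ.real (⋃ i ∈ s, D i) := by
        rw [measureReal_biUnion_finset hdisj (fun i _ => hDm i)
          (fun i _ => ne_top_of_le_ne_top (hSfin i) (measure_mono sdiff_subset))]
    _ ≤ μ.real ((fun w => -w) ⁻¹' (Ov N x)) := measureReal_mono hW hWf
    _ = m μ N x := hWm

end Pool.Agent.Zk68.Q
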