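import Mathlib
import Pool.Agent.Zk68.Overlap

set_option autoImplicit false
set_option linter.unusedSectionVars false

/-!
The overlap of the unit ball with its translate, for norms with quaternionic symmetries.
-/

namespace Pool.Agent.Zk68.Q

open MeasureTheory Module Set Quaternion
open scoped ENNReal Pointwise

section U

variable {E : Type*} [AddCommGroup E] [Module ℝ E]

/-- the action of a quaternion on one piece -/
noncomputable def U (ρ : ℍ[ℝ] →ₗ[ℝ] Module.End ℝ E) (q : ℍ[ℝ]) : E →ₗ[ℝ] E :=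
  LinearMap.id - ρ 1 + ρ q

theorem U_apply (ρ : ℍ[ℝ] →ₗ[ℝ] Module.End ℝ E) (q : ℍ[ℝ]) (x : E) :
    U ρ q x = x - ρ 1 x + ρ q x := by
  simp [U]

variable {ρ : ℍ[ℝ] →ₗ[ℝ] Module.End ℝ E}

theorem ρmul (hmul : ∀ p q, ρ (p * q) = ρ p * ρ q) (p q : ℍ[ℝ]) (x : E) :
    ρ p (ρ q x) = ρ (p * q) x := by
  rw [hmul]; rfl

theorem U_mul (hmul : ∀ p q, ρ (p * q) = ρ p * ρ q) (p q : ℍ[ℝ]) (x : E) :
    U ρ p (U ρ q x) = U ρ (p * q) x := by
  rw [U_apply, U_apply, U_apply]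
  simp only [map_add, map_sub, ρmul hmul, one_mul, mul_one]
  abel

theorem U_P (hmul : ∀ p q, ρ (p * q) = ρ p * ρ q) (q : ℍ[ℝ]) (x : E) :
    U ρ q (ρ 1 x) = ρ q x := by
  rw [U_apply, ρmul hmul, ρmul hmul, one_mul, mul_one]
  abel

theorem U_iso {N : Seminorm ℝ E} (hmul : ∀ p q, ρ (p * q) = ρ p * ρ q)
    (hinv : ∀ q, ‖q‖ = 1 → ∀ x, N (x - ρ 1 x + ρ q x) ≤ N x) (q : ℍ[ℝ]) (hq : ‖q‖ = 1) (x : E) :
    N (U ρ q x) = N x := by
  refine le_antisymm ?_ ?_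
  · rw [U_apply]; exact hinv q hq x
  · have hq0 : q ≠ 0 := by
      intro h; rw [h, norm_zero] at hq; exact zero_ne_one hq
    have h1 : U ρ q⁻¹ (U ρ q x) = x := by
      rw [U_mul hmul, inv_mul_cancel₀ hq0, U_apply]
      abel
    have h2 := hinv q⁻¹ (by rw [norm_inv, hq, inv_one]) (U ρ q x)
    rw [← U_apply, h1] at h2
    exact h2

theorem ρ_le {N : Seminorm ℝ E}
    (hinv : ∀ q, ‖q‖ = 1 → ∀ x, N (x - ρ 1 x + ρ q x) ≤ N x) (q : ℍ[ℝ]) (hq : ‖q‖ = 1) (x : E) :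
    N (ρ q x) ≤ N x := by
  have h1 := hinv q hq x
  have h2 := hinv (-q) (by rw [norm_neg, hq]) x
  have e : (2 : ℝ) • ρ q x = (x - ρ 1 x + ρ q x) - (x - ρ 1 x + ρ (-q) x) := by
    rw [map_neg, LinearMap.neg_apply, two_smul]; abel
  have h3 : 2 * N (ρ q x) ≤ N x + N x := by
    calc 2 * N (ρ q x) = N ((2 : ℝ) • ρ q x) := by
          rw [map_smul_eq_mul]; norm_num
      _ ≤ N (x - ρ 1 x + ρ q x) + N (x - ρ 1 x + ρ (-q) x) := by
          rw [e]; exact map_sub_le_add _ _ _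
      _ ≤ _ := add_le_add h1 h2
  linarith

theorem ρ_norm (q : ℍ[ℝ]) (hq : q ≠ 0) (x : E) : ρ q x = ‖q‖ • ρ (‖q‖⁻¹ • q) x := by
  have h : ‖q‖ ≠ 0 := norm_ne_zero_iff.mpr hq
  rw [map_smul, LinearMap.smul_apply, smul_smul, mul_inv_cancel₀ h, one_smul]

theorem unit_norm (q : ℍ[ℝ]) (hq : q ≠ 0) : ‖‖q‖⁻¹ • q‖ = 1 := by
  have h : ‖q‖ ≠ 0 := norm_ne_zero_iff.mpr hq
  rw [norm_smul, norm_inv, norm_norm, inv_mul_cancel₀ h]

theorem near {N : Seminorm ℝ E} (hmul : ∀ p q, ρ (p * q) = ρ p * ρ q)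
    (hinv : ∀ q, ‖q‖ = 1 → ∀ x, N (x - ρ 1 x + ρ q x) ≤ N x) (u : ℍ[ℝ]) (hu : ‖u‖ = 1)
    {β : ℝ} (hβ : 0 ≤ β) (ha : 1 - β ≤ u.re) {x : E} (hx : N x ≤ 1) :
    N (x - (1 / 2 : ℝ) • U ρ u x) ≤ 1 / 2 + β := by
  set w : ℍ[ℝ] := (2 : ℝ) • 1 - u with hw
  have hn : ‖w‖ ^ 2 = 5 - 4 * u.re := by
    have h1 : ‖w‖ ^ 2 = normSq w := by rw [normSq_eq_norm_mul_self, sq]
    have h2 : ‖u‖ ^ 2 = normSq u := by rw [normSq_eq_norm_mul_self, sq]
    rw [hu, normSq_def'] at h2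
    rw [h1, normSq_def', hw]
    simp
    linarith
  have hre : u.re ≤ 1 := by
    have h2 : ‖u‖ ^ 2 = normSq u := by rw [normSq_eq_norm_mul_self, sq]
    rw [hu, normSq_def'] at h2
    nlinarith [sq_nonneg u.imI, sq_nonneg u.imJ, sq_nonneg u.imK]
  have hw1 : 1 ≤ ‖w‖ := by
    nlinarith [norm_nonneg w]
  have hw2 : ‖w‖ ≤ 1 + 2 * β := by
    have : ‖w‖ ^ 2 ≤ (1 + 2 * β) ^ 2 := by rw [hn]; nlinarith
    exact (pow_le_pow_iff_left₀ (norm_nonneg _) (by positivity) two_ne_zero).mp this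
  have hw0 : w ≠ 0 := by
    intro h; rw [h, norm_zero] at hw1; linarith
  set h : ℍ[ℝ] := ‖w‖⁻¹ • w with hh
  have hh1 : ‖h‖ = 1 := unit_norm w hw0
  have e : x - (1 / 2 : ℝ) • U ρ u x = (1 / 2 : ℝ) • (U ρ h x + (‖w‖ - 1) • ρ h x) := by
    have e1 : ρ w x = (2 : ℝ) • ρ 1 x - ρ u x := by
      rw [hw, map_sub, map_smul]; rfl
    have e2 : ρ w x = ‖w‖ • ρ h x := ρ_norm w hw0 x
    have e3 : U ρ h x + (‖w‖ - 1) • ρ h x = x - ρ 1 x + ρ w x := by
      rw [U_apply, e2, sub_smul, one_smul]; abel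
    rw [e3, e1, U_apply]
    module
  rw [e, map_smul_eq_mul, Real.norm_of_nonneg (by norm_num)]
  have h2 : N (U ρ h x + (‖w‖ - 1) • ρ h x) ≤ ‖w‖ := by
    calc N (U ρ h x + (‖w‖ - 1) • ρ h x) ≤ N (U ρ h x) + N ((‖w‖ - 1) • ρ h x) :=
          map_add_le_add _ _ _
      _ = N x + (‖w‖ - 1) * N (ρ h x) := by
          rw [U_iso hmul hinv h hh1, map_smul_eq_mul, Real.norm_of_nonneg (by linarith)]
      _ ≤ 1 + (‖w‖ - 1) * 1 := by
          have := (ρ_le hinv h hh1 x).trans hx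
          have h3 : 0 ≤ ‖w‖ - 1 := by linarith
          gcongr
      _ = ‖w‖ := by ring
  linarith

end U

variable {E : Type*} [NormedAddCommGroup E] [NormedSpace ℝ E] [FiniteDimensional ℝ E]
  [MeasurableSpace E] [BorelSpace E] {μ : Measure E} [μ.IsAddHaarMeasure] {N : Seminorm ℝ E}

/-- the unit quaternion with the given imaginary part -/
noncomputable def qt (a b c : ℝ) : ℍ[ℝ] := ⟨√(1 - (a ^ 2 + b ^ 2 + c ^ 2)), a, b, c⟩

theorem qt_norm (a b c : ℝ) (h : a ^ 2 + b ^ 2 + c ^ 2 ≤ 1) : ‖qt a b c‖ = 1 := by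
  have h1 : ‖qt a b c‖ ^ 2 = 1 := by
    have h1 : ‖qt a b c‖ ^ 2 = normSq (qt a b c) := by rw [normSq_eq_norm_mul_self, sq]
    rw [h1, normSq_def', qt]
    simp only
    rw [Real.sq_sqrt (by linarith)]
    ring
  nlinarith [norm_nonneg (qt a b c)]

theorem qt_re (a b c : ℝ) (h : a ^ 2 + b ^ 2 + c ^ 2 ≤ 1) :
    1 - (a ^ 2 + b ^ 2 + c ^ 2) ≤ (qt a b c).re := by
  show 1 - (a ^ 2 + b ^ 2 + c ^ 2) ≤ √(1 - (a ^ 2 + b ^ 2 + c ^ 2))
  set s := a ^ 2 + b ^ 2 + c ^ 2 with hs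
  have h0 : 0 ≤ s := by positivity
  apply Real.le_sqrt_of_sq_le
  nlinarith

theorem qt_dist (a b c a' b' c' : ℝ) :
    (a - a') ^ 2 + (b - b') ^ 2 + (c - c') ^ 2 ≤ ‖qt a b c - qt a' b' c'‖ ^ 2 := by
  have h1 : ‖qt a b c - qt a' b' c'‖ ^ 2 = normSq (qt a b c - qt a' b' c') := by
    rw [normSq_eq_norm_mul_self, sq]
  rw [h1, normSq_def']
  have h2 := sq_nonneg (qt a b c - qt a' b' c').re
  have h3 : (qt a b c - qt a' b' c').imI = a - a' := rfl
  have h4 : (qt a b c - qt a' b' c').imJ = b - b' := rfl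
  have h5 : (qt a b c - qt a' b' c').imK = c - c' := rfl
  rw [h3, h4, h5]
  linarith

/-- the numerical hypotheses on the parameters -/
structure Par (d L : ℕ) (C : ℝ) : Prop where
  hd : 1 ≤ d
  hL : 2 ≤ L
  hC : 1 ≤ C
  ht : 2 * Real.log ((L : ℝ) ^ 3) ≤ d
  hτ : 12 * d * ((16 * C / 3) * Real.log ((L : ℝ) ^ 3) ^ 2 / d) ^ 2 * L ^ 2 ≤ 1

/-- short directions -/
theorem short (hc : Continuous N) (hf : μ (Ov N 0) ≠ ⊤) {d L : ℕ} {C : ℝ} (hP : Par d L C)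
    (hdd : finrank ℝ E = d) {ι : Type*} [Fintype ι] (c : ι → ℝ) (hc0 : ∀ i, 0 < c i)
    (hc1 : ∀ i, c i ≤ 1) (hcs : ∑ i, c i ≤ C) (y : ι → E) {x : E} (hx : N x ≤ 1)
    (hsum : ∑ i, c i • y i = x) (hG : 2 ^ d * (m μ N x / m μ N 0) < (L : ℝ) ^ 3 / 4) :
    ∃ i, ∀ t : ℝ, (16 * C / 3) * Real.log ((L : ℝ) ^ 3) ^ 2 / d ≤ t →
      2 * (L : ℝ) ^ 3 * m μ N (t • y i) ≤ m μ N 0 := by
  obtain ⟨hd, hL, hC, ht, -⟩ := hP
  have hp := m_pos hc hf
  have hd0 : (0 : ℝ) < d := by exact_mod_cast hd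
  have hL0 : (2 : ℝ) ≤ L := by exact_mod_cast hL
  have hM8 : (8 : ℝ) ≤ (L : ℝ) ^ 3 := by
    calc (8 : ℝ) = 2 ^ 3 := by norm_num
      _ ≤ (L : ℝ) ^ 3 := by gcongr
  set M : ℝ := (L : ℝ) ^ 3 with hM
  set lg : ℝ := Real.log M with hlg
  have hM0 : 0 < M := by linarith
  have hlg1 : 1 ≤ lg := by
    rw [hlg, Real.le_log_iff_exp_le hM0]
    exact (Real.exp_one_lt_d9.le.trans (by norm_num)).trans hM8
  set t1 : ℝ := 2 * lg / d with ht1
  have ht10 : 0 < t1 := by positivity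
  have ht11 : t1 ≤ 1 := by rw [ht1, div_le_one hd0]; exact ht
  -- the direction `x` is short
  have h1 : m μ N (t1 • x) / m μ N 0 < 1 / 4 := by
    have h2 := ray (μ := μ) hf hx ht10.le ht11
    rw [hdd] at h2
    have h3 : (2 - t1) ^ d ≤ 2 ^ d / M := by
      have h4 : 2 - t1 = 2 * (1 - t1 / 2) := by ring
      have h5 : 1 - t1 / 2 ≤ Real.exp (-(t1 / 2)) := by
        have := Real.add_one_le_exp (-(t1 / 2)); linarith
      rw [h4, mul_pow, div_eq_mul_inv]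
      have h6 : (1 - t1 / 2) ^ d ≤ M⁻¹ := by
        calc (1 - t1 / 2) ^ d ≤ (Real.exp (-(t1 / 2))) ^ d :=
              pow_le_pow_left₀ (by linarith) h5 d
          _ = Real.exp (-lg) := by
              rw [← Real.exp_nat_mul]; congr 1; rw [ht1]; field_simp
          _ = M⁻¹ := by rw [Real.exp_neg, hlg, Real.exp_log hM0]
      exact mul_le_mul_of_nonneg_left h6 (by positivity)
    calc m μ N (t1 • x) / m μ N 0 ≤ (2 ^ d / M * m μ N x) / m μ N 0 := by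
          have h0 := m_nonneg (μ := μ) (N := N) x
          have h00 := h2.trans (mul_le_mul_of_nonneg_right h3 h0)
          gcongr
      _ = (2 ^ d * (m μ N x / m μ N 0)) / M := by ring
      _ < (M / 4) / M := by gcongr
      _ = 1 / 4 := by field_simp
  -- pigeonhole
  have h2 : ∃ i, 3 * c i / (4 * C) * m μ N 0 ≤ m μ N 0 - m μ N (c i • (t1 • y i)) := by
    by_contra hcon
    push Not at hcon
    have h3 := chain_sum (μ := μ) hc hf Finset.univ (fun i => c i • (t1 • y i))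
    have h4 : ∑ i, c i • (t1 • y i) = t1 • x := by
      rw [← hsum, Finset.smul_sum]
      exact Finset.sum_congr rfl fun i _ => smul_comm _ _ _
    rw [h4] at h3
    have h5 : ∑ i, (m μ N 0 - m μ N (c i • (t1 • y i))) ≤
        ∑ i, 3 * c i / (4 * C) * m μ N 0 := Finset.sum_le_sum fun i _ => (hcon i).le
    have h6 : ∑ i, 3 * c i / (4 * C) * m μ N 0 = (3 / 4) * ((∑ i, c i) / C) * m μ N 0 := by
      rw [← Finset.sum_mul]
      congr 1
      rw [Finset.sum_div, Finset.mul_sum]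
      exact Finset.sum_congr rfl fun i _ => by field_simp
    have h7 : (∑ i, c i) / C ≤ 1 := by rw [div_le_one (by linarith)]; exact hcs
    have h8 : m μ N (t1 • x) < 1 / 4 * m μ N 0 := by
      rwa [div_lt_iff₀ hp] at h1
    have h9 : (3 / 4) * ((∑ i, c i) / C) * m μ N 0 ≤ 3 / 4 * 1 * m μ N 0 := by gcongr
    linarith
  obtain ⟨i, hi⟩ := h2
  refine ⟨i, fun t htt => ?_⟩
  have hC0 : 0 < C := by linarith
  have hci := hc0 i
  have h3 : m μ N (c i • (t1 • y i)) / m μ N 0 ≤ Real.exp (-(3 * c i / (4 * C))) := by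
    have h4 : m μ N (c i • (t1 • y i)) ≤ (1 - 3 * c i / (4 * C)) * m μ N 0 := by linarith
    rw [div_le_iff₀ hp]
    refine h4.trans ?_
    have := Real.add_one_le_exp (-(3 * c i / (4 * C)))
    have h5 : 1 - 3 * c i / (4 * C) ≤ Real.exp (-(3 * c i / (4 * C))) := by linarith
    gcongr
  have hq0 : ∀ v : E, 0 ≤ m μ N v / m μ N 0 := fun v => div_nonneg (m_nonneg v) hp.le
  have h4 : m μ N (t1 • y i) / m μ N 0 ≤ Real.exp (-(3 / (4 * C))) := by
    have h5 := (logc (μ := μ) hc hf (t1 • y i) hci (hc1 i)).trans h3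
    have h6 : Real.exp (-(3 * c i / (4 * C))) = Real.exp (-(3 / (4 * C))) ^ (c i) := by
      rw [← Real.exp_mul]; congr 1; ring
    rw [h6] at h5
    exact (Real.rpow_le_rpow_iff (hq0 _) (Real.exp_pos _).le hci).mp h5
  have hτt : t1 ≤ (16 * C / 3) * lg ^ 2 / d := by
    have h00 : 2 * lg ≤ (16 * C / 3) * lg ^ 2 := by
      have : lg ≤ lg ^ 2 := by nlinarith
      nlinarith
    rw [ht1]
    gcongr
  have ht0 : 0 < t := by linarith
  have h5 : m μ N (t • y i) / m μ N 0 ≤ M⁻¹ ^ 2 := by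
    have hs0 : 0 < t1 / t := by positivity
    have hs1 : t1 / t ≤ 1 := by rw [div_le_one ht0]; linarith
    have h6 := logc (μ := μ) hc hf (t • y i) hs0 hs1
    rw [smul_smul, div_mul_cancel₀ _ ht0.ne'] at h6
    have h7 := h6.trans h4
    have h8 : Real.exp (-(3 / (4 * C))) = Real.exp (-(3 / (4 * C)) * (t / t1)) ^ (t1 / t) := by
      rw [← Real.exp_mul]; congr 1; field_simp
    rw [h8] at h7
    have h9 := (Real.rpow_le_rpow_iff (hq0 _) (Real.exp_pos _).le hs0).mp h7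
    refine h9.trans ?_
    have h10 : M⁻¹ ^ 2 = Real.exp (-(2 * lg)) := by
      rw [show -(2 * lg) = ((2 : ℕ) : ℝ) * (-lg) by push_cast; ring, Real.exp_nat_mul,
        Real.exp_neg, hlg, Real.exp_log hM0]
    rw [h10]
    apply Real.exp_le_exp.mpr
    have h11 : 2 * lg ≤ 3 / (4 * C) * (t / t1) := by
      have h12 : (16 * C / 3) * lg ^ 2 / d / t1 ≤ t / t1 := by gcongr
      have h13 : (16 * C / 3) * lg ^ 2 / d / t1 = (8 * C / 3) * lg := by
        rw [ht1]; field_simp; ring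
      rw [h13] at h12
      calc 2 * lg = 3 / (4 * C) * ((8 * C / 3) * lg) := by field_simp; ring
        _ ≤ _ := by gcongr
    linarith
  rw [div_le_iff₀ hp] at h5
  calc 2 * M * m μ N (t • y i) ≤ 2 * M * (M⁻¹ ^ 2 * m μ N 0) := by gcongr
    _ = (2 / M) * m μ N 0 := by field_simp
    _ ≤ 1 * m μ N 0 := by
        gcongr
        rw [div_le_one hM0]; linarith
    _ = m μ N 0 := one_mul _

/-- The gain. -/
theorem gain (hc : Continuous N) (hf : μ (Ov N 0) ≠ ⊤) (hN0 : ∀ x, N x = 0 → x = 0)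
    {d L : ℕ} {C : ℝ} (hP : Par d L C)
    (hdd : finrank ℝ E = d) {ι : Type*} [Fintype ι] (ρ : ι → (ℍ[ℝ] →ₗ[ℝ] Module.End ℝ E))
    (hmul : ∀ i p q, ρ i (p * q) = ρ i p * ρ i q)
    (hinv : ∀ i q, ‖q‖ = 1 → ∀ x, N (x - ρ i 1 x + ρ i q x) ≤ N x)
    (c : ι → ℝ) (hc0 : ∀ i, 0 < c i) (hc1 : ∀ i, c i ≤ 1) (hcs : ∑ i, c i ≤ C)
    (hsum : ∀ x, ∑ i, c i • ρ i 1 x = x) {x : E} (hx : N x ≤ 1) :
    (L : ℝ) ^ 3 / 4 ≤ 2 ^ d * (m μ N x / m μ N 0) := by
  by_contra hcon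
  push Not at hcon
  obtain ⟨i, hi⟩ := short hc hf hP hdd c hc0 hc1 hcs (fun i => ρ i 1 x) hx (hsum x) hcon
  obtain ⟨hd, hL, hC, ht, hτ⟩ := hP
  have hp := m_pos hc hf
  have hd0 : (0 : ℝ) < d := by exact_mod_cast hd
  have hL0 : (2 : ℝ) ≤ L := by exact_mod_cast hL
  set M : ℝ := (L : ℝ) ^ 3 with hM
  have hM8 : (8 : ℝ) ≤ M := by
    calc (8 : ℝ) = 2 ^ 3 := by norm_num
      _ ≤ (L : ℝ) ^ 3 := by gcongr
  set τ : ℝ := (16 * C / 3) * Real.log M ^ 2 / d with hτd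
  have hlg : 0 < Real.log M := Real.log_pos (by linarith)
  have hτ0 : 0 < τ := by positivity
  set β : ℝ := 3 * τ ^ 2 * L ^ 2 with hβ
  have hβ0 : 0 ≤ β := by positivity
  have hβd : β * (4 * d) ≤ 1 := by rw [hβ]; linarith
  have hβ1 : β ≤ 1 / 4 := by
    have : (1 : ℝ) ≤ d := by exact_mod_cast hd
    nlinarith
  set r : ℝ := 1 / 2 - β with hr
  have hr0 : 0 < r := by rw [hr]; linarith
  let u : (Fin L × Fin L × Fin L) → ℍ[ℝ] := fun j =>
    qt (τ * (j.1 : ℕ)) (τ * (j.2.1 : ℕ)) (τ * (j.2.2 : ℕ))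
  have hsq : ∀ j : Fin L, (τ * (j : ℕ)) ^ 2 ≤ τ ^ 2 * L ^ 2 := by
    intro j
    have hj : ((j : ℕ) : ℝ) ≤ L := by exact_mod_cast j.2.le
    rw [mul_pow]
    gcongr
  have hball : ∀ j : Fin L × Fin L × Fin L, (τ * (j.1 : ℕ)) ^ 2 + (τ * (j.2.1 : ℕ)) ^ 2 +
      (τ * (j.2.2 : ℕ)) ^ 2 ≤ β := by
    intro j
    have h1 := hsq j.1
    have h2 := hsq j.2.1
    have h3 := hsq j.2.2
    rw [hβ]; linarith
  have hu1 : ∀ j, ‖u j‖ = 1 := fun j => qt_norm _ _ _ ((hball j).trans (by linarith))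
  have hure : ∀ j, 1 - β ≤ (u j).re := fun j =>
    le_trans (by linarith [hball j]) (qt_re _ _ _ ((hball j).trans (by linarith)))
  have hudist : ∀ j k, j ≠ k → τ ≤ ‖u j - u k‖ := by
    intro j k hjk
    have h1 := qt_dist (τ * (j.1 : ℕ)) (τ * (j.2.1 : ℕ)) (τ * (j.2.2 : ℕ))
      (τ * (k.1 : ℕ)) (τ * (k.2.1 : ℕ)) (τ * (k.2.2 : ℕ))
    have hone : ∀ a b : Fin L, a ≠ b → τ ^ 2 ≤ (τ * (a : ℕ) - τ * (b : ℕ)) ^ 2 := by
      intro a b hab
      have h2 : (1 : ℝ) ≤ ((a : ℕ) - (b : ℕ) : ℝ) ^ 2 := by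
        have h3 : ((a : ℕ) : ℤ) - (b : ℕ) ≠ 0 := by
          intro h
          apply hab
          apply Fin.ext
          omega
        have h4 : (1 : ℤ) ≤ (((a : ℕ) : ℤ) - (b : ℕ)) ^ 2 := by
          have := sq_pos_of_ne_zero h3 |> Int.add_one_le_iff.mpr
          simpa using this
        exact_mod_cast h4
      calc τ ^ 2 = τ ^ 2 * 1 := by ring
        _ ≤ τ ^ 2 * ((a : ℕ) - (b : ℕ) : ℝ) ^ 2 := by gcongr
        _ = _ := by ring
    have h2 : τ ^ 2 ≤ ‖u j - u k‖ ^ 2 := by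
      refine le_trans ?_ h1
      have e1 := sq_nonneg (τ * (j.1 : ℕ) - τ * (k.1 : ℕ))
      have e2 := sq_nonneg (τ * (j.2.1 : ℕ) - τ * (k.2.1 : ℕ))
      have e3 := sq_nonneg (τ * (j.2.2 : ℕ) - τ * (k.2.2 : ℕ))
      by_cases c1 : j.1 = k.1
      · by_cases c2 : j.2.1 = k.2.1
        · have c3 : j.2.2 ≠ k.2.2 := by
            intro c3
            exact hjk (Prod.ext c1 (Prod.ext c2 c3))
          have := hone _ _ c3
          linarith
        · have := hone _ _ c2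
          linarith
      · have := hone _ _ c1
        linarith
    exact (pow_le_pow_iff_left₀ hτ0.le (norm_nonneg _) two_ne_zero).mp h2
  have hcard : ((Finset.univ : Finset (Fin L × Fin L × Fin L)).card : ℝ) = M := by
    simp [hM]; ring
  have hpk := pack (μ := μ) hc hf (Finset.univ : Finset (Fin L × Fin L × Fin L)) x
    (fun j => (1 / 2 : ℝ) • U (ρ i) (u j) x) r hr0
    (by
      intro j _
      rw [map_smul_eq_mul, U_iso (hmul i) (hinv i) _ (hu1 j), Real.norm_of_nonneg (by norm_num)]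
      linarith)
    (by
      intro j _
      have := near (hmul i) (hinv i) (u j) (hu1 j) hβ0 (hure j) hx
      linarith)
    (by
      intro j _ k _ hjk
      rw [hcard]
      have hne : u j - u k ≠ 0 := by
        intro h
        have := hudist j k hjk
        rw [h, norm_zero] at this
        linarith
      have e : r⁻¹ • ((1 / 2 : ℝ) • U (ρ i) (u j) x - (1 / 2 : ℝ) • U (ρ i) (u k) x) =
          U (ρ i) (‖u j - u k‖⁻¹ • (u j - u k)) ((‖u j - u k‖ / (2 * r)) • ρ i 1 x) := by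
        rw [map_smul, U_P (hmul i)]
        have e1 : (1 / 2 : ℝ) • U (ρ i) (u j) x - (1 / 2 : ℝ) • U (ρ i) (u k) x =
            (1 / 2 : ℝ) • ρ i (u j - u k) x := by
          rw [← smul_sub, U_apply, U_apply, map_sub, LinearMap.sub_apply]
          congr 1
          abel
        rw [e1, ρ_norm (ρ := ρ i) _ hne x, smul_smul, smul_smul]
        congr 1
        field_simp
      rw [e, isom hc hf hN0 _ (U_iso (hmul i) (hinv i) _ (unit_norm _ hne))]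
      apply hi
      have h2r : 2 * r ≤ 1 := by rw [hr]; linarith
      rw [le_div_iff₀ (by positivity)]
      calc τ * (2 * r) ≤ τ * 1 := by gcongr
        _ ≤ ‖u j - u k‖ := by rw [mul_one]; exact hudist j k hjk)
  rw [hcard, hdd] at hpk
  have h2r : (1 / 2 : ℝ) ≤ (2 * r) ^ d := by
    have h1 := one_add_mul_le_pow (a := -(2 * β)) (by linarith) d
    have h2 : 1 + -(2 * β) = 2 * r := by rw [hr]; ring
    rw [h2] at h1
    refine le_trans ?_ h1
    linarith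
  have h3 : M / 4 * m μ N 0 ≤ 2 ^ d * m μ N x := by
    calc M / 4 * m μ N 0 = (1 / 2) * (m μ N 0 * M / 2) := by ring
      _ ≤ (2 * r) ^ d * (m μ N 0 * M / 2) := by gcongr
      _ = 2 ^ d * (r ^ d * m μ N 0 * M / 2) := by rw [mul_pow]; ring
      _ ≤ 2 ^ d * m μ N x := by gcongr
  have h4 : M / 4 ≤ 2 ^ d * (m μ N x / m μ N 0) := by
    rw [← mul_div_assoc, le_div_iff₀ hp]
    exact h3
  linarith

end Pool.Agent.Zk68.Q
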