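import Mathlib
import Pool.Agent.Zk68.Gain
import Pool.Agent.H2R2.Cov2

set_option autoImplicit false
set_option linter.unusedSectionVars false

/-!
From the overlap of the unit ball with its translates to the covering number.
-/

namespace Pool.Agent.Zk68.Q

open MeasureTheory Module Set
open scoped ENNReal Pointwise

variable {E : Type*} [NormedAddCommGroup E] [NormedSpace ℝ E] [FiniteDimensional ℝ E]
  [MeasurableSpace E] [BorelSpace E] {μ : Measure E} [μ.IsAddHaarMeasure] {N : Seminorm ℝ E}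

/-- the share of the centers near `-x` -/
theorem share (hf : μ (Ov N 0) ≠ ⊤) {x : E} (hx : N x ≤ 1) {δ : ℝ}
    (h0 : 0 ≤ δ) (h1 : 2 * δ < 1) :
    (1 - 2 * δ) ^ finrank ℝ E * m μ N x ≤ μ.real {w | N w ≤ 1 ∧ N (x - w) ≤ 1 - δ} := by
  have hl : 0 < 1 - 2 * δ := by linarith
  have hsub : (fun z => z + δ • x) '' ((-(1 - 2 * δ)) • Ov N x) ⊆
      {w | N w ≤ 1 ∧ N (x - w) ≤ 1 - δ} := by
    rintro _ ⟨_, ⟨z, ⟨hz1, hz2⟩, rfl⟩, rfl⟩
    simp only
    constructor
    · calc N (-(1 - 2 * δ) • z + δ • x) ≤ N (-(1 - 2 * δ) • z) + N (δ • x) := map_add_le_add _ _ _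
        _ = (1 - 2 * δ) * N z + δ * N x := by
            rw [map_smul_eq_mul, map_smul_eq_mul, norm_neg, Real.norm_of_nonneg hl.le,
              Real.norm_of_nonneg h0]
        _ ≤ (1 - 2 * δ) * 1 + δ * 1 := by gcongr
        _ ≤ 1 := by linarith
    · have e : x - (-(1 - 2 * δ) • z + δ • x) = (1 - 2 * δ) • (z + x) + δ • x := by
        module
      rw [e]
      calc N ((1 - 2 * δ) • (z + x) + δ • x) ≤ N ((1 - 2 * δ) • (z + x)) + N (δ • x) :=
            map_add_le_add _ _ _
        _ = (1 - 2 * δ) * N (z + x) + δ * N x := by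
            rw [map_smul_eq_mul, map_smul_eq_mul, Real.norm_of_nonneg hl.le,
              Real.norm_of_nonneg h0]
        _ ≤ (1 - 2 * δ) * 1 + δ * 1 := by gcongr
        _ ≤ 1 - δ := by linarith
  have hm : μ.real ((fun z => z + δ • x) '' ((-(1 - 2 * δ)) • Ov N x)) =
      (1 - 2 * δ) ^ finrank ℝ E * m μ N x := by
    rw [measureReal_def, img, Measure.addHaar_smul, ENNReal.toReal_mul,
      ENNReal.toReal_ofReal (abs_nonneg _), abs_pow, abs_neg, abs_of_pos hl]
    rfl
  rw [← hm]
  refine measureReal_mono hsub (ne_top_of_le_ne_top hf (measure_mono ?_))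
  rw [Ov_zero]
  exact fun w hw => hw.1

/-- Covering from the gain. -/
theorem cover (hc : Continuous N) (hcpt : IsCompact {x | N x ≤ 1}) (hd : 1 ≤ finrank ℝ E)
    {G : ℝ} (hG : 0 < G)
    (hgain : ∀ x, N x ≤ 1 → G ≤ 2 ^ finrank ℝ E * (m μ N x / m μ N 0)) :
    ∃ T : Finset E, {x | N x ≤ 1} ⊆ ⋃ t ∈ T, (fun x => t + x) '' {x | N x < 1} ∧
      (T.card : ℝ) ≤ 1 + 2 ^ finrank ℝ E * (2 * finrank ℝ E *
        Real.log (1 + 12 * finrank ℝ E) / G) := by
  classical
  set d := finrank ℝ E with hdd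
  have hd1 : (1 : ℝ) ≤ d := by exact_mod_cast hd
  have hd0 : (0 : ℝ) < d := by linarith
  have hf : μ (Ov N 0) ≠ ⊤ := by rw [Ov_zero]; exact hcpt.measure_lt_top.ne
  have hp := m_pos hc hf
  have hK : Convex ℝ {x | N x ≤ 1} := by
    intro x hx y hy a b ha hb hab
    show N (a • x + b • y) ≤ 1
    have hx' : N x ≤ 1 := hx
    have hy' : N y ≤ 1 := hy
    calc N (a • x + b • y) ≤ N (a • x) + N (b • y) := map_add_le_add _ _ _
      _ = a * N x + b * N y := by
          rw [map_smul_eq_mul, map_smul_eq_mul, Real.norm_of_nonneg ha, Real.norm_of_nonneg hb]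
      _ ≤ a * 1 + b * 1 := by gcongr
      _ = 1 := by linarith
  have hKi : (interior {x | N x ≤ 1}).Nonempty := by
    refine ⟨0, ?_⟩
    have ho : IsOpen {z | N z < 1} := isOpen_lt hc continuous_const
    exact interior_maximal (fun z (hz : N z < 1) => (show N z ≤ 1 from hz.le)) ho
      (show N (0 : E) < 1 by simp)
  set η : ℝ := 1 / (12 * d) with hη
  have hη0 : 0 < η := by positivity
  obtain ⟨S, hSK, hSnet, hScard⟩ := Pool.Agent.H2R2.Cov.exists_net _ hK hcpt hKi η hη0
  set δ : ℝ := 1 / (4 * d) with hδ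
  have hδ0 : 0 < δ := by positivity
  have hδd : 2 * δ * d = 1 / 2 := by rw [hδ]; field_simp; norm_num
  have hδ1 : 2 * δ < 1 := by nlinarith
  set θ : ℝ := G / (2 * 2 ^ d) with hθ
  have hθ0 : 0 < θ := by positivity
  have hθ1 : θ ≤ 1 := by
    have h1 := hgain 0 (by simp)
    rw [div_self hp.ne', mul_one] at h1
    rw [hθ, div_le_one (by positivity)]
    have : (0 : ℝ) < 2 ^ d := by positivity
    linarith
  have hshare : ∀ x, N x ≤ 1 → θ * m μ N 0 ≤ μ.real {w | N w ≤ 1 ∧ N (x - w) ≤ 1 - δ} := by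
    intro x hx
    refine le_trans ?_ (share hf hx hδ0.le hδ1)
    have h1 := one_add_mul_le_pow (a := -(2 * δ)) (by linarith) d
    have h2 : (1 / 2 : ℝ) ≤ (1 - 2 * δ) ^ d := by
      have e : (1 : ℝ) + -(2 * δ) = 1 - 2 * δ := by ring
      rw [e] at h1
      linarith
    have h3 := hgain x hx
    rw [← mul_div_assoc, le_div_iff₀ hp] at h3
    have h4 := m_nonneg (μ := μ) (N := N) x
    have h5 : θ * m μ N 0 = G * m μ N 0 / (2 * 2 ^ d) := by rw [hθ]; ring
    rw [h5, div_le_iff₀ (by positivity)]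
    calc G * m μ N 0 ≤ 2 ^ d * m μ N x := h3
      _ = (1 / 2) * m μ N x * (2 * 2 ^ d) := by ring
      _ ≤ (1 - 2 * δ) ^ d * m μ N x * (2 * 2 ^ d) := by gcongr
  have hgreedy := Pool.Agent.H815R2.Had.greedy_cover (S := S) (E := E)
    (fun w s => N ((s : E) - w) ≤ 1 - δ) θ hθ0 hθ1
    (by
      intro A hA
      by_contra hcon
      push Not at hcon
      -- average over the ball
      let B : Set E := Ov N 0
      have hBm : MeasurableSet B := (Ov_closed hc 0).measurableSet
      let W : S → Set E := fun s => {w | N w ≤ 1 ∧ N ((s : E) - w) ≤ 1 - δ}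
      have hWm : ∀ s, MeasurableSet (W s) := fun s =>
        ((isClosed_le hc continuous_const).inter (isClosed_le
          (hc.comp (continuous_const.sub continuous_id)) continuous_const)).measurableSet
      have hWB : ∀ s, W s ⊆ B := fun s w hw => by
        show w ∈ Ov N 0
        rw [Ov_zero]; exact hw.1
      have hint : ∀ s, ∫ w in B, (W s).indicator (fun _ => (1 : ℝ)) w ∂μ = μ.real (W s) := by
        intro s
        rw [integral_indicator (hWm s), Measure.restrict_restrict (hWm s),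
          inter_eq_left.mpr (hWB s)]
        simp
      have hii : ∀ s, IntegrableOn ((W s).indicator (fun _ => (1 : ℝ))) B μ := by
        intro s
        refine IntegrableOn.indicator ?_ (hWm s)
        exact integrableOn_const hf (by simp)
      have h1 : ∫ w in B, ∑ s ∈ A, (W s).indicator (fun _ => (1 : ℝ)) w ∂μ =
          ∑ s ∈ A, μ.real (W s) := by
        rw [integral_finsetSum _ fun s _ => hii s]
        exact Finset.sum_congr rfl fun s _ => hint s
      have h2 : (A.card : ℝ) * (θ * m μ N 0) ≤ ∑ s ∈ A, μ.real (W s) := by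
        rw [← nsmul_eq_mul, ← Finset.sum_const]
        exact Finset.sum_le_sum fun s _ => hshare s (hSK s s.2)
      obtain ⟨k, hk⟩ : ∃ k : ℕ, θ * A.card ≤ k ∧ (k : ℝ) - 1 < θ * A.card := by
        refine ⟨⌈θ * A.card⌉₊, Nat.le_ceil _, ?_⟩
        have := Nat.ceil_lt_add_one (a := θ * A.card) (by positivity)
        linarith
      have hkpt : ∀ w ∈ B, ∑ s ∈ A, (W s).indicator (fun _ => (1 : ℝ)) w ≤ (k : ℝ) - 1 := by
        intro w hw
        have h3 : ∑ s ∈ A, (W s).indicator (fun _ => (1 : ℝ)) w =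
            ((A.filter (fun s : S => N ((s : E) - w) ≤ 1 - δ)).card : ℝ) := by
          rw [Finset.card_filter]
          push_cast
          refine Finset.sum_congr rfl fun s _ => ?_
          have hw1 : N w ≤ 1 := by
            have : w ∈ Ov N 0 := hw
            rw [Ov_zero] at this; exact this
          by_cases h : N ((s : E) - w) ≤ 1 - δ
          · rw [indicator_of_mem (show w ∈ W s from ⟨hw1, h⟩), if_pos h]
          · rw [indicator_of_notMem (fun hh : w ∈ W s => h hh.2), if_neg h]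
        rw [h3]
        have h4 := hcon w
        have h5 : ((A.filter (fun s : S => N ((s : E) - w) ≤ 1 - δ)).card : ℝ) < θ * A.card := by
          convert h4
        have h6 : ((A.filter (fun s : S => N ((s : E) - w) ≤ 1 - δ)).card : ℝ) < k :=
          h5.trans_le hk.1
        have h7 : (A.filter (fun s : S => N ((s : E) - w) ≤ 1 - δ)).card + 1 ≤ k := by
          exact_mod_cast h6
        have h8 : ((A.filter (fun s : S => N ((s : E) - w) ≤ 1 - δ)).card : ℝ) + 1 ≤ k := by
          exact_mod_cast h7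
        linarith
      have h3 : ∫ w in B, ∑ s ∈ A, (W s).indicator (fun _ => (1 : ℝ)) w ∂μ ≤
          ∫ w in B, ((k : ℝ) - 1) ∂μ := by
        refine setIntegral_mono_on (integrable_finsetSum _ fun s _ => hii s)
          (integrableOn_const hf (by simp)) hBm hkpt
      rw [h1, setIntegral_const, smul_eq_mul] at h3
      have h4 : (A.card : ℝ) * (θ * m μ N 0) ≤ m μ N 0 * ((k : ℝ) - 1) := h2.trans h3
      have h5 : (A.card : ℝ) * (θ * m μ N 0) > m μ N 0 * ((k : ℝ) - 1) := by
        have := mul_lt_mul_of_pos_left hk.2 hp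
        calc m μ N 0 * ((k : ℝ) - 1) < m μ N 0 * (θ * A.card) := this
          _ = _ := by ring
      linarith)
    ((1 + 1 / η) ^ d) (by
      rw [Fintype.card_coe]; exact hScard) (one_le_pow₀ (by
        have : 0 < 1 / η := by positivity
        linarith))
  obtain ⟨Y, hYcard, hY⟩ := hgreedy
  refine ⟨Y, ?_, ?_⟩
  · intro y hy
    obtain ⟨x, hxS, k, hk, k', hk', hyx⟩ := hSnet y hy
    obtain ⟨w, hwY, hw⟩ := hY ⟨x, hxS⟩
    have hw' : N (x - w) ≤ 1 - δ := hw
    rw [mem_iUnion₂]
    refine ⟨w, hwY, y - w, ?_, by simp⟩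
    show N (y - w) < 1
    have hk1 : N k ≤ 1 := hk
    have hk1' : N k' ≤ 1 := hk'
    have e : y - w = (x - w) + η • (k - k') := by rw [hyx]; abel
    have h1 : N (η • (k - k')) ≤ η * 2 := by
      rw [map_smul_eq_mul, Real.norm_of_nonneg hη0.le]
      have := map_sub_le_add N k k'
      gcongr
      linarith
    have h2 : η * 2 < δ := by
      rw [hη, hδ, div_mul_eq_mul_div, one_mul, div_lt_div_iff₀ (by positivity) (by positivity)]
      linarith
    rw [e]
    linarith [map_add_le_add N (x - w) (η • (k - k'))]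
  · refine hYcard.trans (le_of_eq ?_)
    rw [Real.log_pow, hθ, hη]
    have e : 1 + 1 / (1 / (12 * (d : ℝ))) = 1 + 12 * d := by rw [one_div_one_div]
    rw [e]
    field_simp
    ring

end Pool.Agent.Zk68.Q
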