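import Mathlib
import Pool.Agent.Zk68.Cover
import Pool.Agent.H2R2.Cov2

set_option autoImplicit false
set_option linter.unusedSectionVars false

/-!
From the overlap of the unit ball with its translates to the covering number.
-/

namespace Pool.Agent.Zk68.Q

open MeasureTheory Module Set
open scoped ENNReal Pointwise

variable {E : Type*} [NormedAddCommGroup E] [NormedSpace ℝ E] [FiniteDimensional ℝ E]
  [MeasurableSpace E] [BorelSpace E] {μ : Measure E} [μ.IsAddHaarMeasure] {N : Seminorm ℝ E}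

theorem exp_aux {κ : ℝ} (h0 : 0 ≤ κ) (h1 : κ ≤ 5 / 8) : Real.exp (-(2 * κ)) ≤ 1 - κ := by
  have hc := convexOn_exp.2 (mem_univ (0 : ℝ)) (mem_univ (-(5 / 4) : ℝ))
    (show 0 ≤ 1 - 8 / 5 * κ by linarith) (show 0 ≤ 8 / 5 * κ by linarith) (by ring)
  simp only [smul_eq_mul, mul_zero, zero_add, Real.exp_zero, mul_one] at hc
  have e : 8 / 5 * κ * -(5 / 4) = -(2 * κ) := by ring
  rw [e] at hc
  have h3 : Real.exp (-(5 / 4)) ≤ 3 / 8 := by
    rw [Real.exp_neg, inv_le_comm₀ (Real.exp_pos _) (by norm_num)]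
    have h4 := Real.quadratic_le_exp_of_nonneg (show (0 : ℝ) ≤ 5 / 4 by norm_num)
    have h5 : Real.exp (5 / 4) = Real.exp (5 / 8) ^ 2 := by
      rw [← Real.exp_nat_mul]; norm_num
    have h6 := Real.quadratic_le_exp_of_nonneg (show (0 : ℝ) ≤ 5 / 8 by norm_num)
    rw [h5]
    nlinarith
  nlinarith

/-- the share of the centers near `-x` -/
theorem share' (hf : μ (Ov N 0) ≠ ⊤) {x : E} {l κ δ : ℝ} (hl : 1 ≤ l) (hx : N x ≤ l)
    (hκ : 0 ≤ κ) (hκ1 : κ < 1) (h : l - 1 + δ ≤ κ) :
    (1 - κ) ^ finrank ℝ E * m μ N (l⁻¹ • x) ≤ μ.real {w | N w ≤ 1 ∧ N (x - w) ≤ 1 - δ} := by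
  have hl0 : 0 < l := by linarith
  have hl' : 0 < 1 - κ := by linarith
  set y : E := l⁻¹ • x with hy
  have hxy : x = l • y := by rw [hy, smul_smul, mul_inv_cancel₀ hl0.ne', one_smul]
  have hNy : N y ≤ 1 := by
    rw [hy, map_smul_eq_mul, Real.norm_of_nonneg (by positivity), inv_mul_le_iff₀ hl0, mul_one]
    exact hx
  have hsub : (fun z => z + κ • y) '' ((-(1 - κ)) • Ov N y) ⊆
      {w | N w ≤ 1 ∧ N (x - w) ≤ 1 - δ} := by
    rintro _ ⟨_, ⟨z, ⟨hz1, hz2⟩, rfl⟩, rfl⟩
    simp only
    constructor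
    · calc N (-(1 - κ) • z + κ • y) ≤ N (-(1 - κ) • z) + N (κ • y) := map_add_le_add _ _ _
        _ = (1 - κ) * N z + κ * N y := by
            rw [map_smul_eq_mul, map_smul_eq_mul, norm_neg, Real.norm_of_nonneg hl'.le,
              Real.norm_of_nonneg hκ]
        _ ≤ (1 - κ) * 1 + κ * 1 := by gcongr
        _ = 1 := by ring
    · have e : x - (-(1 - κ) • z + κ • y) = (1 - κ) • (z + y) + (l - 1) • y := by
        rw [hxy]; module
      rw [e]
      calc N ((1 - κ) • (z + y) + (l - 1) • y) ≤ N ((1 - κ) • (z + y)) + N ((l - 1) • y) :=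
            map_add_le_add _ _ _
        _ = (1 - κ) * N (z + y) + (l - 1) * N y := by
            rw [map_smul_eq_mul, map_smul_eq_mul, Real.norm_of_nonneg hl'.le,
              Real.norm_of_nonneg (by linarith)]
        _ ≤ (1 - κ) * 1 + (l - 1) * 1 := by
            have : 0 ≤ l - 1 := by linarith
            gcongr
        _ ≤ 1 - δ := by linarith
  have hm : μ.real ((fun z => z + κ • y) '' ((-(1 - κ)) • Ov N y)) =
      (1 - κ) ^ finrank ℝ E * m μ N y := by
    rw [measureReal_def, img, Measure.addHaar_smul, ENNReal.toReal_mul,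
      ENNReal.toReal_ofReal (abs_nonneg _), abs_pow, abs_neg, abs_of_pos hl']
    rfl
  rw [← hm]
  refine measureReal_mono hsub (ne_top_of_le_ne_top hf (measure_mono ?_))
  rw [Ov_zero]
  exact fun w hw => hw.1

/-- Covering of a slightly larger ball from the gain. -/
theorem cover' (hc : Continuous N) (hcpt : IsCompact {x | N x ≤ 1}) (hd : 2 ≤ finrank ℝ E)
    {G : ℝ} (hG : 0 < G)
    (hgain : ∀ x, N x ≤ 1 → G ≤ 2 ^ finrank ℝ E * (m μ N x / m μ N 0)) :
    ∃ T : Finset E, {x | N x ≤ 1 + 1 / (finrank ℝ E : ℝ)} ⊆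
        ⋃ t ∈ T, (fun x => t + x) '' {x | N x < 1} ∧
      (T.card : ℝ) ≤ 1 + 2 ^ finrank ℝ E * (13 * finrank ℝ E *
        Real.log (1 + 13 * finrank ℝ E) / G) := by
  classical
  set d := finrank ℝ E with hdd
  have hd2 : (2 : ℝ) ≤ d := by exact_mod_cast hd
  have hd1 : (1 : ℝ) ≤ d := by linarith
  have hd0 : (0 : ℝ) < d := by linarith
  set l : ℝ := 1 + 1 / (d : ℝ) with hl
  have hl1 : 1 ≤ l := by rw [hl]; have : 0 < 1 / (d : ℝ) := by positivity
                         linarith
  have hl2 : l ≤ 3 / 2 := by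
    rw [hl]
    have : 1 / (d : ℝ) ≤ 1 / 2 := by
      rw [div_le_div_iff₀ hd0 (by norm_num)]; linarith
    linarith
  have hcpt' : IsCompact {x | N x ≤ l} := by
    have h1 : {x | N x ≤ l} = l • {x | N x ≤ 1} := by
      ext x
      rw [mem_smul_set_iff_inv_smul_mem₀ (by linarith)]
      show N x ≤ l ↔ N (l⁻¹ • x) ≤ 1
      rw [map_smul_eq_mul, Real.norm_of_nonneg (by positivity), inv_mul_le_iff₀ (by linarith),
        mul_one]
    rw [h1]; exact hcpt.smul l
  have hf : μ (Ov N 0) ≠ ⊤ := by rw [Ov_zero]; exact hcpt.measure_lt_top.ne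
  have hp := m_pos hc hf
  have hK : Convex ℝ {x | N x ≤ l} := by
    intro x hx y hy a b ha hb hab
    show N (a • x + b • y) ≤ l
    have hx' : N x ≤ l := hx
    have hy' : N y ≤ l := hy
    calc N (a • x + b • y) ≤ N (a • x) + N (b • y) := map_add_le_add _ _ _
      _ = a * N x + b * N y := by
          rw [map_smul_eq_mul, map_smul_eq_mul, Real.norm_of_nonneg ha, Real.norm_of_nonneg hb]
      _ ≤ a * l + b * l := by gcongr
      _ = l := by rw [← add_mul, hab, one_mul]
  have hKi : (interior {x | N x ≤ l}).Nonempty := by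
    refine ⟨0, ?_⟩
    have ho : IsOpen {z | N z < 1} := isOpen_lt hc continuous_const
    exact interior_maximal (fun z (hz : N z < 1) => (show N z ≤ l from hz.le.trans hl1)) ho
      (show N (0 : E) < 1 by simp)
  set η : ℝ := 1 / (13 * d) with hη
  have hη0 : 0 < η := by positivity
  obtain ⟨S, hSK, hSnet, hScard⟩ := Pool.Agent.H2R2.Cov.exists_net _ hK hcpt' hKi η hη0
  set δ : ℝ := 1 / (4 * d) with hδ
  have hδ0 : 0 < δ := by positivity
  set κ : ℝ := 5 / (4 * d) with hκ
  have hκ0 : 0 < κ := by positivity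
  have hκ1 : κ ≤ 5 / 8 := by
    rw [hκ, div_le_div_iff₀ (by positivity) (by norm_num)]; linarith
  have hκl : l - 1 + δ ≤ κ := by
    rw [hl, hδ, hκ]
    refine le_of_eq ?_
    field_simp
    ring
  have hκd : (1 / 13 : ℝ) ≤ (1 - κ) ^ d := by
    have h1 : Real.exp (-(2 * κ)) ≤ 1 - κ := by
      exact exp_aux hκ0.le hκ1
    calc (1 / 13 : ℝ) ≤ Real.exp (-(5 / 2)) := by
          have h3 : Real.exp (5 / 2) ≤ 13 := by
            have h4 : Real.exp (5 / 2) ^ 2 = Real.exp 1 ^ 5 := by
              rw [← Real.exp_nat_mul, ← Real.exp_nat_mul]; norm_num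
            have h5 : Real.exp 1 ^ 5 ≤ 2.7182818286 ^ 5 :=
              pow_le_pow_left₀ (Real.exp_pos _).le Real.exp_one_lt_d9.le 5
            have h6 : Real.exp (5 / 2) ^ 2 ≤ 13 ^ 2 := by
              rw [h4]; refine h5.trans ?_; norm_num
            exact (pow_le_pow_iff_left₀ (Real.exp_pos _).le (by norm_num) two_ne_zero).mp h6
          rw [Real.exp_neg, one_div]
          exact inv_anti₀ (Real.exp_pos _) h3
      _ = Real.exp (-(2 * κ)) ^ d := by
          rw [← Real.exp_nat_mul]; congr 1; rw [hκ]; field_simp; norm_num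
      _ ≤ (1 - κ) ^ d := pow_le_pow_left₀ (Real.exp_pos _).le h1 d
  set θ : ℝ := G / (13 * 2 ^ d) with hθ
  have hθ0 : 0 < θ := by positivity
  have hθ1 : θ ≤ 1 := by
    have h1 := hgain 0 (by simp)
    rw [div_self hp.ne', mul_one] at h1
    rw [hθ, div_le_one (by positivity)]
    have : (0 : ℝ) < 2 ^ d := by positivity
    linarith
  have hshare : ∀ x, N x ≤ l → θ * m μ N 0 ≤ μ.real {w | N w ≤ 1 ∧ N (x - w) ≤ 1 - δ} := by
    intro x hx
    refine le_trans ?_ (share' hf hl1 hx hκ0.le (by linarith) hκl)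
    have h1 := hgain (l⁻¹ • x) (by
      rw [map_smul_eq_mul, Real.norm_of_nonneg (by positivity), inv_mul_le_iff₀ (by linarith),
        mul_one]
      exact hx)
    rw [← mul_div_assoc, le_div_iff₀ hp] at h1
    have h4 := m_nonneg (μ := μ) (N := N) (l⁻¹ • x)
    have h5 : θ * m μ N 0 = G * m μ N 0 / (13 * 2 ^ d) := by rw [hθ]; ring
    rw [h5, div_le_iff₀ (by positivity)]
    calc G * m μ N 0 ≤ 2 ^ d * m μ N (l⁻¹ • x) := h1
      _ = (1 / 13) * m μ N (l⁻¹ • x) * (13 * 2 ^ d) := by ring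
      _ ≤ (1 - κ) ^ d * m μ N (l⁻¹ • x) * (13 * 2 ^ d) := by gcongr
  have hgreedy := Pool.Agent.H815R2.Had.greedy_cover (S := S) (E := E)
    (fun w s => N ((s : E) - w) ≤ 1 - δ) θ hθ0 hθ1
    (by
      intro A hA
      by_contra hcon
      push Not at hcon
      -- average over the ball
      let B : Set E := Ov N 0
      have hBm : MeasurableSet B := (Ov_closed hc 0).measurableSet
      let W : S → Set E := fun s => {w | N w ≤ 1 ∧ N ((s : E) - w) ≤ 1 - δ}
      have hWm : ∀ s, MeasurableSet (W s) := fun s =>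
        ((isClosed_le hc continuous_const).inter (isClosed_le
          (hc.comp (continuous_const.sub continuous_id)) continuous_const)).measurableSet
      have hWB : ∀ s, W s ⊆ B := fun s w hw => by
        show w ∈ Ov N 0
        rw [Ov_zero]; exact hw.1
      have hint : ∀ s, ∫ w in B, (W s).indicator (fun _ => (1 : ℝ)) w ∂μ = μ.real (W s) := by
        intro s
        rw [integral_indicator (hWm s), Measure.restrict_restrict (hWm s),
          inter_eq_left.mpr (hWB s)]
        simp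
      have hii : ∀ s, IntegrableOn ((W s).indicator (fun _ => (1 : ℝ))) B μ := by
        intro s
        refine IntegrableOn.indicator ?_ (hWm s)
        exact integrableOn_const hf (by simp)
      have h1 : ∫ w in B, ∑ s ∈ A, (W s).indicator (fun _ => (1 : ℝ)) w ∂μ =
          ∑ s ∈ A, μ.real (W s) := by
        rw [integral_finsetSum _ fun s _ => hii s]
        exact Finset.sum_congr rfl fun s _ => hint s
      have h2 : (A.card : ℝ) * (θ * m μ N 0) ≤ ∑ s ∈ A, μ.real (W s) := by
        rw [← nsmul_eq_mul, ← Finset.sum_const]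
        exact Finset.sum_le_sum fun s _ => hshare s (hSK s s.2)
      obtain ⟨k, hk⟩ : ∃ k : ℕ, θ * A.card ≤ k ∧ (k : ℝ) - 1 < θ * A.card := by
        refine ⟨⌈θ * A.card⌉₊, Nat.le_ceil _, ?_⟩
        have := Nat.ceil_lt_add_one (a := θ * A.card) (by positivity)
        linarith
      have hkpt : ∀ w ∈ B, ∑ s ∈ A, (W s).indicator (fun _ => (1 : ℝ)) w ≤ (k : ℝ) - 1 := by
        intro w hw
        have h3 : ∑ s ∈ A, (W s).indicator (fun _ => (1 : ℝ)) w =
            ((A.filter (fun s : S => N ((s : E) - w) ≤ 1 - δ)).card : ℝ) := by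
          rw [Finset.card_filter]
          push_cast
          refine Finset.sum_congr rfl fun s _ => ?_
          have hw1 : N w ≤ 1 := by
            have : w ∈ Ov N 0 := hw
            rw [Ov_zero] at this; exact this
          by_cases h : N ((s : E) - w) ≤ 1 - δ
          · rw [indicator_of_mem (show w ∈ W s from ⟨hw1, h⟩), if_pos h]
          · rw [indicator_of_notMem (fun hh : w ∈ W s => h hh.2), if_neg h]
        rw [h3]
        have h4 := hcon w
        have h5 : ((A.filter (fun s : S => N ((s : E) - w) ≤ 1 - δ)).card : ℝ) < θ * A.card := by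
          convert h4
        have h6 : ((A.filter (fun s : S => N ((s : E) - w) ≤ 1 - δ)).card : ℝ) < k :=
          h5.trans_le hk.1
        have h7 : (A.filter (fun s : S => N ((s : E) - w) ≤ 1 - δ)).card + 1 ≤ k := by
          exact_mod_cast h6
        have h8 : ((A.filter (fun s : S => N ((s : E) - w) ≤ 1 - δ)).card : ℝ) + 1 ≤ k := by
          exact_mod_cast h7
        linarith
      have h3 : ∫ w in B, ∑ s ∈ A, (W s).indicator (fun _ => (1 : ℝ)) w ∂μ ≤
          ∫ w in B, ((k : ℝ) - 1) ∂μ := by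
        refine setIntegral_mono_on (integrable_finsetSum _ fun s _ => hii s)
          (integrableOn_const hf (by simp)) hBm hkpt
      rw [h1, setIntegral_const, smul_eq_mul] at h3
      have h4 : (A.card : ℝ) * (θ * m μ N 0) ≤ m μ N 0 * ((k : ℝ) - 1) := h2.trans h3
      have h5 : (A.card : ℝ) * (θ * m μ N 0) > m μ N 0 * ((k : ℝ) - 1) := by
        have := mul_lt_mul_of_pos_left hk.2 hp
        calc m μ N 0 * ((k : ℝ) - 1) < m μ N 0 * (θ * A.card) := this
          _ = _ := by ring
      linarith)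
    ((1 + 1 / η) ^ d) (by
      rw [Fintype.card_coe]; exact hScard) (one_le_pow₀ (by
        have : 0 < 1 / η := by positivity
        linarith))
  obtain ⟨Y, hYcard, hY⟩ := hgreedy
  refine ⟨Y, ?_, ?_⟩
  · intro y hy
    obtain ⟨x, hxS, k, hk, k', hk', hyx⟩ := hSnet y hy
    obtain ⟨w, hwY, hw⟩ := hY ⟨x, hxS⟩
    have hw' : N (x - w) ≤ 1 - δ := hw
    rw [mem_iUnion₂]
    refine ⟨w, hwY, y - w, ?_, by simp⟩
    show N (y - w) < 1
    have hk1 : N k ≤ l := hk
    have hk1' : N k' ≤ l := hk'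
    have e : y - w = (x - w) + η • (k - k') := by rw [hyx]; abel
    have h1 : N (η • (k - k')) ≤ η * 3 := by
      rw [map_smul_eq_mul, Real.norm_of_nonneg hη0.le]
      have := map_sub_le_add N k k'
      gcongr
      linarith
    have h2 : η * 3 < δ := by
      rw [hη, hδ, div_mul_eq_mul_div, one_mul, div_lt_div_iff₀ (by positivity) (by positivity)]
      linarith
    rw [e]
    linarith [map_add_le_add N (x - w) (η • (k - k'))]
  · refine hYcard.trans (le_of_eq ?_)
    rw [Real.log_pow, hθ, hη]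
    have e : 1 + 1 / (1 / (13 * (d : ℝ))) = 1 + 13 * d := by rw [one_div_one_div]
    rw [e]
    field_simp
    ring

end Pool.Agent.Zk68.Q
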