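import Mathlib
import Pool.Agent.Zk68.Cover

set_option autoImplicit false
set_option linter.unusedSectionVars false

/-!
The covering theorem for bodies with quaternionic symmetries, in large dimensions.
-/

namespace Pool.Agent.Zk68.Q

open MeasureTheory Module Set Quaternion Filter
open scoped ENNReal Pointwise Topology

/-- the choice of the parameters -/
theorem param (ε : ℝ) (hε : 0 < ε) : ∃ d0 : ℕ, 2 ≤ d0 ∧ ∀ d : ℕ, d0 ≤ d →
    2 / ε ≤ 2 ^ d ∧ ∃ L : ℕ, 16 * (d : ℝ) *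
    Real.log (1 + 12 * d) ≤ ε * (L : ℝ) ^ 3 ∧ ∀ C : ℝ, 1 ≤ C → C ^ 10 ≤ d → Par d L C := by
  have hlo : ∀ᶠ x : ℝ in atTop, Real.log x ≤ (1 / 20) * x ^ (1 / 40 : ℝ) := by
    have h := isLittleO_log_rpow_atTop (show (0 : ℝ) < 1 / 40 by norm_num)
    have h2 := h.def (show (0 : ℝ) < 1 / 20 by norm_num)
    filter_upwards [h2, eventually_ge_atTop (1 : ℝ)] with x hx hx1
    rw [Real.norm_of_nonneg (Real.log_nonneg hx1), Real.norm_of_nonneg (by positivity)] at hx
    exact hx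
  have hbig : ∀ᶠ x : ℝ in atTop, max 2 (2 / ε) ≤ x ^ (1 / 40 : ℝ) :=
    (tendsto_rpow_atTop (show (0 : ℝ) < 1 / 40 by norm_num)).eventually_ge_atTop _
  have hall : ∀ᶠ d : ℕ in atTop, Real.log (d : ℝ) ≤ (1 / 20) * (d : ℝ) ^ (1 / 40 : ℝ) ∧
      max 2 (2 / ε) ≤ (d : ℝ) ^ (1 / 40 : ℝ) ∧ (13 : ℝ) ≤ d :=
    tendsto_natCast_atTop_atTop.eventually (hlo.and (hbig.and (eventually_ge_atTop 13)))
  obtain ⟨d1, hd1⟩ := eventually_atTop.mp hall
  refine ⟨max 2 d1, le_max_left _ _, fun d hd => ?_⟩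
  obtain ⟨h1, h20, h13⟩ := hd1 d ((le_max_right _ _).trans hd)
  have h2 := (le_max_left _ _).trans h20
  have h2ε := (le_max_right _ _).trans h20
  have hd2 : 2 ≤ d := (le_max_left _ _).trans hd
  have hd0 : (0 : ℝ) < d := by linarith
  have hd1' : (1 : ℝ) ≤ d := by linarith
  set X : ℝ := (d : ℝ) ^ (1 / 40 : ℝ) with hX
  have hX0 : 0 < X := by positivity
  have hX40 : X ^ 40 = d := by
    rw [hX, ← Real.rpow_natCast, ← Real.rpow_mul hd0.le]
    norm_num
  set L : ℕ := ⌈X ^ 14⌉₊ with hL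
  have hL1 : X ^ 14 ≤ L := Nat.le_ceil _
  have hL2 : (L : ℝ) ≤ 2 * X ^ 14 := by
    have h3 := (Nat.ceil_lt_add_one (a := X ^ 14) (by positivity)).le
    have h4 : (1 : ℝ) ≤ X ^ 14 := one_le_pow₀ (by linarith)
    linarith
  have hL3 : (L : ℝ) ≤ d := by
    refine hL2.trans ?_
    calc 2 * X ^ 14 ≤ X * X ^ 14 := by gcongr
      _ = X ^ 15 := by ring
      _ ≤ X ^ 40 := pow_le_pow_right₀ (by linarith) (by norm_num)
      _ = d := hX40
  have hLge : (16384 : ℝ) ≤ L := by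
    refine le_trans ?_ hL1
    calc (16384 : ℝ) = 2 ^ 14 := by norm_num
      _ ≤ X ^ 14 := by gcongr
  have hL0 : (0 : ℝ) < L := by linarith
  have hlogL : Real.log L ≤ (1 / 20) * X := (Real.log_le_log hL0 hL3).trans h1
  have hlogL0 : 0 ≤ Real.log L := Real.log_nonneg (by linarith)
  have hlog3 : Real.log ((L : ℝ) ^ 3) = 3 * Real.log L := by
    rw [Real.log_pow]; norm_num
  refine ⟨?_, L, ?_, fun C hC hC10 => ⟨by omega, ?_, hC, ?_, ?_⟩⟩
  · calc 2 / ε ≤ X := h2ε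
      _ ≤ X ^ 40 := le_self_pow₀ (by linarith) (by norm_num)
      _ = d := hX40
      _ ≤ 2 ^ d := by exact_mod_cast Nat.lt_two_pow_self.le
  · -- the covering number
    have h3 : Real.log (1 + 12 * (d : ℝ)) ≤ 2 * Real.log d := by
      have h4 : 2 * Real.log (d : ℝ) = Real.log ((d : ℝ) ^ 2) := by
        rw [Real.log_pow]; norm_num
      rw [h4]
      apply Real.log_le_log (by positivity)
      nlinarith
    calc 16 * (d : ℝ) * Real.log (1 + 12 * d) ≤ 16 * (d : ℝ) * (2 * ((1 / 20) * X)) := by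
          have := h3.trans (mul_le_mul_of_nonneg_left h1 zero_le_two)
          gcongr
      _ = (8 / 5) * X * X ^ 40 := by rw [hX40]; ring
      _ ≤ 2 * X * X ^ 40 := by gcongr; norm_num
      _ = ε * (2 / ε) * X * X ^ 40 := by field_simp
      _ ≤ ε * X * X * X ^ 40 := by gcongr
      _ = ε * (X ^ 14) ^ 3 := by ring
      _ ≤ ε * (L : ℝ) ^ 3 := by gcongr
  · have : (2 : ℝ) ≤ L := by linarith
    exact_mod_cast this
  · rw [hlog3]
    calc 2 * (3 * Real.log L) ≤ 2 * (3 * ((1 / 20) * X)) := by gcongr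
      _ ≤ X := by linarith
      _ ≤ X ^ 40 := le_self_pow₀ (by linarith) (by norm_num)
      _ = d := hX40
  · rw [hlog3]
    have hC4 : C ≤ X ^ 4 := by
      have h5 : C ^ 10 ≤ (X ^ 4) ^ 10 := by
        rw [← pow_mul]; norm_num; rw [hX40]; exact hC10
      exact (pow_le_pow_iff_left₀ (by linarith) (by positivity) (by norm_num)).mp h5
    have h6 : ((16 * C / 3) * (3 * Real.log L) ^ 2 / d) ≤
        (16 * X ^ 4 / 3) * (3 * ((1 / 20) * X)) ^ 2 / X ^ 40 := by
      rw [hX40]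
      gcongr
    have h7 : 0 ≤ ((16 * C / 3) * (3 * Real.log L) ^ 2 / d) := by positivity
    calc 12 * d * ((16 * C / 3) * (3 * Real.log L) ^ 2 / d) ^ 2 * L ^ 2
        ≤ 12 * X ^ 40 * ((16 * X ^ 4 / 3) * (3 * ((1 / 20) * X)) ^ 2 / X ^ 40) ^ 2 *
          (2 * X ^ 14) ^ 2 := by
          rw [hX40] at h6 ⊢
          gcongr
      _ = (12 * (3 / 25) ^ 2 * 4) * (X ^ 40 * X ^ 12 * X ^ 28 / X ^ 80) := by
          have : X ≠ 0 := hX0.ne'
          field_simp
          ring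
      _ = 12 * (3 / 25) ^ 2 * 4 := by
          have : X ≠ 0 := hX0.ne'
          field_simp
      _ ≤ 1 := by norm_num

/-- The covering theorem for symmetric bodies with quaternionic symmetries on pieces. -/
theorem big (ε : ℝ) (hε : 0 < ε) : ∃ d0 : ℕ, ∀ (E : Type) [NormedAddCommGroup E] [NormedSpace ℝ E]
    [FiniteDimensional ℝ E] (K : Set E), Convex ℝ K → IsCompact K → (interior K).Nonempty →
    (∀ x ∈ K, -x ∈ K) → d0 ≤ finrank ℝ E →
    ∀ (ι : Type) [Fintype ι] (ρ : ι → (ℍ[ℝ] →ₗ[ℝ] Module.End ℝ E)) (c : ι → ℝ),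
    (∀ i p q, ρ i (p * q) = ρ i p * ρ i q) →
    (∀ i q, ‖q‖ = 1 → ∀ x ∈ K, x - ρ i 1 x + ρ i q x ∈ K) →
    (∀ i, 0 < c i) → (∀ i, c i ≤ 1) → (∀ x, ∑ i, c i • ρ i 1 x = x) →
    (∑ i, c i) ^ 10 ≤ finrank ℝ E →
    ∃ T : Finset E, (T.card : ℝ) ≤ ε * 2 ^ finrank ℝ E ∧
      K ⊆ ⋃ t ∈ T, (fun x => t + x) '' interior K := by
  obtain ⟨d0, hd0, hpar⟩ := param ε hε
  refine ⟨d0, ?_⟩
  intro E _ _ _ K hK hKc hKi hKs hd ι _ ρ c hmul hinv hc0 hc1 hsum hC10
  let _ : MeasurableSpace E := borel E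
  have _ : BorelSpace E := ⟨rfl⟩
  set d := finrank ℝ E with hdd
  obtain ⟨h2d, L, hLc, hLP⟩ := hpar d hd
  set C : ℝ := max 1 (∑ i, c i) with hC
  have hCs0 : 0 ≤ ∑ i, c i := Finset.sum_nonneg fun i _ => (hc0 i).le
  have hd1 : (1 : ℝ) ≤ d := by exact_mod_cast (by omega : 1 ≤ d)
  have hP : Par d L C := by
    refine hLP C (le_max_left _ _) ?_
    rcases max_cases 1 (∑ i, c i) with ⟨h, _⟩ | ⟨h, _⟩
    · rw [hC, h, one_pow]; exact hd1
    · rw [hC, h]; exact hC10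
  -- the norm
  have h0 : (0 : E) ∈ interior K := by
    obtain ⟨x, hx⟩ := hKi
    have hx' : -x ∈ K := hKs x (interior_subset hx)
    have h := hK.combo_interior_self_subset_interior (a := 1 / 2) (b := 1 / 2) (by norm_num)
      (by norm_num) (by norm_num) (Set.add_mem_add (Set.smul_mem_smul_set hx)
        (Set.smul_mem_smul_set hx'))
    simpa using h
  have hnhds : K ∈ 𝓝 (0 : E) := mem_interior_iff_mem_nhds.mp h0
  have hbal : Balanced ℝ K := by
    intro a ha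
    rintro _ ⟨x, hx, rfl⟩
    simp only
    have ha' : |a| ≤ 1 := ha
    rcases le_total 0 a with h | h
    · have := hK (interior_subset h0) hx (a := 1 - a) (b := a)
        (by rw [abs_of_nonneg h] at ha'; linarith) h (by ring)
      simpa using this
    · have := hK (interior_subset h0) (hKs x hx) (a := 1 - (-a)) (b := -a)
        (by rw [abs_of_nonpos h] at ha'; linarith) (by linarith) (by ring)
      simpa using this
  have habs : Absorbent ℝ K := absorbent_nhds_zero hnhds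
  let N : Seminorm ℝ E := gaugeSeminorm hbal hK habs
  have hNK : ∀ x, N x ≤ 1 ↔ x ∈ K := by
    intro x
    have := gauge_le_one_iff_mem_closure (x := x) hK hnhds
    rw [hKc.isClosed.closure_eq] at this
    exact this
  have hKN : {x | N x ≤ 1} = K := by ext x; exact hNK x
  have hNi : {x | N x < 1} = interior K := by
    ext x
    exact gauge_lt_one_iff_mem_interior hK hnhds
  have hcont : Continuous N := continuous_gauge hK hnhds
  have hN0 : ∀ x, N x = 0 → x = 0 := by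
    intro x hx
    by_contra hne
    have := (gauge_pos habs (NormedSpace.isVonNBounded_of_isBounded ℝ hKc.isBounded)).mpr hne
    have h2 : gauge K x = 0 := hx
    rw [h2] at this
    exact lt_irrefl _ this
  let μ : Measure E := Measure.addHaar
  have hf : μ (Ov N 0) ≠ ⊤ := by
    rw [Ov_zero, hKN]; exact hKc.measure_lt_top.ne
  have hinv' : ∀ i q, ‖q‖ = 1 → ∀ x, N (x - ρ i 1 x + ρ i q x) ≤ N x := by
    intro i q hq x
    by_cases hx : x = 0
    · simp [hx]
    · have hNx : 0 < N x := lt_of_le_of_ne (apply_nonneg N x) fun h => hx (hN0 x h.symm)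
      have h1 : N ((N x)⁻¹ • x) ≤ 1 := by
        rw [map_smul_eq_mul, Real.norm_of_nonneg (by positivity), inv_mul_cancel₀ hNx.ne']
      have h2 := (hNK _).mpr (hinv i q hq _ ((hNK _).mp h1))
      have e : (N x)⁻¹ • x - ρ i 1 ((N x)⁻¹ • x) + ρ i q ((N x)⁻¹ • x) =
          (N x)⁻¹ • (x - ρ i 1 x + ρ i q x) := by
        rw [map_smul, map_smul, smul_add, smul_sub]
      rw [e, map_smul_eq_mul, Real.norm_of_nonneg (by positivity), inv_mul_le_iff₀ hNx,
        mul_one] at h2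
      exact h2
  have hL2 : (2 : ℝ) ≤ L := by exact_mod_cast hP.hL
  have hgain := fun x (hx : N x ≤ 1) => gain (μ := μ) hcont hf hN0 hP hdd.symm ρ hmul hinv' c
    hc0 hc1 (le_max_right _ _) hsum hx
  obtain ⟨T, hT, hTc⟩ := cover (μ := μ) hcont (by rw [hKN]; exact hKc) (by omega)
    (G := (L : ℝ) ^ 3 / 4) (by positivity) hgain
  refine ⟨T, ?_, by rw [hKN, hNi] at hT; exact hT⟩
  refine hTc.trans ?_
  have h2 : 2 * (d : ℝ) * Real.log (1 + 12 * d) / ((L : ℝ) ^ 3 / 4) ≤ ε / 2 := by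
    rw [div_le_iff₀ (by positivity)]
    linarith
  have h3 : 1 ≤ ε / 2 * 2 ^ d := by
    rw [div_le_iff₀ hε] at h2d
    linarith
  calc 1 + 2 ^ d * (2 * (d : ℝ) * Real.log (1 + 12 * d) / ((L : ℝ) ^ 3 / 4))
      ≤ ε / 2 * 2 ^ d + 2 ^ d * (ε / 2) := by gcongr
    _ = ε * 2 ^ d := by ring

end Pool.Agent.Zk68.Q
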