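import Mathlib
import Pool.Agent.Zk68.Big

set_option autoImplicit false
set_option linter.unusedSectionVars false

/-!
Families of bodies with quaternionic symmetries: quaternionic spaces, matrices with real or complex
entries.
-/

namespace Pool.Agent.Zk68.Q

open MeasureTheory Module Set Quaternion Filter Matrix
open scoped ENNReal Pointwise Topology

/-- `c(K) ≤ a` -/
def Few {E : Type} [TopologicalSpace E] [Add E] (K : Set E) (a : ℝ) : Prop :=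
  ∃ T : Finset E, (T.card : ℝ) ≤ a ∧ K ⊆ ⋃ t ∈ T, (fun x => t + x) '' interior K

section Mat

variable {𝕜 : Type} [RCLike 𝕜] {s m k : ℕ}

/-- the embedding of a block of coordinates -/
def Bm (𝕜 : Type) [RCLike 𝕜] (b : Fin s → Fin m) : Matrix (Fin m) (Fin s) 𝕜 :=
  fun i r => if i = b r then 1 else 0

theorem BtB {b : Fin s → Fin m} (hb : Function.Injective b) : (Bm 𝕜 b)ᵀ * Bm 𝕜 b = 1 := by
  ext r t
  rw [Matrix.mul_apply, Matrix.one_apply]
  simp only [Bm, Matrix.transpose_apply, mul_ite, mul_one, mul_zero]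
  rw [Finset.sum_eq_single (b t)]
  · simp only [if_true]
    by_cases h : r = t
    · simp [h]
    · rw [if_neg h, if_neg (fun h' => h (hb h'.symm))]
  · intro i _ hi
    simp [hi]
  · intro h; exact absurd (Finset.mem_univ _) h

/-- the block matrix -/
noncomputable def Ab (Q : ℍ[ℝ] →ₗ[ℝ] Matrix (Fin s) (Fin s) 𝕜) (b : Fin s → Fin m) (q : ℍ[ℝ]) :
    Matrix (Fin m) (Fin m) 𝕜 := Bm 𝕜 b * Q q * (Bm 𝕜 b)ᵀ

theorem Ab_mul {Q : ℍ[ℝ] →ₗ[ℝ] Matrix (Fin s) (Fin s) 𝕜} (hQ : ∀ p q, Q (p * q) = Q p * Q q)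
    {b : Fin s → Fin m} (hb : Function.Injective b) (p q : ℍ[ℝ]) :
    Ab Q b p * Ab Q b q = Ab Q b (p * q) := by
  rw [Ab, Ab, Ab, hQ]
  calc Bm 𝕜 b * Q p * (Bm 𝕜 b)ᵀ * (Bm 𝕜 b * Q q * (Bm 𝕜 b)ᵀ)
      = Bm 𝕜 b * Q p * ((Bm 𝕜 b)ᵀ * Bm 𝕜 b) * Q q * (Bm 𝕜 b)ᵀ := by
        simp only [Matrix.mul_assoc]
    _ = Bm 𝕜 b * (Q p * Q q) * (Bm 𝕜 b)ᵀ := by
        rw [BtB hb, Matrix.mul_one]; simp only [Matrix.mul_assoc]

/-- the action on the matrices -/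
noncomputable def rho (k : ℕ) (Q : ℍ[ℝ] →ₗ[ℝ] Matrix (Fin s) (Fin s) 𝕜) (b : Fin s → Fin m) :
    ℍ[ℝ] →ₗ[ℝ] Module.End ℝ (Matrix (Fin m) (Fin k) 𝕜) :=
  LinearMap.mk₂ ℝ (fun q x => Ab Q b q * x)
    (by intro p q x; simp only [Ab, map_add, Matrix.mul_add, Matrix.add_mul])
    (by intro c q x; simp only [Ab, map_smul, Matrix.mul_smul, Matrix.smul_mul])
    (by intro q x y; rw [Matrix.mul_add])
    (by intro c q x; rw [Matrix.mul_smul])

theorem rho_apply (Q : ℍ[ℝ] →ₗ[ℝ] Matrix (Fin s) (Fin s) 𝕜) (b : Fin s → Fin m) (q : ℍ[ℝ])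
    (x : Matrix (Fin m) (Fin k) 𝕜) : rho k Q b q x = Ab Q b q * x := rfl

theorem rho_mul {Q : ℍ[ℝ] →ₗ[ℝ] Matrix (Fin s) (Fin s) 𝕜} (hQ : ∀ p q, Q (p * q) = Q p * Q q)
    {b : Fin s → Fin m} (hb : Function.Injective b) (p q : ℍ[ℝ]) :
    rho k Q b (p * q) = rho k Q b p * rho k Q b q := by
  ext1 x
  show Ab Q b (p * q) * x = Ab Q b p * (Ab Q b q * x)
  rw [← Matrix.mul_assoc, Ab_mul hQ hb]

/-- the group element -/
noncomputable def Ub (Q : ℍ[ℝ] →ₗ[ℝ] Matrix (Fin s) (Fin s) 𝕜) (b : Fin s → Fin m) (q : ℍ[ℝ]) :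
    Matrix (Fin m) (Fin m) 𝕜 := 1 - Ab Q b 1 + Ab Q b q

theorem Ub_det {Q : ℍ[ℝ] →ₗ[ℝ] Matrix (Fin s) (Fin s) 𝕜} (hQ1 : Q 1 = 1)
    {b : Fin s → Fin m} (hb : Function.Injective b) (q : ℍ[ℝ]) (hdet : (Q q).det = 1) :
    (Ub Q b q).det = 1 := by
  have e : Ub Q b q = 1 + Bm 𝕜 b * ((Q q - 1) * (Bm 𝕜 b)ᵀ) := by
    rw [Ub, Ab, Ab, hQ1, Matrix.sub_mul, Matrix.mul_sub, Matrix.mul_one, Matrix.one_mul,
      Matrix.mul_assoc]
    abel
  rw [e, Matrix.det_one_add_mul_comm, Matrix.mul_assoc, BtB hb, Matrix.mul_one,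
    add_sub_cancel, hdet]

theorem Ub_star {Q : ℍ[ℝ] →ₗ[ℝ] Matrix (Fin s) (Fin s) 𝕜} (hQs : ∀ q, (Q q)ᴴ = Q (star q))
    (b : Fin s → Fin m) (q : ℍ[ℝ]) : (Ub Q b q)ᴴ = Ub Q b (star q) := by
  have hB : (Bm 𝕜 b)ᴴ = (Bm 𝕜 b)ᵀ := by
    ext i j
    simp only [Bm, Matrix.conjTranspose_apply, Matrix.transpose_apply]
    split_ifs <;> simp
  have hB' : ((Bm 𝕜 b)ᵀ)ᴴ = Bm 𝕜 b := by
    rw [← hB, Matrix.conjTranspose_conjTranspose]
  have hA : ∀ p, (Ab Q b p)ᴴ = Ab Q b (star p) := by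
    intro p
    rw [Ab, Ab, Matrix.conjTranspose_mul, Matrix.conjTranspose_mul, hB', hB, hQs,
      Matrix.mul_assoc]
  rw [Ub, Ub, Matrix.conjTranspose_add, Matrix.conjTranspose_sub, hA, hA, star_one,
    Matrix.conjTranspose_one]

theorem Ub_mul {Q : ℍ[ℝ] →ₗ[ℝ] Matrix (Fin s) (Fin s) 𝕜} (hQ : ∀ p q, Q (p * q) = Q p * Q q)
    {b : Fin s → Fin m} (hb : Function.Injective b) (p q : ℍ[ℝ]) :
    Ub Q b p * Ub Q b q = Ub Q b (p * q) := by
  rw [Ub, Ub, Ub]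
  simp only [Matrix.add_mul, Matrix.sub_mul, Matrix.mul_add, Matrix.mul_sub, Matrix.one_mul,
    Matrix.mul_one, Ab_mul hQ hb, one_mul, mul_one]
  abel

theorem Ub_unitary {Q : ℍ[ℝ] →ₗ[ℝ] Matrix (Fin s) (Fin s) 𝕜}
    (hQ : ∀ p q, Q (p * q) = Q p * Q q) (hQs : ∀ q, (Q q)ᴴ = Q (star q))
    {b : Fin s → Fin m} (hb : Function.Injective b) (q : ℍ[ℝ]) (hq : ‖q‖ = 1) :
    Ub Q b q * (Ub Q b q)ᴴ = 1 := by
  have h1 : q * star q = 1 := by
    rw [Quaternion.self_mul_star, normSq_eq_norm_mul_self, hq]; simp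
  rw [Ub_star hQs, Ub_mul hQ hb, h1, Ub, sub_add_cancel]

end Mat

/-- the complex `2 × 2` matrix of a quaternion -/
noncomputable def QC : ℍ[ℝ] →ₗ[ℝ] Matrix (Fin 2) (Fin 2) ℂ where
  toFun q := !![(⟨q.re, q.imI⟩ : ℂ), (⟨q.imJ, q.imK⟩ : ℂ); (⟨-q.imJ, q.imK⟩ : ℂ),
    (⟨q.re, -q.imI⟩ : ℂ)]
  map_add' p q := by
    ext i j; fin_cases i <;> fin_cases j <;> apply Complex.ext <;> simp <;> ring
  map_smul' c q := by
    ext i j; fin_cases i <;> fin_cases j <;> apply Complex.ext <;> simp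

theorem QC_one : QC 1 = 1 := by
  ext i j; fin_cases i <;> fin_cases j <;> apply Complex.ext <;> simp [QC]

theorem QC_mul (p q : ℍ[ℝ]) : QC (p * q) = QC p * QC q := by
  ext i j; fin_cases i <;> fin_cases j <;> apply Complex.ext <;>
    simp [QC, Matrix.mul_apply, Fin.sum_univ_two] <;> ring

theorem QC_star (q : ℍ[ℝ]) : (QC q)ᴴ = QC (star q) := by
  ext i j; fin_cases i <;> fin_cases j <;> apply Complex.ext <;> simp [QC]

theorem QC_det (q : ℍ[ℝ]) (hq : ‖q‖ = 1) : (QC q).det = 1 := by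
  have h2 : ‖q‖ ^ 2 = normSq q := by rw [normSq_eq_norm_mul_self, sq]
  rw [hq, normSq_def', one_pow] at h2
  rw [Matrix.det_fin_two]
  apply Complex.ext <;> simp [QC]
  · linarith
  · ring

/-- the real `4 × 4` matrix of a quaternion -/
noncomputable def QR : ℍ[ℝ] →ₗ[ℝ] Matrix (Fin 4) (Fin 4) ℝ where
  toFun q := !![q.re, -q.imI, -q.imJ, -q.imK; q.imI, q.re, -q.imK, q.imJ;
    q.imJ, q.imK, q.re, -q.imI; q.imK, -q.imJ, q.imI, q.re]
  map_add' p q := by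
    ext i j; fin_cases i <;> fin_cases j <;> simp <;> ring
  map_smul' c q := by
    ext i j; fin_cases i <;> fin_cases j <;> simp

theorem QR_one : QR 1 = 1 := by
  ext i j; fin_cases i <;> fin_cases j <;> simp [QR]

theorem QR_mul (p q : ℍ[ℝ]) : QR (p * q) = QR p * QR q := by
  ext i j; fin_cases i <;> fin_cases j <;>
    simp [QR, Matrix.mul_apply, Fin.sum_univ_four] <;> ring

theorem QR_star (q : ℍ[ℝ]) : (QR q)ᴴ = QR (star q) := by
  ext i j; fin_cases i <;> fin_cases j <;> simp [QR]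

theorem QR_det (q : ℍ[ℝ]) (hq : ‖q‖ = 1) : (QR q).det = 1 := by
  have h2 : ‖q‖ ^ 2 = normSq q := by rw [normSq_eq_norm_mul_self, sq]
  rw [hq, normSq_def', one_pow] at h2
  have h3 : (QR q).det = (q.re ^ 2 + q.imI ^ 2 + q.imJ ^ 2 + q.imK ^ 2) ^ 2 := by
    simp [QR, Matrix.det_succ_row_zero, Fin.sum_univ_succ, Fin.succAbove]
    ring
  rw [h3, ← h2, one_pow]

/-- cyclic blocks -/
def blk {m s : ℕ} [NeZero m] (l : Fin m) (r : Fin s) : Fin m := l + Fin.ofNat m r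

theorem blk_inj {m s : ℕ} [NeZero m] (hs : s ≤ m) (l : Fin m) :
    Function.Injective (blk l : Fin s → Fin m) := by
  intro r t h
  have h1 : Fin.ofNat m (r : ℕ) = Fin.ofNat m (t : ℕ) := add_left_cancel h
  have h2 := congrArg Fin.val h1
  simp only [Fin.ofNat] at h2
  rw [Nat.mod_eq_of_lt (by omega), Nat.mod_eq_of_lt (by omega)] at h2
  exact Fin.ext h2

section Sum

variable {𝕜 : Type} [RCLike 𝕜] {s m k : ℕ}

theorem BBt_apply (b : Fin s → Fin m) (i j : Fin m) :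
    (Bm 𝕜 b * (Bm 𝕜 b)ᵀ) i j = if i = j then ∑ r : Fin s, (if i = b r then 1 else 0) else 0 := by
  rw [Matrix.mul_apply]
  simp only [Bm, Matrix.transpose_apply]
  by_cases hij : i = j
  · subst hij
    rw [if_pos rfl]
    refine Finset.sum_congr rfl fun r _ => ?_
    split_ifs <;> simp
  · rw [if_neg hij]
    refine Finset.sum_eq_zero fun r _ => ?_
    by_cases h1 : i = b r
    · rw [if_neg (fun h2 : j = b r => hij (h1.trans h2.symm)), mul_zero]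
    · rw [if_neg h1, zero_mul]

theorem sum_blk [NeZero m] (hs : s ≤ m) (hs0 : 0 < s) {Q : ℍ[ℝ] →ₗ[ℝ] Matrix (Fin s) (Fin s) 𝕜}
    (hQ1 : Q 1 = 1) (x : Matrix (Fin m) (Fin k) 𝕜) :
    ∑ l : Fin m, (1 / s : ℝ) • rho k Q (blk l : Fin s → Fin m) 1 x = x := by
  have h1 : ∑ l : Fin m, Ab Q (blk l : Fin s → Fin m) 1 =
      (s : ℝ) • (1 : Matrix (Fin m) (Fin m) 𝕜) := by
    ext i j
    rw [Matrix.sum_apply]
    simp only [Ab, hQ1, Matrix.mul_one]
    have h2 : ∀ l : Fin m, (Bm 𝕜 (blk l : Fin s → Fin m) * (Bm 𝕜 (blk l : Fin s → Fin m))ᵀ) i j =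
        if i = j then ∑ r : Fin s, (if i = blk l r then 1 else 0) else 0 := fun l =>
      BBt_apply _ i j
    rw [Finset.sum_congr rfl fun l _ => h2 l]
    by_cases hij : i = j
    · subst hij
      simp only [if_true]
      rw [Finset.sum_comm]
      have h3 : ∀ r : Fin s, ∑ l : Fin m, (if i = blk l r then (1 : 𝕜) else 0) = 1 := by
        intro r
        rw [Finset.sum_eq_single (i - Fin.ofNat m r)]
        · rw [if_pos]; rw [blk, sub_add_cancel]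
        · intro l _ hl
          rw [if_neg]
          intro h
          apply hl
          rw [h, blk, add_sub_cancel_right]
        · intro h; exact absurd (Finset.mem_univ _) h
      rw [Finset.sum_congr rfl fun r _ => h3 r, Matrix.smul_apply, Matrix.one_apply_eq,
        RCLike.real_smul_eq_coe_mul]
      simp
    · simp [hij]
  have hs0' : (s : ℝ) ≠ 0 := by exact_mod_cast hs0.ne'
  calc ∑ l : Fin m, (1 / s : ℝ) • rho k Q (blk l : Fin s → Fin m) 1 x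
      = (1 / s : ℝ) • ((∑ l : Fin m, Ab Q (blk l : Fin s → Fin m) 1) * x) := by
        rw [← Finset.smul_sum, Matrix.sum_mul]
        rfl
    _ = x := by
        rw [h1, Matrix.smul_mul, Matrix.one_mul, smul_smul, one_div_mul_cancel hs0', one_smul]

end Sum

end Pool.Agent.Zk68.Q
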