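import Mathlib
import Pool.Agent.Zk68.Cover
import Pool.Agent.Zk75.Sel

set_option autoImplicit false
set_option linter.unusedSectionVars false

/-!
The overlap of the unit ball with its translates, for norms with many isometries.
-/

namespace Pool.Agent.Zk68.Q

open MeasureTheory Module Set Filter
open scoped ENNReal Pointwise Topology

variable {E : Type*} [NormedAddCommGroup E] [NormedSpace ℝ E] [FiniteDimensional ℝ E]
  [MeasurableSpace E] [BorelSpace E] {μ : Measure E} [μ.IsAddHaarMeasure] {N : Seminorm ℝ E}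

/-- log-concavity -/
theorem logc2 (hc : Continuous N) (hf : μ (Ov N 0) ≠ ⊤) (v w : E) {s : ℝ} (h0 : 0 < s)
    (h1 : s < 1) : m μ N v ^ (1 - s) * m μ N w ^ s ≤ m μ N ((1 - s) • v + s • w) := by
  have H : ∀ x ∈ Ov N v, ∀ y ∈ Ov N w, (1 - s) • x + s • y ∈ Ov N ((1 - s) • v + s • w) := by
    intro x hx y hy
    constructor
    · calc N ((1 - s) • x + s • y) ≤ N ((1 - s) • x) + N (s • y) := map_add_le_add _ _ _
        _ = (1 - s) * N x + s * N y := by
          rw [map_smul_eq_mul, map_smul_eq_mul, Real.norm_of_nonneg h0.le,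
            Real.norm_of_nonneg (by linarith)]
        _ ≤ (1 - s) * 1 + s * 1 := by
          have := hy.1
          have := hx.1
          gcongr
        _ = 1 := by ring
    · have e : (1 - s) • x + s • y + ((1 - s) • v + s • w) =
          (1 - s) • (x + v) + s • (y + w) := by
        rw [smul_add, smul_add]; abel
      show N ((1 - s) • x + s • y + ((1 - s) • v + s • w)) ≤ 1
      rw [e]
      calc N ((1 - s) • (x + v) + s • (y + w)) ≤ N ((1 - s) • (x + v)) + N (s • (y + w)) :=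
            map_add_le_add _ _ _
        _ = (1 - s) * N (x + v) + s * N (y + w) := by
          rw [map_smul_eq_mul, map_smul_eq_mul, Real.norm_of_nonneg h0.le,
            Real.norm_of_nonneg (by linarith)]
        _ ≤ (1 - s) * 1 + s * 1 := by
          have := hy.2
          have := hx.2
          gcongr
        _ = 1 := by ring
  have h1s : 0 < 1 - s := by linarith
  have hPL := Pool.Agent.H212R2.KLS.PL μ s h0 h1 ((Ov N v).indicator 1) ((Ov N w).indicator 1)
    ((Ov N ((1 - s) • v + s • w)).indicator 1)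
    (measurable_one.indicator (Ov_closed hc v).measurableSet)
    (measurable_one.indicator (Ov_closed hc w).measurableSet)
    (measurable_one.indicator (Ov_closed hc _).measurableSet) (by
      intro x y
      by_cases hx : x ∈ Ov N v
      · by_cases hy : y ∈ Ov N w
        · rw [indicator_of_mem hx, indicator_of_mem hy, indicator_of_mem (H x hx y hy)]
          simp
        · rw [indicator_of_notMem hy, ENNReal.zero_rpow_of_pos h0, mul_zero]
          exact zero_le
      · rw [indicator_of_notMem hx, ENNReal.zero_rpow_of_pos h1s, zero_mul]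
        exact zero_le)
  rw [lintegral_indicator_one (Ov_closed hc v).measurableSet,
    lintegral_indicator_one (Ov_closed hc w).measurableSet,
    lintegral_indicator_one (Ov_closed hc _).measurableSet] at hPL
  have h3 := ENNReal.toReal_mono (fin hf _) hPL
  rw [ENNReal.toReal_mul, ← ENNReal.toReal_rpow, ← ENNReal.toReal_rpow] at h3
  exact h3

/-- the superlevel sets are convex -/
theorem level_convex (hc : Continuous N) (hf : μ (Ov N 0) ≠ ⊤) {a : ℝ} (ha : 0 < a) :
    Convex ℝ {v | a ≤ m μ N v} := by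
  intro v hv w hw p q hp hq hpq
  have hv' : a ≤ m μ N v := hv
  have hw' : a ≤ m μ N w := hw
  show a ≤ m μ N (p • v + q • w)
  rcases eq_or_lt_of_le hq with rfl | hq0
  · have : p = 1 := by linarith
    rw [this, one_smul, zero_smul, add_zero]; exact hv'
  rcases eq_or_lt_of_le hp with rfl | hp0
  · have : q = 1 := by linarith
    rw [this, one_smul, zero_smul, zero_add]; exact hw'
  have hp' : p = 1 - q := by linarith
  have h := logc2 (μ := μ) hc hf v w hq0 (by linarith)
  rw [hp']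
  refine le_trans ?_ h
  calc a = a ^ (1 - q) * a ^ q := by
        rw [← Real.rpow_add ha]; simp
    _ ≤ m μ N v ^ (1 - q) * m μ N w ^ q := by
        have h1q : 0 ≤ 1 - q := by linarith
        have hpv : 0 ≤ m μ N v ^ (1 - q) := Real.rpow_nonneg (m_nonneg v) _
        gcongr

/-- short vectors -/
theorem m_near (hf : μ (Ov N 0) ≠ ⊤) {u : E} (hu : N u ≤ 1) :
    (1 - N u) ^ finrank ℝ E * m μ N 0 ≤ m μ N u := by
  have h0 : 0 ≤ 1 - N u := by linarith
  have hsub : (1 - N u) • Ov N 0 ⊆ Ov N u := by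
    rintro _ ⟨z, hz, rfl⟩
    rw [Ov_zero] at hz
    have hz' : N z ≤ 1 := hz
    simp only
    have h1 : N ((1 - N u) • z) ≤ 1 - N u := by
      rw [map_smul_eq_mul, Real.norm_of_nonneg h0]
      calc (1 - N u) * N z ≤ (1 - N u) * 1 := by gcongr
        _ = _ := mul_one _
    constructor
    · have := apply_nonneg N u
      linarith
    · show N ((1 - N u) • z + u) ≤ 1
      linarith [map_add_le_add N ((1 - N u) • z) u]
  have h := measure_mono (μ := μ) hsub
  rw [Measure.addHaar_smul, abs_of_nonneg (by positivity)] at h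
  have h3 := ENNReal.toReal_mono (fin hf u) h
  rw [ENNReal.toReal_mul, ENNReal.toReal_ofReal (by positivity)] at h3
  exact h3

/-- continuity of the overlap -/
theorem m_cont (hc : Continuous N) (hf : μ (Ov N 0) ≠ ⊤) : Continuous (m μ N) := by
  have key : ∀ v w : E, N (w - v) ≤ 1 →
      |m μ N w - m μ N v| ≤ m μ N 0 - (1 - N (w - v)) ^ finrank ℝ E * m μ N 0 := by
    intro v w h
    have h1 := chain (μ := μ) hc hf v (w - v)
    have h2 := chain (μ := μ) hc hf w (-(w - v))
    rw [add_sub_cancel] at h1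
    rw [m_neg, show w + -(w - v) = v by abel] at h2
    have h3 := m_near (μ := μ) hf h
    rw [abs_le]
    constructor <;> linarith
  rw [continuous_iff_continuousAt]
  intro v
  have h1 : Tendsto (fun w => m μ N 0 - (1 - N (w - v)) ^ finrank ℝ E * m μ N 0) (𝓝 v)
      (𝓝 (m μ N 0 - (1 - N (v - v)) ^ finrank ℝ E * m μ N 0)) := by
    have : Continuous fun w => m μ N 0 - (1 - N (w - v)) ^ finrank ℝ E * m μ N 0 := by
      have := hc.comp (continuous_id.sub (continuous_const (y := v)))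
      fun_prop
    exact this.tendsto v
  rw [sub_self, map_zero, sub_zero, one_pow, one_mul, sub_self] at h1
  have h2 : ∀ᶠ w in 𝓝 v, N (w - v) ≤ 1 := by
    have h3 : Continuous fun w => N (w - v) := hc.comp (continuous_id.sub continuous_const)
    have h4 := h3.tendsto v
    rw [sub_self, map_zero] at h4
    exact (h4.eventually (gt_mem_nhds one_pos)).mono fun w hw => hw.le
  rw [ContinuousAt, tendsto_iff_norm_sub_tendsto_zero]
  refine squeeze_zero' (Eventually.of_forall fun w => norm_nonneg _) ?_ h1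
  filter_upwards [h2] with w hw
  exact key v w hw

/-- amplification -/
theorem amplify (hc : Continuous N) (hf : μ (Ov N 0) ≠ ⊤) {v : E} {s δ M t : ℝ} (hs : 0 < s)
    (hδ : 0 < δ) (hδ1 : δ ≤ 1) (hM : 2 ≤ M) (h : m μ N (s • v) < (1 - δ) * m μ N 0)
    (ht : s * Real.log (2 * M) / δ ≤ t) : 2 * M * m μ N (t • v) ≤ m μ N 0 := by
  have hp := m_pos hc hf
  have hlog : 1 ≤ Real.log (2 * M) := by
    rw [Real.le_log_iff_exp_le (by linarith)]
    linarith [Real.exp_one_lt_d9]
  have hst : s ≤ t := by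
    refine le_trans ?_ ht
    rw [le_div_iff₀ hδ]
    calc s * δ ≤ s * 1 := by gcongr
      _ ≤ s * Real.log (2 * M) := by gcongr
  have ht0 : 0 < t := by linarith
  have hq0 : ∀ v : E, 0 ≤ m μ N v / m μ N 0 := fun v => div_nonneg (m_nonneg v) hp.le
  have h1 : m μ N (s • v) / m μ N 0 ≤ Real.exp (-δ) := by
    rw [div_le_iff₀ hp]
    refine h.le.trans ?_
    have := Real.add_one_le_exp (-δ)
    gcongr
    linarith
  have hs0 : 0 < s / t := by positivity
  have hs1 : s / t ≤ 1 := by rw [div_le_one ht0]; exact hst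
  have h6 := logc (μ := μ) hc hf (t • v) hs0 hs1
  rw [smul_smul, div_mul_cancel₀ _ ht0.ne'] at h6
  have h7 := h6.trans h1
  have h8 : Real.exp (-δ) = Real.exp (-δ * (t / s)) ^ (s / t) := by
    rw [← Real.exp_mul]; congr 1; field_simp
  rw [h8] at h7
  have h9 := (Real.rpow_le_rpow_iff (hq0 _) (Real.exp_pos _).le hs0).mp h7
  have h10 : Real.exp (-δ * (t / s)) ≤ (2 * M)⁻¹ := by
    have h11 : (2 * M)⁻¹ = Real.exp (-(Real.log (2 * M))) := by
      rw [Real.exp_neg, Real.exp_log (by linarith)]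
    rw [h11]
    apply Real.exp_le_exp.mpr
    have h12 : Real.log (2 * M) ≤ δ * (t / s) := by
      rw [← mul_div_assoc, le_div_iff₀ hs]
      rw [div_le_iff₀ hδ] at ht
      linarith
    linarith
  have h13 := h9.trans h10
  rw [div_le_iff₀ hp] at h13
  calc 2 * M * m μ N (t • v) ≤ 2 * M * ((2 * M)⁻¹ * m μ N 0) := by gcongr
    _ = m μ N 0 := by
        have : 2 * M ≠ 0 := by linarith
        field_simp

/-- The numerical hypotheses. `τ = A' log(M) log(2M) / d` with `A' = 8 C₁ C₂ / 3`. -/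
structure Par2 (r d L : ℕ) (A B δ : ℝ) : Prop where
  hd : 1 ≤ d
  hL : 2 ≤ (L : ℝ) ^ r
  ht : 2 * Real.log ((L : ℝ) ^ r) ≤ d
  hτ : A * Real.log ((L : ℝ) ^ r) * Real.log (2 * (L : ℝ) ^ r) / d * (r * L) ≤ δ
  hβ : 2 * B * (A * Real.log ((L : ℝ) ^ r) * Real.log (2 * (L : ℝ) ^ r) / d * (r * L)) ^ 2 * d ≤ 1

/-- The gain. -/
theorem gain2 (hc : Continuous N) (hf : μ (Ov N 0) ≠ ⊤)
    {F : Type} [NormedAddCommGroup F] [NormedSpace ℝ F] [FiniteDimensional ℝ F]
    (J : F →ₗ[ℝ] (E →ₗ[ℝ] E)) {r d L : ℕ} {C1 C2 C3 δ0 : ℝ} (hC1 : 1 ≤ C1) (hC2 : 1 ≤ C2)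
    (hC3 : 1 ≤ C3) (hδ0 : 0 < δ0)
    (hA : ∀ X : F, ‖X‖ ≤ δ0 → ∀ x, N (x + J X x) ≤ (1 + C3 * ‖X‖ ^ 2) * N x)
    (hB : ∀ 𝔥 : Submodule ℝ F, finrank ℝ F < finrank ℝ 𝔥 + r → ∀ x : E, ∀ t δ : ℝ, 0 ≤ t → 0 ≤ δ →
      (∀ X ∈ 𝔥, ‖X‖ ≤ 1 → (1 - δ) * m μ N 0 ≤ m μ N ((C1 * t) • J X x)) →
      (1 - C2 * δ) * m μ N 0 ≤ m μ N (t • x))
    (hdd : finrank ℝ E = d) (hP : Par2 r d L (8 * C1 * C2 / 3) C3 δ0) {x : E} (hx : N x ≤ 1) :
    (L : ℝ) ^ r / 4 ≤ 2 ^ d * (m μ N x / m μ N 0) := by
  by_contra hcon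
  push Not at hcon
  obtain ⟨hd, hL, ht, hτ, hβ'⟩ := hP
  have hp := m_pos hc hf
  have hd0 : (0 : ℝ) < d := by exact_mod_cast hd
  set M : ℝ := (L : ℝ) ^ r with hM
  set lg : ℝ := Real.log M with hlg
  have hM0 : 0 < M := by linarith
  have hlg0 : 0 < lg := Real.log_pos (by linarith)
  have hlg2 : 0 < Real.log (2 * M) := Real.log_pos (by linarith)
  set t1 : ℝ := 2 * lg / d with ht1
  have ht10 : 0 < t1 := by positivity
  have ht11 : t1 ≤ 1 := by rw [ht1, div_le_one hd0]; exact ht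
  -- the direction `x` is short
  have h1 : m μ N (t1 • x) / m μ N 0 < 1 / 4 := by
    have h2 := ray (μ := μ) hf hx ht10.le ht11
    rw [hdd] at h2
    have h3 : (2 - t1) ^ d ≤ 2 ^ d / M := by
      have h4 : 2 - t1 = 2 * (1 - t1 / 2) := by ring
      have h5 : 1 - t1 / 2 ≤ Real.exp (-(t1 / 2)) := by
        have := Real.add_one_le_exp (-(t1 / 2)); linarith
      rw [h4, mul_pow, div_eq_mul_inv]
      have h6 : (1 - t1 / 2) ^ d ≤ M⁻¹ := by
        calc (1 - t1 / 2) ^ d ≤ (Real.exp (-(t1 / 2))) ^ d :=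
              pow_le_pow_left₀ (by linarith) h5 d
          _ = Real.exp (-lg) := by
              rw [← Real.exp_nat_mul]; congr 1; rw [ht1]; field_simp
          _ = M⁻¹ := by rw [Real.exp_neg, hlg, Real.exp_log hM0]
      exact mul_le_mul_of_nonneg_left h6 (by positivity)
    calc m μ N (t1 • x) / m μ N 0 ≤ (2 ^ d / M * m μ N x) / m μ N 0 := by
          have h0 := m_nonneg (μ := μ) (N := N) x
          have h00 := h2.trans (mul_le_mul_of_nonneg_right h3 h0)
          gcongr
      _ = (2 ^ d * (m μ N x / m μ N 0)) / M := by ring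
      _ < (M / 4) / M := by gcongr
      _ = 1 / 4 := by field_simp
  have h1' : m μ N (t1 • x) < 1 / 4 * m μ N 0 := by rwa [div_lt_iff₀ hp] at h1
  -- the selection
  set δ : ℝ := 3 / (4 * C2) with hδ
  have hδpos : 0 < δ := by positivity
  have hδ1 : δ ≤ 3 / 4 := by
    rw [hδ, div_le_div_iff₀ (by positivity) (by norm_num)]
    linarith
  have hδC : C2 * δ = 3 / 4 := by rw [hδ]; field_simp
  let Jx : F →ₗ[ℝ] E := (C1 * t1) • (J.flip x)
  have hJx : ∀ X, Jx X = (C1 * t1) • J X x := fun X => rfl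
  have hJxc : Continuous Jx := LinearMap.continuous_of_finiteDimensional Jx
  let B : Set F := Jx ⁻¹' {v | (1 - δ) * m μ N 0 ≤ m μ N v}
  obtain ⟨X, hX1, hXB⟩ := Pool.Agent.Zk75.Sel.select B
    ((level_convex hc hf (mul_pos (by linarith) hp)).linear_preimage Jx)
    ((isClosed_le continuous_const (m_cont hc hf)).preimage hJxc)
    (by
      show (1 - δ) * m μ N 0 ≤ m μ N (Jx 0)
      rw [map_zero]
      nlinarith)
    (by
      intro Z hZ
      have hZ' : (1 - δ) * m μ N 0 ≤ m μ N (Jx Z) := hZ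
      show (1 - δ) * m μ N 0 ≤ m μ N (Jx (-Z))
      rw [map_neg, m_neg]; exact hZ') r
    (by
      intro 𝔥 h𝔥
      by_contra hno
      push Not at hno
      have h2 := hB 𝔥 h𝔥 x t1 δ ht10.le hδpos.le (fun Z hZ hZ1 => hno Z hZ hZ1)
      rw [hδC] at h2
      linarith)
  have hshort : ∀ a : Fin r → ℤ, a ≠ 0 → ∀ t : ℝ,
      (8 * C1 * C2 / 3) * lg * Real.log (2 * M) / d ≤ t →
      2 * M * m μ N (t • J (∑ i, (a i : ℝ) • X i) x) ≤ m μ N 0 := by
    intro a ha t htt
    have h2 : ¬ (1 - δ) * m μ N 0 ≤ m μ N ((C1 * t1) • J (∑ i, (a i : ℝ) • X i) x) :=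
      hXB a ha
    push Not at h2
    refine amplify hc hf (s := C1 * t1) (δ := δ) (by positivity) hδpos (by linarith) hL h2 ?_
    refine le_trans (le_of_eq ?_) htt
    rw [hδ, ht1]
    field_simp
    ring
  set τ : ℝ := (8 * C1 * C2 / 3) * lg * Real.log (2 * M) / d with hτd
  have hτ0 : 0 < τ := by positivity
  set β : ℝ := C3 * (τ * (r * L)) ^ 2 / 2 with hβ
  have hβ0 : 0 ≤ β := by positivity
  have hβd : β * (4 * d) ≤ 1 := by rw [hβ]; linarith
  have hβ1 : β ≤ 1 / 4 := by
    have : (1 : ℝ) ≤ d := by exact_mod_cast hd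
    nlinarith
  set ρ : ℝ := 1 / 2 - β with hρ
  have hρ0 : 0 < ρ := by rw [hρ]; linarith
  let Y : (Fin r → Fin L) → F := fun a => ∑ i, ((a i : ℕ) : ℝ) • X i
  have hY : ∀ a, ‖Y a‖ ≤ r * L := by
    intro a
    calc ‖Y a‖ ≤ ∑ i, ‖((a i : ℕ) : ℝ) • X i‖ := norm_sum_le _ _
      _ ≤ ∑ i : Fin r, (L : ℝ) := by
          refine Finset.sum_le_sum fun i _ => ?_
          rw [norm_smul, Real.norm_of_nonneg (by positivity)]
          have h3 : ((a i : ℕ) : ℝ) ≤ L := by exact_mod_cast (a i).2.le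
          calc ((a i : ℕ) : ℝ) * ‖X i‖ ≤ L * 1 := by
                have := hX1 i
                gcongr
            _ = L := mul_one _
      _ = r * L := by simp
  have hnear : ∀ a, ∀ ς : ℝ, |ς| = 1 → N (x + J ((ς * τ) • Y a) x) ≤ 1 + 2 * β := by
    intro a ς hς
    have h3 : ‖(ς * τ) • Y a‖ ≤ τ * (r * L) := by
      rw [norm_smul, norm_mul, Real.norm_eq_abs, hς, one_mul, Real.norm_of_nonneg hτ0.le]
      have := hY a
      gcongr
    have h4 := hA ((ς * τ) • Y a) (h3.trans hτ) x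
    refine h4.trans ?_
    have h5 : C3 * ‖(ς * τ) • Y a‖ ^ 2 ≤ 2 * β := by
      rw [hβ]
      have : C3 * ‖(ς * τ) • Y a‖ ^ 2 ≤ C3 * (τ * (r * L)) ^ 2 := by gcongr
      linarith
    calc (1 + C3 * ‖(ς * τ) • Y a‖ ^ 2) * N x ≤ (1 + 2 * β) * 1 := by
          gcongr
      _ = _ := mul_one _
  have hcard : ((Finset.univ : Finset (Fin r → Fin L)).card : ℝ) = M := by
    simp [hM]
  have hpk := pack (μ := μ) hc hf (Finset.univ : Finset (Fin r → Fin L)) x
    (fun a => (1 / 2 : ℝ) • (x + J (τ • Y a) x)) ρ hρ0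
    (by
      intro a _
      rw [map_smul_eq_mul, Real.norm_of_nonneg (by norm_num)]
      have := hnear a 1 (by simp)
      rw [one_mul] at this
      linarith)
    (by
      intro a _
      have := hnear a (-1) (by simp)
      have e : x - (1 / 2 : ℝ) • (x + J (τ • Y a) x) =
          (1 / 2 : ℝ) • (x + J ((-1 * τ) • Y a) x) := by
        rw [neg_one_mul, neg_smul, map_neg, LinearMap.neg_apply]
        module
      rw [e, map_smul_eq_mul, Real.norm_of_nonneg (by norm_num)]
      linarith)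
    (by
      intro a _ b _ hab
      rw [hcard]
      have e : ρ⁻¹ • ((1 / 2 : ℝ) • (x + J (τ • Y a) x) - (1 / 2 : ℝ) • (x + J (τ • Y b) x)) =
          (τ / (2 * ρ)) • J (∑ i, ((((a i : ℕ) : ℤ) - ((b i : ℕ) : ℤ) : ℤ) : ℝ) • X i) x := by
        have e1 : (∑ i, ((((a i : ℕ) : ℤ) - ((b i : ℕ) : ℤ) : ℤ) : ℝ) • X i) = Y a - Y b := by
          show _ = (∑ i, ((a i : ℕ) : ℝ) • X i) - ∑ i, ((b i : ℕ) : ℝ) • X i
          rw [← Finset.sum_sub_distrib]
          refine Finset.sum_congr rfl fun i _ => ?_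
          rw [← sub_smul]
          push_cast
          rfl
        rw [e1, map_sub, LinearMap.sub_apply, ← smul_sub, smul_smul, map_smul, map_smul,
          LinearMap.smul_apply, LinearMap.smul_apply]
        have e2 : x + τ • J (Y a) x - (x + τ • J (Y b) x) = τ • (J (Y a) x - J (Y b) x) := by
          rw [smul_sub]; abel
        rw [e2, smul_smul]
        congr 1
        field_simp
      rw [e]
      apply hshort (fun i => ((a i : ℕ) : ℤ) - ((b i : ℕ) : ℤ))
      · intro h0
        apply hab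
        funext i
        have := congrFun h0 i
        simp only [Pi.zero_apply] at this
        apply Fin.ext
        omega
      · have h2r : 2 * ρ ≤ 1 := by rw [hρ]; linarith
        rw [le_div_iff₀ (by positivity)]
        calc τ * (2 * ρ) ≤ τ * 1 := by gcongr
          _ = τ := mul_one _)
  rw [hcard, hdd] at hpk
  have h2r : (1 / 2 : ℝ) ≤ (2 * ρ) ^ d := by
    have h1 := one_add_mul_le_pow (a := -(2 * β)) (by linarith) d
    have h2 : 1 + -(2 * β) = 2 * ρ := by rw [hρ]; ring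
    rw [h2] at h1
    refine le_trans ?_ h1
    linarith
  have h3 : M / 4 * m μ N 0 ≤ 2 ^ d * m μ N x := by
    calc M / 4 * m μ N 0 = (1 / 2) * (m μ N 0 * M / 2) := by ring
      _ ≤ (2 * ρ) ^ d * (m μ N 0 * M / 2) := by gcongr
      _ = 2 ^ d * (ρ ^ d * m μ N 0 * M / 2) := by rw [mul_pow]; ring
      _ ≤ 2 ^ d * m μ N x := by gcongr
  have h4 : M / 4 ≤ 2 ^ d * (m μ N x / m μ N 0) := by
    rw [← mul_div_assoc, le_div_iff₀ hp]
    exact h3
  linarith

end Pool.Agent.Zk68.Q
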