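import Mathlib
import Pool.Agent.Zk68.Orb
import Pool.Agent.Zk68.Cover2
import Pool.Agent.Zk68.Fam
import Pool.Agent.Zk14.Par2

set_option autoImplicit false
set_option linter.unusedSectionVars false

/-!
Bodies of matrices and quaternionic spaces, with an absolute constant.
-/

namespace Pool.Agent.Zk68.Q

open MeasureTheory Module Set Quaternion Filter Matrix
open scoped ENNReal Pointwise Topology Kronecker

section Body

variable {E : Type} [NormedAddCommGroup E] [NormedSpace ℝ E] [FiniteDimensional ℝ E]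

theorem body_norm (K : Set E) (hK : Convex ℝ K) (hKc : IsCompact K)
    (hKi : (interior K).Nonempty) (hKs : ∀ x ∈ K, -x ∈ K) :
    ∃ N : Seminorm ℝ E, Continuous N ∧ {x | N x ≤ 1} = K ∧ {x | N x < 1} = interior K ∧
      ∀ x, N x = 0 → x = 0 := by
  have h0 : (0 : E) ∈ interior K := by
    obtain ⟨x, hx⟩ := hKi
    have hx' : -x ∈ K := hKs x (interior_subset hx)
    have h := hK.combo_interior_self_subset_interior (a := 1 / 2) (b := 1 / 2) (by norm_num)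
      (by norm_num) (by norm_num) (Set.add_mem_add (Set.smul_mem_smul_set hx)
        (Set.smul_mem_smul_set hx'))
    simpa using h
  have hnhds : K ∈ 𝓝 (0 : E) := mem_interior_iff_mem_nhds.mp h0
  have hbal : Balanced ℝ K := by
    intro a ha
    rintro _ ⟨x, hx, rfl⟩
    simp only
    have ha' : |a| ≤ 1 := ha
    rcases le_total 0 a with h | h
    · have := hK (interior_subset h0) hx (a := 1 - a) (b := a)
        (by rw [abs_of_nonneg h] at ha'; linarith) h (by ring)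
      simpa using this
    · have := hK (interior_subset h0) (hKs x hx) (a := 1 - (-a)) (b := -a)
        (by rw [abs_of_nonpos h] at ha'; linarith) (by linarith) (by ring)
      simpa using this
  have habs : Absorbent ℝ K := absorbent_nhds_zero hnhds
  let N : Seminorm ℝ E := gaugeSeminorm hbal hK habs
  have hNK : ∀ x, N x ≤ 1 ↔ x ∈ K := by
    intro x
    have := gauge_le_one_iff_mem_closure (x := x) hK hnhds
    rw [hKc.isClosed.closure_eq] at this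
    exact this
  refine ⟨N, continuous_gauge hK hnhds, by ext x; exact hNK x, ?_, ?_⟩
  · ext x
    exact gauge_lt_one_iff_mem_interior hK hnhds
  · intro x hx
    by_contra hne
    have := (gauge_pos habs (NormedSpace.isVonNBounded_of_isBounded ℝ hKc.isBounded)).mpr hne
    have h2 : gauge K x = 0 := hx
    rw [h2] at this
    exact lt_irrefl _ this

theorem N_le {N : Seminorm ℝ E} (hN0 : ∀ x, N x = 0 → x = 0) {K : Set E}
    (hNK : {x | N x ≤ 1} = K) (U : E →ₗ[ℝ] E) (hU : ∀ x ∈ K, U x ∈ K) (x : E) :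
    N (U x) ≤ N x := by
  by_cases hx : x = 0
  · simp [hx]
  · have hNx : 0 < N x := lt_of_le_of_ne (apply_nonneg N x) fun h => hx (hN0 x h.symm)
    have h1 : N ((N x)⁻¹ • x) ≤ 1 := by
      rw [map_smul_eq_mul, Real.norm_of_nonneg (by positivity), inv_mul_cancel₀ hNx.ne']
    have h1' : (N x)⁻¹ • x ∈ K := by rw [← hNK]; exact h1
    have h2 : U ((N x)⁻¹ • x) ∈ {x | N x ≤ 1} := by rw [hNK]; exact hU _ h1'
    have h3 : N (U ((N x)⁻¹ • x)) ≤ 1 := h2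
    rw [map_smul, map_smul_eq_mul, Real.norm_of_nonneg (by positivity), inv_mul_le_iff₀ hNx,
      mul_one] at h3
    exact h3

/-- the covering of a near body -/
theorem fin_cover [MeasurableSpace E] [BorelSpace E] {μ : Measure E} [μ.IsAddHaarMeasure]
    {N : Seminorm ℝ E} (hcont : Continuous N) {K : Set E} (hKc : IsCompact K)
    (hNK : {x | N x ≤ 1} = K) (hNi : {x | N x < 1} = interior K) (hd : 2 ≤ finrank ℝ E)
    {G : ℝ} (hG : 0 < G)
    (hgain : ∀ x, N x ≤ 1 → G ≤ 2 ^ finrank ℝ E * (m μ N x / m μ N 0)) {Y : ℝ}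
    (hle : 2 * (finrank ℝ E : ℝ) * Real.log (1 + 12 * finrank ℝ E) / G ≤ Y)
    {K' : Set E} {v : E} (hKK' : K ⊆ K')
    (hK'K : K' ⊆ (fun x => v + x) '' ((1 + 1 / (finrank ℝ E : ℝ)) • K)) :
    Few K' (1 + 2 ^ finrank ℝ E * (13 * Y)) := by
  obtain ⟨T, hT, hTc⟩ := cover' (μ := μ) hcont (by rw [hNK]; exact hKc) hd hG hgain
  refine ⟨T.map (Equiv.addLeft v).toEmbedding, ?_, ?_⟩
  · rw [Finset.card_map]
    refine hTc.trans ?_
    have h2 : (0 : ℝ) < 2 ^ finrank ℝ E := by positivity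
    have hd0 : (0 : ℝ) < finrank ℝ E := by exact_mod_cast (by omega : 0 < finrank ℝ E)
    have hlog : Real.log (1 + 13 * (finrank ℝ E : ℝ)) ≤
        2 * Real.log (1 + 12 * finrank ℝ E) := by
      have h3 : 2 * Real.log (1 + 12 * (finrank ℝ E : ℝ)) =
          Real.log ((1 + 12 * (finrank ℝ E : ℝ)) ^ 2) := by
        rw [Real.log_pow]; norm_num
      rw [h3]
      apply Real.log_le_log (by positivity)
      nlinarith
    have h4 : 13 * (finrank ℝ E : ℝ) * Real.log (1 + 13 * finrank ℝ E) / G ≤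
        13 * (2 * (finrank ℝ E : ℝ) * Real.log (1 + 12 * finrank ℝ E) / G) := by
      rw [← mul_div_assoc]
      apply div_le_div_of_nonneg_right _ hG.le
      calc 13 * (finrank ℝ E : ℝ) * Real.log (1 + 13 * finrank ℝ E)
          ≤ 13 * (finrank ℝ E : ℝ) * (2 * Real.log (1 + 12 * finrank ℝ E)) := by gcongr
        _ = _ := by ring
    have := mul_le_mul_of_nonneg_left (h4.trans (mul_le_mul_of_nonneg_left hle
      (by norm_num : (0 : ℝ) ≤ 13))) h2.le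
    linarith
  · intro y hy
    obtain ⟨_, ⟨x, hx, rfl⟩, rfl⟩ := hK'K hy
    have hl0 : (0 : ℝ) < 1 + 1 / (finrank ℝ E : ℝ) := by positivity
    have h3 : (1 + 1 / (finrank ℝ E : ℝ)) • x ∈ {x | N x ≤ 1 + 1 / (finrank ℝ E : ℝ)} := by
      show N ((1 + 1 / (finrank ℝ E : ℝ)) • x) ≤ _
      rw [map_smul_eq_mul, Real.norm_of_nonneg hl0.le]
      have h4 : x ∈ {x | N x ≤ 1} := by rw [hNK]; exact hx
      have h5 : N x ≤ 1 := h4
      calc (1 + 1 / (finrank ℝ E : ℝ)) * N x ≤ (1 + 1 / (finrank ℝ E : ℝ)) * 1 := by gcongr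
        _ = _ := mul_one _
    have h4 := hT h3
    rw [mem_iUnion₂] at h4 ⊢
    obtain ⟨t, ht, z, hz, hzx⟩ := h4
    refine ⟨v + t, ?_, z, ?_, ?_⟩
    · rw [Finset.mem_map]
      exact ⟨t, ht, rfl⟩
    · rw [hNi] at hz
      exact interior_mono hKK' hz
    · simp only at hzx ⊢
      rw [← hzx, add_assoc]

theorem triv_gain [MeasurableSpace E] [BorelSpace E] {μ : Measure E} [μ.IsAddHaarMeasure]
    {N : Seminorm ℝ E} (hcont : Continuous N) (hf : μ (Ov N 0) ≠ ⊤) (x : E) (hx : N x ≤ 1) :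
    1 ≤ 2 ^ finrank ℝ E * (m μ N x / m μ N 0) := by
  have hp := m_pos hcont hf
  have h5 := ray (μ := μ) hf hx le_rfl zero_le_one
  rw [zero_smul, sub_zero] at h5
  rw [← mul_div_assoc, le_div_iff₀ hp, one_mul]
  exact h5

end Body

/-- the bound -/
noncomputable def bd (d : ℕ) : ℝ := 2 ^ d * (Real.log d ^ 7 / √d)

/-- the covering theorem with quaternionic structures on pieces, for the constant `C` -/
def BigC (C : ℝ) : Prop :=
  ∀ (E : Type) [NormedAddCommGroup E] [NormedSpace ℝ E]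
    [FiniteDimensional ℝ E] (K : Set E), Convex ℝ K → IsCompact K → (interior K).Nonempty →
    (∀ x ∈ K, -x ∈ K) → 2 ≤ finrank ℝ E →
    ∀ (ι : Type) [Fintype ι] (ρ : ι → (ℍ[ℝ] →ₗ[ℝ] Module.End ℝ E)) (c : ι → ℝ),
    (∀ i p q, ρ i (p * q) = ρ i p * ρ i q) →
    (∀ i q, ‖q‖ = 1 → ∀ x ∈ K, x - ρ i 1 x + ρ i q x ∈ K) →
    (∀ i, 0 < c i) → (∀ i, c i ≤ 1) → (∀ x, ∑ i, c i • ρ i 1 x = x) → (∑ i, c i ≤ 2) →
    ∀ (K' : Set E) (v : E), K ⊆ K' →
      K' ⊆ (fun x => v + x) '' ((1 + 1 / (finrank ℝ E : ℝ)) • K) →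
      Few K' (1 + C * bd (finrank ℝ E))

theorem big2 : ∃ C : ℝ, BigC C := by
  obtain ⟨C, hC0, hC⟩ := Pool.Agent.Zk14.Par.param2 3 9 1 1 (by norm_num) le_rfl one_pos
  refine ⟨13 * C, ?_⟩
  intro E _ _ _ K hK hKc hKi hKs hd ι _ ρ c hmul hinv hc0 hc1 hsum hC2 K' v hKK' hK'K
  let _ : MeasurableSpace E := borel E
  have _ : BorelSpace E := ⟨rfl⟩
  obtain ⟨N, hcont, hNK, hNi, hN0⟩ := body_norm K hK hKc hKi hKs
  let μ : Measure E := Measure.addHaar
  have hf : μ (Ov N 0) ≠ ⊤ := by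
    rw [Ov_zero, hNK]; exact hKc.measure_lt_top.ne
  have hinv' : ∀ i q, ‖q‖ = 1 → ∀ x, N (x - ρ i 1 x + ρ i q x) ≤ N x := fun i q hq x => by
    have := N_le hN0 hNK (U (ρ i) q) (fun x hx => by rw [U_apply]; exact hinv i q hq x hx) x
    rwa [U_apply] at this
  have hd0 : (0 : ℝ) < finrank ℝ E := by exact_mod_cast (by omega : 0 < finrank ℝ E)
  have hbd : 1 + 2 ^ finrank ℝ E * (13 * (C * ((finrank ℝ E : ℝ) *
      Real.log (finrank ℝ E) ^ (2 * 3 + 1) / √(finrank ℝ E) ^ 3))) =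
      1 + 13 * C * bd (finrank ℝ E) := by
    have h1 : √(finrank ℝ E : ℝ) ^ 3 = finrank ℝ E * √(finrank ℝ E) := by
      rw [pow_succ, Real.sq_sqrt hd0.le]
    have h2 : (0 : ℝ) < √(finrank ℝ E) := Real.sqrt_pos.mpr hd0
    rw [bd, h1]
    field_simp
  rw [← hbd]
  rcases hC (finrank ℝ E) hd with h | ⟨L, hL, h1, -, h3, h4⟩
  · exact fin_cover (μ := μ) hcont hKc hNK hNi hd one_pos (triv_gain hcont hf)
      (by rw [div_one]; exact h) hKK' hK'K
  · have hL2 : 2 ≤ L := by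
      by_contra hcon
      push Not at hcon
      have : L = 0 ∨ L = 1 := by omega
      rcases this with rfl | rfl
      · norm_num at hL
      · norm_num at hL
    have hL0 : (2 : ℝ) ≤ L := by exact_mod_cast hL2
    have hlog : 0 ≤ Real.log ((L : ℝ) ^ 3) := Real.log_nonneg (by linarith)
    have hlog2 : Real.log ((L : ℝ) ^ 3) ≤ Real.log (2 * (L : ℝ) ^ 3) :=
      Real.log_le_log (by linarith) (by linarith)
    have hP : Par (finrank ℝ E) L 2 := by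
      refine ⟨by omega, hL2, one_le_two, h1, ?_⟩
      refine le_trans ?_ h3
      have h5 : ((16 * 2 / 3 : ℝ) * Real.log ((L : ℝ) ^ 3) ^ 2 / finrank ℝ E) ≤
          (32 / 27) * (9 * Real.log ((L : ℝ) ^ 3) * Real.log (2 * (L : ℝ) ^ 3) / finrank ℝ E) := by
        rw [← mul_div_assoc]
        apply div_le_div_of_nonneg_right _ hd0.le
        nlinarith
      have h6 : 0 ≤ ((16 * 2 / 3 : ℝ) * Real.log ((L : ℝ) ^ 3) ^ 2 / finrank ℝ E) := by
        positivity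
      have h7 := pow_le_pow_left₀ h6 h5 2
      calc 12 * (finrank ℝ E : ℝ) *
            ((16 * 2 / 3 : ℝ) * Real.log ((L : ℝ) ^ 3) ^ 2 / finrank ℝ E) ^ 2 * L ^ 2
          ≤ 12 * (finrank ℝ E : ℝ) * ((32 / 27) * (9 * Real.log ((L : ℝ) ^ 3) *
            Real.log (2 * (L : ℝ) ^ 3) / finrank ℝ E)) ^ 2 * L ^ 2 := by gcongr
        _ = (12 * (32 / 27) ^ 2) * ((finrank ℝ E : ℝ) * (9 * Real.log ((L : ℝ) ^ 3) *
            Real.log (2 * (L : ℝ) ^ 3) / finrank ℝ E) ^ 2 * L ^ 2) := by ring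
        _ ≤ 18 * ((finrank ℝ E : ℝ) * (9 * Real.log ((L : ℝ) ^ 3) *
            Real.log (2 * (L : ℝ) ^ 3) / finrank ℝ E) ^ 2 * L ^ 2) := by
            gcongr
            norm_num
        _ = _ := by push_cast; ring
    have hgain := fun x (hx : N x ≤ 1) => gain (μ := μ) hcont hf hN0 hP rfl ρ hmul hinv' c
      hc0 hc1 hC2 hsum hx
    refine fin_cover (μ := μ) hcont hKc hNK hNi hd (by positivity) hgain ?_ hKK' hK'K
    refine le_trans (le_of_eq ?_) h4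
    have : (L : ℝ) ^ 3 ≠ 0 := by linarith
    field_simp
    ring

section Kron

variable {𝕜 : Type} [RCLike 𝕜] {s : ℕ}

/-- several copies of a quaternionic structure -/
noncomputable def Qk (a : ℕ) (Q : ℍ[ℝ] →ₗ[ℝ] Matrix (Fin s) (Fin s) 𝕜) :
    ℍ[ℝ] →ₗ[ℝ] Matrix (Fin (s * a)) (Fin (s * a)) 𝕜 where
  toFun q := Matrix.reindex finProdFinEquiv finProdFinEquiv
    (Q q ⊗ₖ (1 : Matrix (Fin a) (Fin a) 𝕜))
  map_add' p q := by
    rw [map_add, Matrix.add_kronecker]; rfl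
  map_smul' c q := by
    rw [map_smul, Matrix.smul_kronecker]; rfl

theorem Qk_apply (a : ℕ) (Q : ℍ[ℝ] →ₗ[ℝ] Matrix (Fin s) (Fin s) 𝕜) (q : ℍ[ℝ]) :
    Qk a Q q = Matrix.reindex finProdFinEquiv finProdFinEquiv
      (Q q ⊗ₖ (1 : Matrix (Fin a) (Fin a) 𝕜)) := rfl

theorem Qk_one (a : ℕ) {Q : ℍ[ℝ] →ₗ[ℝ] Matrix (Fin s) (Fin s) 𝕜} (h : Q 1 = 1) :
    Qk a Q 1 = 1 := by
  rw [Qk_apply, h, Matrix.one_kronecker_one, Matrix.reindex_apply, Matrix.submatrix_one_equiv]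

theorem Qk_mul (a : ℕ) {Q : ℍ[ℝ] →ₗ[ℝ] Matrix (Fin s) (Fin s) 𝕜}
    (h : ∀ p q, Q (p * q) = Q p * Q q) (p q : ℍ[ℝ]) : Qk a Q (p * q) = Qk a Q p * Qk a Q q := by
  rw [Qk_apply, Qk_apply, Qk_apply, h, Matrix.reindex_apply, Matrix.reindex_apply,
    Matrix.reindex_apply, Matrix.submatrix_mul_equiv, ← Matrix.mul_kronecker_mul, Matrix.one_mul]

theorem Qk_star (a : ℕ) {Q : ℍ[ℝ] →ₗ[ℝ] Matrix (Fin s) (Fin s) 𝕜}
    (h : ∀ q, (Q q)ᴴ = Q (star q)) (q : ℍ[ℝ]) : (Qk a Q q)ᴴ = Qk a Q (star q) := by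
  rw [Qk_apply, Qk_apply, Matrix.reindex_apply, Matrix.reindex_apply,
    Matrix.conjTranspose_submatrix, Matrix.conjTranspose_kronecker, h,
    Matrix.conjTranspose_one]

theorem Qk_det (a : ℕ) {Q : ℍ[ℝ] →ₗ[ℝ] Matrix (Fin s) (Fin s) 𝕜} {q : ℍ[ℝ]}
    (h : (Q q).det = 1) : (Qk a Q q).det = 1 := by
  rw [Qk_apply, Matrix.det_reindex_self, Matrix.det_kronecker, h]
  simp

end Kron

section Fin

attribute [local instance] Matrix.normedAddCommGroup Matrix.normedSpace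

theorem mat_aux2 {C : ℝ} (hC : BigC C) {𝕜 : Type} [RCLike 𝕜] {s : ℕ} (hs0 : 0 < s)
    {Q : ℍ[ℝ] →ₗ[ℝ] Matrix (Fin s) (Fin s) 𝕜} (hQ1 : Q 1 = 1)
    (hQ : ∀ p q, Q (p * q) = Q p * Q q) (hQs : ∀ q, (Q q)ᴴ = Q (star q))
    (hQd : ∀ q, ‖q‖ = 1 → (Q q).det = 1) (m k : ℕ) (hsm : s ≤ m)
    (hd : 2 ≤ finrank ℝ (Matrix (Fin m) (Fin k) 𝕜))
    (K : Set (Matrix (Fin m) (Fin k) 𝕜)) (hK : Convex ℝ K) (hKc : IsCompact K)
    (hKi : (interior K).Nonempty) (hKs : ∀ x ∈ K, -x ∈ K)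
    (hinv : ∀ U : Matrix (Fin m) (Fin m) 𝕜, U * Uᴴ = 1 → U.det = 1 → ∀ x ∈ K, U * x ∈ K)
    (K' : Set (Matrix (Fin m) (Fin k) 𝕜)) (v : Matrix (Fin m) (Fin k) 𝕜) (hKK' : K ⊆ K')
    (hK'K : K' ⊆ (fun x => v + x) ''
      ((1 + 1 / (finrank ℝ (Matrix (Fin m) (Fin k) 𝕜) : ℝ)) • K)) :
    Few K' (1 + C * bd (finrank ℝ (Matrix (Fin m) (Fin k) 𝕜))) := by
  have : NeZero m := ⟨by omega⟩
  set a : ℕ := m / s with ha
  have ha1 : 1 ≤ a := (Nat.one_le_div_iff hs0).mpr hsm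
  have hsa : s * a ≤ m := Nat.mul_div_le m s
  have hm2 : m ≤ 2 * (s * a) := by
    have h1 : m < s * (a + 1) := by
      have := Nat.lt_mul_div_succ m hs0
      exact this
    have h2 : s * (a + 1) = s * a + s := by ring
    have h3 : s ≤ s * a := Nat.le_mul_of_pos_right s ha1
    omega
  have hsa0 : 0 < s * a := Nat.mul_pos hs0 ha1
  have hs0' : (0 : ℝ) < ((s * a : ℕ) : ℝ) := by exact_mod_cast hsa0
  have hs1 : (1 : ℝ) ≤ ((s * a : ℕ) : ℝ) := by exact_mod_cast hsa0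
  have hQ1' := Qk_one a hQ1
  have hQ' := Qk_mul a hQ
  have hQs' := Qk_star a hQs
  refine hC (Matrix (Fin m) (Fin k) 𝕜) K hK hKc hKi hKs hd (Fin m)
    (fun l => rho k (Qk a Q) (blk l : Fin (s * a) → Fin m)) (fun _ => 1 / ((s * a : ℕ) : ℝ))
    (fun l p q => rho_mul hQ' (blk_inj hsa l) p q) ?_ (fun _ => by positivity)
    (fun _ => by rw [div_le_one hs0']; exact hs1) (fun x => sum_blk hsa hsa0 hQ1' x) ?_
    K' v hKK' hK'K
  · intro l q hq x hx
    have h1 := hinv (Ub (Qk a Q) (blk l : Fin (s * a) → Fin m) q)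
      (Ub_unitary hQ' hQs' (blk_inj hsa l) q hq)
      (Ub_det hQ1' (blk_inj hsa l) q (Qk_det a (hQd q hq))) x hx
    have e : Ub (Qk a Q) (blk l : Fin (s * a) → Fin m) q * x =
        x - rho k (Qk a Q) (blk l : Fin (s * a) → Fin m) 1 x +
          rho k (Qk a Q) (blk l : Fin (s * a) → Fin m) q x := by
      rw [Ub, Matrix.add_mul, Matrix.sub_mul, Matrix.one_mul, rho_apply, rho_apply]
    rw [← e]; exact h1
  · rw [Finset.sum_const, Finset.card_univ, Fintype.card_fin, nsmul_eq_mul, mul_one_div,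
      div_le_iff₀ hs0']
    exact_mod_cast hm2

/-- real matrices -/
theorem matR2 {C : ℝ} (hC : BigC C) (m k : ℕ) (hm : 4 ≤ m) (hk : 1 ≤ k)
    (K : Set (Matrix (Fin m) (Fin k) ℝ)) (hK : Convex ℝ K) (hKc : IsCompact K)
    (hKi : (interior K).Nonempty) (hKs : ∀ x ∈ K, -x ∈ K)
    (hinv : ∀ U ∈ Matrix.specialOrthogonalGroup (Fin m) ℝ, ∀ x ∈ K, U * x ∈ K)
    (K' : Set (Matrix (Fin m) (Fin k) ℝ)) (v : Matrix (Fin m) (Fin k) ℝ) (hKK' : K ⊆ K')
    (hK'K : K' ⊆ (fun x => v + x) '' ((1 + 1 / ((m * k : ℕ) : ℝ)) • K)) :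
    Few K' (1 + C * bd (m * k)) := by
  have hfr : finrank ℝ (Matrix (Fin m) (Fin k) ℝ) = m * k := by
    rw [Module.finrank_matrix]; simp
  have hmk : 2 ≤ m * k := by nlinarith
  have h := mat_aux2 hC (𝕜 := ℝ) (s := 4) (by norm_num) QR_one QR_mul QR_star QR_det m k hm
    (by rw [hfr]; exact hmk) K hK hKc hKi hKs
    (fun U hU1 hU2 x hx => hinv U (by
      rw [Matrix.mem_specialOrthogonalGroup_iff]
      refine ⟨?_, hU2⟩
      rw [Matrix.mem_orthogonalGroup_iff]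
      simpa using hU1) x hx) K' v hKK' (by rw [hfr]; exact hK'K)
  rw [hfr] at h
  exact h

/-- complex matrices -/
theorem matC2 {C : ℝ} (hC : BigC C) (m k : ℕ) (hm : 2 ≤ m) (hk : 1 ≤ k)
    (K : Set (Matrix (Fin m) (Fin k) ℂ)) (hK : Convex ℝ K) (hKc : IsCompact K)
    (hKi : (interior K).Nonempty) (hKs : ∀ x ∈ K, -x ∈ K)
    (hinv : ∀ U ∈ Matrix.specialUnitaryGroup (Fin m) ℂ, ∀ x ∈ K, U * x ∈ K)
    (K' : Set (Matrix (Fin m) (Fin k) ℂ)) (v : Matrix (Fin m) (Fin k) ℂ) (hKK' : K ⊆ K')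
    (hK'K : K' ⊆ (fun x => v + x) '' ((1 + 1 / ((2 * (m * k) : ℕ) : ℝ)) • K)) :
    Few K' (1 + C * bd (2 * (m * k))) := by
  have hfr : finrank ℝ (Matrix (Fin m) (Fin k) ℂ) = 2 * (m * k) := by
    rw [Module.finrank_matrix, Complex.finrank_real_complex]; simp; ring
  have hmk : 1 ≤ m * k := by nlinarith
  have h := mat_aux2 hC (𝕜 := ℂ) (s := 2) (by norm_num) QC_one QC_mul QC_star QC_det m k hm
    (by rw [hfr]; omega) K hK hKc hKi hKs
    (fun U hU1 hU2 x hx => hinv U (by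
      rw [Matrix.mem_specialUnitaryGroup_iff]
      refine ⟨?_, hU2⟩
      rw [Matrix.mem_unitaryGroup_iff]
      exact hU1) x hx) K' v hKK' (by rw [hfr]; exact hK'K)
  rw [hfr] at h
  exact h

end Fin

/-- Quaternionic spaces. -/
theorem quat2 {C : ℝ} (hC : BigC C) (n : ℕ) (hn : 1 ≤ n) (K : Set (Fin n → ℍ[ℝ]))
    (hK : Convex ℝ K) (hKc : IsCompact K) (hKi : (interior K).Nonempty)
    (hinv : ∀ q : ℍ[ℝ], ‖q‖ = 1 → ∀ x ∈ K, q • x ∈ K)
    (K' : Set (Fin n → ℍ[ℝ])) (v : Fin n → ℍ[ℝ]) (hKK' : K ⊆ K')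
    (hK'K : K' ⊆ (fun x => v + x) '' ((1 + 1 / ((4 * n : ℕ) : ℝ)) • K)) :
    Few K' (1 + C * bd (4 * n)) := by
  have hfr : finrank ℝ (Fin n → ℍ[ℝ]) = 4 * n := by
    rw [Module.finrank_pi_fintype]
    simp [Quaternion.finrank_eq_four, mul_comm]
  have h := hC (Fin n → ℍ[ℝ]) K hK hKc hKi (fun x hx => by
      have := hinv (-1) (by simp) x hx
      simpa using this)
    (by rw [hfr]; omega) Unit
    (fun _ => (Algebra.lsmul ℝ ℝ (Fin n → ℍ[ℝ])).toLinearMap) (fun _ => 1)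
    (fun _ p q => map_mul (Algebra.lsmul ℝ ℝ (Fin n → ℍ[ℝ])) p q)
    (fun _ q hq x hx => by
      have := hinv q hq x hx
      simpa using this) (fun _ => one_pos) (fun _ => le_rfl) (fun x => by simp)
    (by simp) K' v hKK' (by rw [hfr]; exact hK'K)
  rw [hfr] at h
  exact h

end Pool.Agent.Zk68.Q
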