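import Mathlib
import Pool.Agent.Zk68.Mats2
import Pool.Agent.Zk68.ExpB
import Pool.Agent.Zk71.LieA
import Pool.Agent.Zk62.LieA1

set_option autoImplicit false
set_option linter.unusedSectionVars false

/-!
The covering theorem for symmetric bodies which are invariant under a compact group.
-/

namespace Pool.Agent.Zk68.Q

open MeasureTheory Module Set Filter
open scoped ENNReal Pointwise Topology InnerProductSpace

theorem exp_hom {𝒜 ℬ : Type*} [NormedRing 𝒜] [NormedAlgebra ℝ 𝒜] [CompleteSpace 𝒜]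
    [NormedRing ℬ] [NormedAlgebra ℝ ℬ] [FiniteDimensional ℝ 𝒜] (Φ : 𝒜 →ₐ[ℝ] ℬ) (Y : 𝒜) :
    Φ (NormedSpace.exp Y) = NormedSpace.exp (Φ Y) :=
  NormedSpace.map_exp_of_mem_ball (𝕂 := ℝ) Φ
    (LinearMap.continuous_of_finiteDimensional Φ.toLinearMap) Y
    ((NormedSpace.expSeries_radius_eq_top ℝ 𝒜).symm ▸ edist_lt_top _ _)

theorem exp_neg_mul {𝒜 : Type*} [NormedRing 𝒜] [NormedAlgebra ℝ 𝒜] [CompleteSpace 𝒜] (Y : 𝒜) :
    NormedSpace.exp (-Y) * NormedSpace.exp Y = 1 := by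
  rw [← NormedSpace.exp_add_of_commute_of_mem_ball (𝕂 := ℝ) (Commute.neg_left (Commute.refl Y))
    ((NormedSpace.expSeries_radius_eq_top ℝ 𝒜).symm ▸ edist_lt_top _ _)
    ((NormedSpace.expSeries_radius_eq_top ℝ 𝒜).symm ▸ edist_lt_top _ _), neg_add_cancel,
    NormedSpace.exp_zero]

section Main

variable {V : Type} [NormedAddCommGroup V] [InnerProductSpace ℝ V] [FiniteDimensional ℝ V]

/-- the algebra generated by `𝔤` -/
abbrev Al (𝔤 : Submodule ℝ (V →L[ℝ] V)) := Algebra.adjoin ℝ (𝔤 : Set (V →L[ℝ] V))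

/-- the inclusion -/
def inc (𝔤 : Submodule ℝ (V →L[ℝ] V)) : 𝔤 →ₗ[ℝ] Al 𝔤 where
  toFun X := ⟨X, Algebra.subset_adjoin X.2⟩
  map_add' _ _ := rfl
  map_smul' _ _ := rfl

theorem inc_norm (𝔤 : Submodule ℝ (V →L[ℝ] V)) (X : 𝔤) : ‖inc 𝔤 X‖ = ‖X‖ := rfl

theorem inv_closure {𝔤 : Submodule ℝ (V →L[ℝ] V)} {E : Type} [NormedAddCommGroup E]
    [NormedSpace ℝ E] [FiniteDimensional ℝ E] (Φ : Al 𝔤 →ₐ[ℝ] (E →L[ℝ] E)) {N : Seminorm ℝ E}
    (hinv : ∀ (X : V →L[ℝ] V) (hX : X ∈ 𝔤), ∀ x,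
      N (NormedSpace.exp (Φ ⟨X, Algebra.subset_adjoin hX⟩) x) ≤ N x)
    (g : Al 𝔤) (hg : g ∈ Submonoid.closure {a : Al 𝔤 |
        ∃ X : Al 𝔤, (X : V →L[ℝ] V) ∈ 𝔤 ∧ a = NormedSpace.exp X}) :
    ∀ x, N (Φ g x) = N x := by
  have : FiniteDimensional ℝ (Al 𝔤) := inferInstance
  induction hg using Submonoid.closure_induction with
  | mem a ha =>
    obtain ⟨X, hX, rfl⟩ := ha
    intro x
    have e1 : ∀ y, N (Φ (NormedSpace.exp X) y) ≤ N y := by
      intro y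
      rw [exp_hom]
      exact hinv X hX y
    have e2 : ∀ y, N (Φ (NormedSpace.exp (-X)) y) ≤ N y := by
      intro y
      rw [exp_hom]
      exact hinv (-X) (𝔤.neg_mem hX) y
    refine le_antisymm (e1 x) ?_
    have h := e2 (Φ (NormedSpace.exp X) x)
    have e3 : Φ (NormedSpace.exp (-X)) (Φ (NormedSpace.exp X) x) = x := by
      rw [← ContinuousLinearMap.mul_apply, ← map_mul, exp_neg_mul, map_one]
      rfl
    rw [e3] at h
    exact h
  | one => intro x; rw [map_one]; rfl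
  | mul a b _ _ ha hb =>
    intro x
    rw [map_mul, ContinuousLinearMap.mul_apply, ha, hb]

/-- a monotonicity along rays -/
theorem m_mono {E : Type*} [NormedAddCommGroup E] [NormedSpace ℝ E] [FiniteDimensional ℝ E]
    [MeasurableSpace E] [BorelSpace E] {μ : Measure E} [μ.IsAddHaarMeasure] {N : Seminorm ℝ E}
    (hc : Continuous N) (hf : μ (Ov N 0) ≠ ⊤) (v : E) {a b : ℝ} (hab : |a| ≤ b) :
    m μ N (b • v) ≤ m μ N (a • v) := by
  have hp := m_pos hc hf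
  rcases eq_or_lt_of_le (abs_nonneg a) with ha | ha
  · have : a = 0 := abs_eq_zero.mp ha.symm
    rw [this, zero_smul]; exact m_le hf _
  have hb : 0 < b := ha.trans_le hab
  have h1 : m μ N (a • v) = m μ N (|a| • v) := by
    rcases abs_choice a with h | h
    · rw [h]
    · rw [h, neg_smul, m_neg]
  rw [h1]
  have h2 := logc (μ := μ) hc hf (b • v) (s := |a| / b) (by positivity)
    (by rw [div_le_one hb]; exact hab)
  rw [smul_smul, div_mul_cancel₀ _ hb.ne'] at h2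
  have h3 : m μ N (b • v) / m μ N 0 ≤ (m μ N (b • v) / m μ N 0) ^ (|a| / b) := by
    have h4 : 0 ≤ m μ N (b • v) / m μ N 0 := div_nonneg (m_nonneg _) hp.le
    have h5 : m μ N (b • v) / m μ N 0 ≤ 1 := by rw [div_le_one hp]; exact m_le hf _
    calc m μ N (b • v) / m μ N 0 = (m μ N (b • v) / m μ N 0) ^ (1 : ℝ) := by rw [Real.rpow_one]
      _ ≤ _ := Real.rpow_le_rpow_of_exponent_ge' h4 h5 (by positivity)
          (by rw [div_le_one hb]; exact hab)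
  have h6 := h3.trans h2
  rw [div_le_div_iff_of_pos_right hp] at h6
  exact h6

/-- The covering theorem. -/
theorem orb (𝔤 : Submodule ℝ (V →L[ℝ] V)) (r : ℕ)
    (hskew : ∀ X ∈ 𝔤, ∀ v w : V, ⟪X v, w⟫_ℝ = -⟪v, X w⟫_ℝ)
    (horb : ∀ v : V, v ≠ 0 →
      r ≤ finrank ℝ (𝔤.map (ContinuousLinearMap.apply ℝ V v).toLinearMap)) :
    ∃ C : ℝ, ∀ (E : Type) [NormedAddCommGroup E] [NormedSpace ℝ E] [FiniteDimensional ℝ E]
      (Φ : Algebra.adjoin ℝ (𝔤 : Set (V →L[ℝ] V)) →ₐ[ℝ] (E →L[ℝ] E)) (K : Set E),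
      Convex ℝ K → IsCompact K → (interior K).Nonempty → (∀ x ∈ K, -x ∈ K) →
      2 ≤ finrank ℝ E →
      (∀ (X : V →L[ℝ] V) (hX : X ∈ 𝔤), ∀ x ∈ K,
        NormedSpace.exp (Φ ⟨X, Algebra.subset_adjoin hX⟩) x ∈ K) →
      ∀ (K' : Set E) (v : E), K ⊆ K' →
      K' ⊆ (fun x => v + x) '' ((1 + 1 / (finrank ℝ E : ℝ)) • K) →
      Few K' (1 + C * 2 ^ finrank ℝ E * (finrank ℝ E *
        Real.log (finrank ℝ E) ^ (2 * r + 1) / √(finrank ℝ E) ^ r)) := by
  obtain ⟨s, g, α, Cα, hα1, hα2, hg⟩ := Pool.Agent.Zk62.LieA1.A1 𝔤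
  obtain ⟨J, CB, hJ⟩ := Pool.Agent.Zk71.LieA.A2 𝔤 r hskew horb
  obtain ⟨δ0, hδ0, Ce, hCe0, hCe⟩ := exp_bound
    (𝒜 := Algebra.adjoin ℝ (𝔤 : Set (V →L[ℝ] V)))
  set Ca : ℝ := max Cα 0 with hCa
  have hCa0 : 0 ≤ Ca := le_max_right _ _
  have hα3 : ∀ i A, |α i A| ≤ Ca * ‖A‖ := fun i A =>
    (hα2 i A).trans (mul_le_mul_of_nonneg_right (le_max_left _ _) (norm_nonneg _))
  set C1 : ℝ := max 1 (Ca * CB) with hC1
  set C2 : ℝ := max 1 (J * s) with hC2
  set C3 : ℝ := max 1 (s * Ca * Ce) with hC3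
  have hC11 : 1 ≤ C1 := le_max_left _ _
  have hC21 : 1 ≤ C2 := le_max_left _ _
  have hC31 : 1 ≤ C3 := le_max_left _ _
  obtain ⟨C, hC0, hC⟩ := Pool.Agent.Zk14.Par.param2 r (8 * C1 * C2 / 3) C3 δ0 (by
    rw [le_div_iff₀ (by norm_num)]; nlinarith) hC31 hδ0
  refine ⟨13 * C, ?_⟩
  intro E _ _ _ Φ K hK hKc hKi hKs hd hinv K' v hKK' hK'K
  let _ : MeasurableSpace E := borel E
  have _ : BorelSpace E := ⟨rfl⟩
  obtain ⟨N, hcont, hNK, hNi, hN0⟩ := body_norm K hK hKc hKi hKs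
  let μ : Measure E := Measure.addHaar
  have hf : μ (Ov N 0) ≠ ⊤ := by
    rw [Ov_zero, hNK]; exact hKc.measure_lt_top.ne
  have hp := m_pos hcont hf
  have hinv' : ∀ (X : V →L[ℝ] V) (hX : X ∈ 𝔤), ∀ x,
      N (NormedSpace.exp (Φ ⟨X, Algebra.subset_adjoin hX⟩) x) ≤ N x := fun X hX =>
    N_le hN0 hNK (NormedSpace.exp (Φ ⟨X, Algebra.subset_adjoin hX⟩) : E →L[ℝ] E).toLinearMap
      (hinv X hX)
  have hiso : ∀ i x, N (Φ (g i) x) = N x := fun i => inv_closure Φ hinv' (g i) (hg i)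
  -- the norms of the operators
  have hop : ∀ (A : Al 𝔤) (x : E), N (Φ A x) ≤ s * Ca * ‖A‖ * N x := by
    intro A x
    have e : Φ A x = ∑ i, α i A • Φ (g i) x := by
      conv_lhs => rw [← hα1 A]
      rw [map_sum, ContinuousLinearMap.sum_apply]
      refine Finset.sum_congr rfl fun i _ => ?_
      rw [map_smul]; rfl
    rw [e]
    calc N (∑ i, α i A • Φ (g i) x) ≤ ∑ i, N (α i A • Φ (g i) x) := by
          exact Finset.le_sum_of_subadditive N (map_zero N).le (map_add_le_add N) _ _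
      _ ≤ ∑ i : Fin s, Ca * ‖A‖ * N x := by
          refine Finset.sum_le_sum fun i _ => ?_
          rw [map_smul_eq_mul, hiso, Real.norm_eq_abs]
          have := hα3 i A
          have := apply_nonneg N x
          gcongr
      _ = s * Ca * ‖A‖ * N x := by
          rw [Finset.sum_const, Finset.card_univ, Fintype.card_fin, nsmul_eq_mul]; ring
  -- the action of `𝔤`
  let Jm : 𝔤 →ₗ[ℝ] (E →ₗ[ℝ] E) :=
    { toFun := fun X => (Φ (inc 𝔤 X) : E →L[ℝ] E).toLinearMap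
      map_add' := fun X Y => by rw [map_add, map_add]; rfl
      map_smul' := fun c X => by rw [map_smul, map_smul]; rfl }
  have hJm : ∀ X x, Jm X x = Φ (inc 𝔤 X) x := fun X x => rfl
  have hA : ∀ X : 𝔤, ‖X‖ ≤ δ0 → ∀ x, N (x + Jm X x) ≤ (1 + C3 * ‖X‖ ^ 2) * N x := by
    intro X hX x
    rw [hJm]
    have e : x + Φ (inc 𝔤 X) x = Φ (NormedSpace.exp (inc 𝔤 X)) x -
        Φ (NormedSpace.exp (inc 𝔤 X) - 1 - inc 𝔤 X) x := by
      rw [map_sub, map_sub, map_one]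
      simp only [ContinuousLinearMap.sub_apply, ContinuousLinearMap.one_apply]
      abel
    rw [e]
    have h1 : N (Φ (NormedSpace.exp (inc 𝔤 X)) x) ≤ N x := by
      rw [exp_hom]; exact hinv' X X.2 x
    have h2 := hop (NormedSpace.exp (inc 𝔤 X) - 1 - inc 𝔤 X) x
    have h3 := hCe (inc 𝔤 X) hX
    have hNx := apply_nonneg N x
    have h4 : s * Ca * ‖NormedSpace.exp (inc 𝔤 X) - 1 - inc 𝔤 X‖ * N x ≤
        C3 * ‖X‖ ^ 2 * N x := by
      have h5 : (s : ℝ) * Ca * ‖NormedSpace.exp (inc 𝔤 X) - 1 - inc 𝔤 X‖ ≤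
          s * Ca * (Ce * ‖X‖ ^ 2) := by
        have : ‖inc 𝔤 X‖ = ‖X‖ := rfl
        rw [this] at h3
        gcongr
      have h6 : (s : ℝ) * Ca * (Ce * ‖X‖ ^ 2) ≤ C3 * ‖X‖ ^ 2 := by
        have h7 : s * Ca * Ce ≤ C3 := le_max_right _ _
        calc (s : ℝ) * Ca * (Ce * ‖X‖ ^ 2) = (s * Ca * Ce) * ‖X‖ ^ 2 := by ring
          _ ≤ C3 * ‖X‖ ^ 2 := by gcongr
      exact mul_le_mul_of_nonneg_right (h5.trans h6) hNx
    calc N (Φ (NormedSpace.exp (inc 𝔤 X)) x - Φ (NormedSpace.exp (inc 𝔤 X) - 1 - inc 𝔤 X) x)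
        ≤ N (Φ (NormedSpace.exp (inc 𝔤 X)) x) +
          N (Φ (NormedSpace.exp (inc 𝔤 X) - 1 - inc 𝔤 X) x) := map_sub_le_add _ _ _
      _ ≤ N x + C3 * ‖X‖ ^ 2 * N x := add_le_add h1 (h2.trans h4)
      _ = _ := by ring
  have hB : ∀ 𝔥 : Submodule ℝ 𝔤, finrank ℝ 𝔤 < finrank ℝ 𝔥 + r → ∀ x : E, ∀ t δ : ℝ,
      0 ≤ t → 0 ≤ δ →
      (∀ X ∈ 𝔥, ‖X‖ ≤ 1 → (1 - δ) * m μ N 0 ≤ m μ N ((C1 * t) • Jm X x)) →
      (1 - C2 * δ) * m μ N 0 ≤ m μ N (t • x) := by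
    intro 𝔥 h𝔥 x t δ ht hδ hX
    have hfr : finrank ℝ (𝔥.map 𝔤.subtype) = finrank ℝ 𝔥 :=
      Submodule.finrank_map_subtype_eq 𝔤 𝔥
    obtain ⟨X, B, hX1, hB1, hsum⟩ := hJ (𝔥.map 𝔤.subtype) (Submodule.map_subtype_le 𝔤 𝔥)
      (by rw [hfr]; exact h𝔥)
    have e : t • x = ∑ p : Fin J × Fin s, (t * α p.2 (B p.1)) • Φ (g p.2) (Φ (X p.1) x) := by
      have e1 : x = ∑ j, Φ (B j) (Φ (X j) x) := by
        have e2 : Φ (∑ j, B j * X j) x = x := by rw [hsum, map_one]; rfl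
        conv_lhs => rw [← e2]
        rw [map_sum, ContinuousLinearMap.sum_apply]
        refine Finset.sum_congr rfl fun j _ => ?_
        rw [map_mul]; rfl
      have e3 : ∀ j, Φ (B j) (Φ (X j) x) = ∑ i, α i (B j) • Φ (g i) (Φ (X j) x) := by
        intro j
        conv_lhs => rw [← hα1 (B j)]
        rw [map_sum, ContinuousLinearMap.sum_apply]
        refine Finset.sum_congr rfl fun i _ => ?_
        rw [map_smul]; rfl
      conv_lhs => rw [e1]
      rw [Finset.smul_sum, Fintype.sum_prod_type]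
      refine Finset.sum_congr rfl fun j _ => ?_
      rw [e3, Finset.smul_sum]
      refine Finset.sum_congr rfl fun i _ => ?_
      rw [smul_smul]
    have h1 := chain_sum (μ := μ) hcont hf (Finset.univ : Finset (Fin J × Fin s))
      (fun p => (t * α p.2 (B p.1)) • Φ (g p.2) (Φ (X p.1) x))
    rw [← e] at h1
    have h2 : ∀ p : Fin J × Fin s, m μ N 0 -
        m μ N ((t * α p.2 (B p.1)) • Φ (g p.2) (Φ (X p.1) x)) ≤ δ * m μ N 0 := by
      rintro ⟨j, i⟩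
      simp only
      obtain ⟨hXj, hXj1⟩ := hX1 j
      obtain ⟨X', hX'1, hX'2⟩ := Submodule.mem_map.mp hXj
      have h3 : m μ N ((t * α i (B j)) • Φ (g i) (Φ (X j) x)) =
          m μ N ((t * α i (B j)) • Φ (X j) x) := by
        have := isom (μ := μ) hcont hf hN0 (Φ (g i) : E →L[ℝ] E).toLinearMap (hiso i)
          ((t * α i (B j)) • Φ (X j) x)
        rw [← this]
        congr 1
        exact (map_smul (Φ (g i)) _ _).symm
      have h4 : |t * α i (B j)| ≤ C1 * t := by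
        rw [abs_mul, abs_of_nonneg ht, mul_comm]
        refine mul_le_mul_of_nonneg_right ?_ ht
        refine (hα3 i (B j)).trans ?_
        refine le_trans ?_ (le_max_right _ _)
        exact mul_le_mul_of_nonneg_left (hB1 j) hCa0
      have h5 := m_mono (μ := μ) hcont hf (Φ (X j) x) h4
      have h6 : Jm X' x = Φ (X j) x := by
        rw [hJm]
        have : inc 𝔤 X' = X j := Subtype.ext hX'2
        rw [this]
      have h7 : ‖X'‖ ≤ 1 := by
        have h8 : ‖X'‖ = ‖X j‖ := by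
          show ‖(X' : V →L[ℝ] V)‖ = ‖(X j : V →L[ℝ] V)‖
          rw [← hX'2]; rfl
        rw [h8]; exact hXj1
      have h8 := hX X' hX'1 h7
      rw [h6] at h8
      rw [h3]
      linarith
    have h3 : ∑ p : Fin J × Fin s, (m μ N 0 -
        m μ N ((t * α p.2 (B p.1)) • Φ (g p.2) (Φ (X p.1) x))) ≤ C2 * δ * m μ N 0 := by
      refine (Finset.sum_le_sum fun p _ => h2 p).trans ?_
      rw [Finset.sum_const, Finset.card_univ, Fintype.card_prod, Fintype.card_fin,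
        Fintype.card_fin, nsmul_eq_mul]
      push_cast
      have h4 : (J : ℝ) * s ≤ C2 := le_max_right _ _
      have h5 : 0 ≤ δ * m μ N 0 := mul_nonneg hδ hp.le
      calc (J : ℝ) * s * (δ * m μ N 0) ≤ C2 * (δ * m μ N 0) := by gcongr
        _ = _ := by ring
    linarith
  -- the covering
  have hfin : ∀ Y : ℝ, 1 + 2 ^ finrank ℝ E * (13 * (C * Y)) =
      1 + 13 * C * 2 ^ finrank ℝ E * Y := fun Y => by ring
  rw [← hfin]
  rcases hC (finrank ℝ E) hd with h | ⟨L, hL, h1, h2, h3, h4⟩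
  · exact fin_cover (μ := μ) hcont hKc hNK hNi hd one_pos (triv_gain hcont hf)
      (by rw [div_one]; exact h) hKK' hK'K
  · have hP : Par2 r (finrank ℝ E) L (8 * C1 * C2 / 3) C3 δ0 := ⟨by omega, hL, h1, h2, h3⟩
    refine fin_cover (μ := μ) hcont hKc hNK hNi hd (G := (L : ℝ) ^ r / 4) (by positivity)
      (fun x hx => ?_) ?_ hKK' hK'K
    · refine gain2 (μ := μ) (F := ↥𝔤) hcont hf Jm hC11 hC21 hC31 hδ0 ?_ ?_ rfl hP hx
      · exact hA
      · exact hB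
    · refine le_trans (le_of_eq ?_) h4
      have : (L : ℝ) ^ r ≠ 0 := by linarith
      field_simp
      ring

end Main

end Pool.Agent.Zk68.Q
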