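import Mathlib
import Pool.Agent.Zk68.OrbFin

set_option autoImplicit false
set_option linter.unusedSectionVars false

/-!
The covering theorem for bodies of matrices.
-/

namespace Pool.Agent.Zk68.Q

open Module Set Matrix
open scoped InnerProductSpace Pointwise

/-- matrices as operators -/
noncomputable abbrev TT (n : ℕ) : Matrix (Fin n) (Fin n) ℝ ≃⋆ₐ[ℝ]
    (EuclideanSpace ℝ (Fin n) →L[ℝ] EuclideanSpace ℝ (Fin n)) :=
  Matrix.toEuclideanCLM (n := Fin n) (𝕜 := ℝ)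

/-- the same as a linear map -/
noncomputable def TL (n : ℕ) : Matrix (Fin n) (Fin n) ℝ →ₗ[ℝ]
    (EuclideanSpace ℝ (Fin n) →L[ℝ] EuclideanSpace ℝ (Fin n)) where
  toFun := TT n
  map_add' := map_add _
  map_smul' _ _ := map_smul _ _ _

theorem TL_apply {n : ℕ} (X : Matrix (Fin n) (Fin n) ℝ) : TL n X = TT n X := rfl

theorem skew_of {n : ℕ} {X : Matrix (Fin n) (Fin n) ℝ} (hX : Xᵀ = -X)
    (v w : EuclideanSpace ℝ (Fin n)) : ⟪TT n X v, w⟫_ℝ = -⟪v, TT n X w⟫_ℝ := by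
  have h1 : ContinuousLinearMap.adjoint (TT n X) = -TT n X := by
    rw [← ContinuousLinearMap.star_eq_adjoint, ← map_star, Matrix.star_eq_conjTranspose,
      Matrix.conjTranspose_eq_transpose_of_trivial, hX, map_neg]
  rw [← ContinuousLinearMap.adjoint_inner_right, h1, ContinuousLinearMap.neg_apply,
    inner_neg_right]

theorem orb_of {n : ℕ} {𝔤 : Submodule ℝ (Matrix (Fin n) (Fin n) ℝ)} {r : ℕ}
    (horb : ∀ v : Fin n → ℝ, v ≠ 0 →
      r ≤ finrank ℝ (Submodule.span ℝ {w | ∃ X ∈ 𝔤, X *ᵥ v = w}))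
    (v : EuclideanSpace ℝ (Fin n)) (hv : v ≠ 0) :
    r ≤ finrank ℝ ((𝔤.map (TL n)).map (ContinuousLinearMap.apply ℝ
      (EuclideanSpace ℝ (Fin n)) v).toLinearMap) := by
  have hu : WithLp.ofLp v ≠ 0 := fun h => hv (by
    rw [← WithLp.toLp_ofLp 2 v, h]; rfl)
  refine (horb _ hu).trans ?_
  set e := (WithLp.linearEquiv 2 ℝ (Fin n → ℝ)) with he
  rw [← LinearEquiv.finrank_map_eq e]
  apply Submodule.finrank_mono
  rw [Submodule.span_le]
  rintro w ⟨X, hX, rfl⟩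
  refine ⟨TT n X v, ⟨TL n X, ⟨X, hX, rfl⟩, rfl⟩, rfl⟩

section Ring

attribute [local instance] Matrix.linftyOpNormedRing Matrix.linftyOpNormedAlgebra

set_option backward.isDefEq.respectTransparency false in
theorem exp_TT {n : ℕ} (A : EuclideanSpace ℝ (Fin n) →L[ℝ] EuclideanSpace ℝ (Fin n)) :
    (TT n).symm (NormedSpace.exp A) = NormedSpace.exp ((TT n).symm A) :=
  exp_hom ((TT n).symm.toAlgEquiv.toAlgHom :
    (EuclideanSpace ℝ (Fin n) →L[ℝ] EuclideanSpace ℝ (Fin n)) →ₐ[ℝ]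
      Matrix (Fin n) (Fin n) ℝ) A

set_option backward.isDefEq.respectTransparency false in
theorem mem_of_exp' {n : ℕ} (S : Submodule ℝ (Matrix (Fin n) (Fin n) ℝ))
    (X : Matrix (Fin n) (Fin n) ℝ) (h : ∀ t : ℝ, NormedSpace.exp (t • X) ∈ S) : X ∈ S :=
  Pool.Agent.Zk62.LieA1.mem_of_exp (Submodule.closed_of_finiteDimensional S) h

end Ring

section Fin

variable {n k : ℕ} {E : Type} [NormedAddCommGroup E] [NormedSpace ℝ E] [FiniteDimensional ℝ E]

theorem sub_inv {𝔤 : Submodule ℝ (Matrix (Fin n) (Fin n) ℝ)}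
    {ι : E →ₗ[ℝ] Matrix (Fin n) (Fin k) ℝ} {K : Set E} (hKi : (interior K).Nonempty)
    (hinv : ∀ X ∈ 𝔤, ∀ x ∈ K, ∃ y ∈ K, ι y = NormedSpace.exp X * ι x)
    {X : Matrix (Fin n) (Fin n) ℝ} (hX : X ∈ 𝔤) (w : E) : X * ι w ∈ LinearMap.range ι := by
  let L : E →ₗ[ℝ] Matrix (Fin n) (Fin k) ℝ :=
    { toFun := fun w => X * ι w
      map_add' := fun a b => by rw [map_add, Matrix.mul_add]
      map_smul' := fun c a => by rw [map_smul, Matrix.mul_smul]; rfl }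
  let P : Submodule ℝ E := (LinearMap.range ι).comap L
  have hP : K ⊆ P := by
    intro x hx
    show X * ι x ∈ LinearMap.range ι
    let R : Matrix (Fin n) (Fin n) ℝ →ₗ[ℝ] Matrix (Fin n) (Fin k) ℝ :=
      { toFun := fun M => M * ι x
        map_add' := fun a b => Matrix.add_mul a b (ι x)
        map_smul' := fun c a => Matrix.smul_mul c a (ι x) }
    exact mem_of_exp' ((LinearMap.range ι).comap R) X (fun t => by
      obtain ⟨y, -, hy⟩ := hinv (t • X) (𝔤.smul_mem t hX) x hx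
      show NormedSpace.exp (t • X) * ι x ∈ LinearMap.range ι
      exact ⟨y, hy⟩)
  have hPt : P = ⊤ := Submodule.eq_top_of_nonempty_interior' P (hKi.mono (interior_mono hP))
  have : w ∈ P := by rw [hPt]; trivial
  exact this

theorem alg_inv {𝔤 : Submodule ℝ (Matrix (Fin n) (Fin n) ℝ)}
    {ι : E →ₗ[ℝ] Matrix (Fin n) (Fin k) ℝ}
    (h : ∀ X ∈ 𝔤, ∀ w : E, X * ι w ∈ LinearMap.range ι)
    (A : Al (𝔤.map (TL n))) (w : E) :
    (TT n).symm (A : EuclideanSpace ℝ (Fin n) →L[ℝ] EuclideanSpace ℝ (Fin n)) * ι w ∈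
      LinearMap.range ι := by
  obtain ⟨A, hA⟩ := A
  simp only
  induction hA using Algebra.adjoin_induction generalizing w with
  | mem x hx =>
    obtain ⟨X, hX, rfl⟩ := hx
    rw [TL_apply, StarAlgEquiv.symm_apply_apply]
    exact h X hX w
  | algebraMap c =>
    have : (TT n).symm (algebraMap ℝ (EuclideanSpace ℝ (Fin n) →L[ℝ] EuclideanSpace ℝ (Fin n)) c) =
        c • (1 : Matrix (Fin n) (Fin n) ℝ) := by
      rw [Algebra.algebraMap_eq_smul_one, map_smul, map_one]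
    rw [this, Matrix.smul_mul, Matrix.one_mul]
    exact (LinearMap.range ι).smul_mem c ⟨w, rfl⟩
  | add x y _ _ hx hy =>
    rw [map_add, Matrix.add_mul]
    exact (LinearMap.range ι).add_mem (hx w) (hy w)
  | mul x y _ _ hx hy =>
    rw [map_mul, Matrix.mul_assoc]
    obtain ⟨u, hu⟩ := hy w
    rw [← hu]
    exact hx u

/-- the action on `E` -/
noncomputable def PhiL {𝔤 : Submodule ℝ (Matrix (Fin n) (Fin n) ℝ)}
    {ι : E →ₗ[ℝ] Matrix (Fin n) (Fin k) ℝ} (hι : Function.Injective ι)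
    (h : ∀ X ∈ 𝔤, ∀ w : E, X * ι w ∈ LinearMap.range ι)
    (A : Al (𝔤.map (TL n))) : E →ₗ[ℝ] E where
  toFun w := (LinearEquiv.ofInjective ι hι).symm ⟨_, alg_inv h A w⟩
  map_add' x y := by
    rw [← map_add]
    congr 1
    apply Subtype.ext
    show _ * ι (x + y) = _
    rw [map_add, Matrix.mul_add]; rfl
  map_smul' c x := by
    rw [RingHom.id_apply, ← map_smul]
    congr 1
    apply Subtype.ext
    show _ * ι (c • x) = _
    rw [map_smul, Matrix.mul_smul]; rfl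

theorem PhiL_apply {𝔤 : Submodule ℝ (Matrix (Fin n) (Fin n) ℝ)}
    {ι : E →ₗ[ℝ] Matrix (Fin n) (Fin k) ℝ} (hι : Function.Injective ι)
    (h : ∀ X ∈ 𝔤, ∀ w : E, X * ι w ∈ LinearMap.range ι)
    (A : Al (𝔤.map (TL n))) (w : E) : ι (PhiL hι h A w) =
      (TT n).symm (A : EuclideanSpace ℝ (Fin n) →L[ℝ] EuclideanSpace ℝ (Fin n)) * ι w := by
  have h1 := LinearEquiv.apply_symm_apply (LinearEquiv.ofInjective ι hι) ⟨_, alg_inv h A w⟩
  exact congrArg Subtype.val h1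

/-- the homomorphism -/
noncomputable def Phi {𝔤 : Submodule ℝ (Matrix (Fin n) (Fin n) ℝ)}
    {ι : E →ₗ[ℝ] Matrix (Fin n) (Fin k) ℝ} (hι : Function.Injective ι)
    (h : ∀ X ∈ 𝔤, ∀ w : E, X * ι w ∈ LinearMap.range ι) :
    Al (𝔤.map (TL n)) →ₐ[ℝ] (E →L[ℝ] E) where
  toFun A := LinearMap.toContinuousLinearMap (PhiL hι h A)
  map_one' := by
    ext w : 1
    apply hι
    rw [LinearMap.coe_toContinuousLinearMap', PhiL_apply]
    show (TT n).symm 1 * ι w = ι w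
    rw [map_one, Matrix.one_mul]
  map_mul' A B := by
    ext w : 1
    apply hι
    show ι (PhiL hι h (A * B) w) = ι (PhiL hι h A (PhiL hι h B w))
    rw [PhiL_apply, PhiL_apply, PhiL_apply, ← Matrix.mul_assoc, ← map_mul]; rfl
  map_zero' := by
    ext w : 1
    apply hι
    rw [LinearMap.coe_toContinuousLinearMap', PhiL_apply]
    show (TT n).symm 0 * ι w = ι 0
    rw [map_zero, Matrix.zero_mul, map_zero]
  map_add' A B := by
    ext w : 1
    apply hι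
    show ι (PhiL hι h (A + B) w) = ι (PhiL hι h A w + PhiL hι h B w)
    rw [map_add, PhiL_apply, PhiL_apply, PhiL_apply, ← Matrix.add_mul, ← map_add]; rfl
  commutes' c := by
    ext w : 1
    apply hι
    rw [LinearMap.coe_toContinuousLinearMap', PhiL_apply]
    show (TT n).symm (algebraMap ℝ (EuclideanSpace ℝ (Fin n) →L[ℝ] EuclideanSpace ℝ (Fin n)) c) *
      ι w = ι (c • w)
    rw [Algebra.algebraMap_eq_smul_one, map_smul, map_one, Matrix.smul_mul, Matrix.one_mul,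
      map_smul]

theorem Phi_apply {𝔤 : Submodule ℝ (Matrix (Fin n) (Fin n) ℝ)}
    {ι : E →ₗ[ℝ] Matrix (Fin n) (Fin k) ℝ} (hι : Function.Injective ι)
    (h : ∀ X ∈ 𝔤, ∀ w : E, X * ι w ∈ LinearMap.range ι)
    (A : Al (𝔤.map (TL n))) (w : E) : ι (Phi hι h A w) =
      (TT n).symm (A : EuclideanSpace ℝ (Fin n) →L[ℝ] EuclideanSpace ℝ (Fin n)) * ι w :=
  PhiL_apply hι h A w

end Fin

/-- The covering theorem for bodies of matrices. -/
theorem mat_orb {n : ℕ} (𝔤 : Submodule ℝ (Matrix (Fin n) (Fin n) ℝ)) (r : ℕ)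
    (hskew : ∀ X ∈ 𝔤, Xᵀ = -X)
    (horb : ∀ v : Fin n → ℝ, v ≠ 0 →
      r ≤ finrank ℝ (Submodule.span ℝ {w | ∃ X ∈ 𝔤, X *ᵥ v = w})) :
    ∃ C : ℝ, ∀ (E : Type) [NormedAddCommGroup E] [NormedSpace ℝ E] [FiniteDimensional ℝ E]
      (k : ℕ) (ι : E →ₗ[ℝ] Matrix (Fin n) (Fin k) ℝ) (K : Set E), Function.Injective ι →
      Convex ℝ K → IsCompact K → (interior K).Nonempty → (∀ x ∈ K, -x ∈ K) →
      2 ≤ finrank ℝ E →
      (∀ X ∈ 𝔤, ∀ x ∈ K, ∃ y ∈ K, ι y = NormedSpace.exp X * ι x) →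
      ∀ (K' : Set E) (v : E), K ⊆ K' →
      K' ⊆ (fun x => v + x) '' ((1 + 1 / (finrank ℝ E : ℝ)) • K) →
      Few K' (1 + C * 2 ^ finrank ℝ E * (finrank ℝ E *
        Real.log (finrank ℝ E) ^ (2 * r + 1) / √(finrank ℝ E) ^ r)) := by
  obtain ⟨C, hC⟩ := orb (𝔤.map (TL n)) r (by
    rintro _ ⟨X, hX, rfl⟩ v w
    exact skew_of (hskew X hX) v w) (fun v hv => orb_of horb v hv)
  refine ⟨C, fun E _ _ _ k ι K hι hK hKc hKi hKs hd hinv K' v hKK' hK'K => ?_⟩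
  have hW : ∀ X ∈ 𝔤, ∀ w : E, X * ι w ∈ LinearMap.range ι := fun X hX w =>
    sub_inv hKi hinv hX w
  refine hC E (Phi hι hW) K hK hKc hKi hKs hd ?_ K' v hKK' hK'K
  rintro X' hX' x hx
  obtain ⟨X, hX, hXX'⟩ := id hX'
  obtain ⟨y, hy, hyx⟩ := hinv X hX x hx
  have e : NormedSpace.exp (Phi hι hW ⟨X', Algebra.subset_adjoin hX'⟩) x = y := by
    rw [← exp_hom]
    apply hι
    rw [Phi_apply, hyx]
    congr 1
    have h1 : ((NormedSpace.exp (⟨X', Algebra.subset_adjoin hX'⟩ : Al (𝔤.map (TL n))) :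
        Al (𝔤.map (TL n))) : EuclideanSpace ℝ (Fin n) →L[ℝ] EuclideanSpace ℝ (Fin n)) =
        NormedSpace.exp X' :=
      exp_hom (Subalgebra.val (Al (𝔤.map (TL n)))) _
    rw [h1, exp_TT, ← hXX', TL_apply, StarAlgEquiv.symm_apply_apply]
  rw [e]
  exact hy

end Pool.Agent.Zk68.Q
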