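import Mathlib
import Pool.Agent.Zk68.Fam

set_option autoImplicit false
set_option linter.unusedSectionVars false

/-!
Bodies of matrices, and quaternionic spaces.
-/

namespace Pool.Agent.Zk68.Q

open MeasureTheory Module Set Quaternion Filter Matrix
open scoped ENNReal Pointwise Topology

attribute [local instance] Matrix.normedAddCommGroup Matrix.normedSpace

theorem mat_aux (ε : ℝ) (hε : 0 < ε) {𝕜 : Type} [RCLike 𝕜] {s : ℕ} (hs0 : 0 < s)
    {Q : ℍ[ℝ] →ₗ[ℝ] Matrix (Fin s) (Fin s) 𝕜} (hQ1 : Q 1 = 1)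
    (hQ : ∀ p q, Q (p * q) = Q p * Q q) (hQs : ∀ q, (Q q)ᴴ = Q (star q))
    (hQd : ∀ q, ‖q‖ = 1 → (Q q).det = 1) :
    ∃ d0 : ℕ, ∀ m k : ℕ, s ≤ m → d0 ≤ finrank ℝ (Matrix (Fin m) (Fin k) 𝕜) →
      m ^ 10 ≤ finrank ℝ (Matrix (Fin m) (Fin k) 𝕜) →
      ∀ K : Set (Matrix (Fin m) (Fin k) 𝕜), Convex ℝ K → IsCompact K → (interior K).Nonempty →
      (∀ x ∈ K, -x ∈ K) → (∀ U : Matrix (Fin m) (Fin m) 𝕜, U * Uᴴ = 1 → U.det = 1 →
        ∀ x ∈ K, U * x ∈ K) → Few K (ε * 2 ^ finrank ℝ (Matrix (Fin m) (Fin k) 𝕜)) := by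
  obtain ⟨d0, hd0⟩ := big ε hε
  refine ⟨d0, fun m k hsm hd hm10 K hK hKc hKi hKs hinv => ?_⟩
  have : NeZero m := ⟨by omega⟩
  have hs0' : (0 : ℝ) < s := by exact_mod_cast hs0
  have hs1 : (1 : ℝ) ≤ s := by exact_mod_cast hs0
  refine hd0 (Matrix (Fin m) (Fin k) 𝕜) K hK hKc hKi hKs hd (Fin m)
    (fun l => rho k Q (blk l : Fin s → Fin m)) (fun _ => 1 / (s : ℝ))
    (fun l p q => rho_mul hQ (blk_inj hsm l) p q) ?_ (fun _ => by positivity)
    (fun _ => by rw [div_le_one hs0']; exact hs1) (fun x => sum_blk hsm hs0 hQ1 x) ?_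
  · intro l q hq x hx
    have h1 := hinv (Ub Q (blk l : Fin s → Fin m) q) (Ub_unitary hQ hQs (blk_inj hsm l) q hq)
      (Ub_det hQ1 (blk_inj hsm l) q (hQd q hq)) x hx
    have e : Ub Q (blk l : Fin s → Fin m) q * x =
        x - rho k Q (blk l : Fin s → Fin m) 1 x + rho k Q (blk l : Fin s → Fin m) q x := by
      rw [Ub, Matrix.add_mul, Matrix.sub_mul, Matrix.one_mul, rho_apply, rho_apply]
    rw [← e]; exact h1
  · rw [Finset.sum_const, Finset.card_univ, Fintype.card_fin, nsmul_eq_mul]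
    have h1 : (m : ℝ) * (1 / s) ≤ m := by
      rw [mul_one_div, div_le_iff₀ hs0']
      have : (0 : ℝ) ≤ m := by positivity
      nlinarith
    calc ((m : ℝ) * (1 / s)) ^ 10 ≤ (m : ℝ) ^ 10 := by gcongr
      _ ≤ _ := by exact_mod_cast hm10

/-- Quaternionic spaces. -/
theorem quat (ε : ℝ) (hε : 0 < ε) : ∃ d0 : ℕ, ∀ n : ℕ, d0 ≤ n → ∀ K : Set (Fin n → ℍ[ℝ]), Convex ℝ K →
    IsCompact K → (interior K).Nonempty → (∀ q : ℍ[ℝ], ‖q‖ = 1 → ∀ x ∈ K, q • x ∈ K) →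
    Few K (ε * 2 ^ (4 * n)) := by
  obtain ⟨d0, hd0⟩ := big ε hε
  refine ⟨max 1 d0, fun n hn K hK hKc hKi hinv => ?_⟩
  have hn1 : 1 ≤ n := (le_max_left _ _).trans hn
  have hfr : finrank ℝ (Fin n → ℍ[ℝ]) = 4 * n := by
    rw [Module.finrank_pi_fintype]
    simp [Quaternion.finrank_eq_four, mul_comm]
  have h := hd0 (Fin n → ℍ[ℝ]) K hK hKc hKi (fun x hx => by
      have := hinv (-1) (by simp) x hx
      simpa using this)
    (by rw [hfr]; have := (le_max_right 1 d0).trans hn; omega) Unit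
    (fun _ => (Algebra.lsmul ℝ ℝ (Fin n → ℍ[ℝ])).toLinearMap) (fun _ => 1)
    (fun _ p q => map_mul (Algebra.lsmul ℝ ℝ (Fin n → ℍ[ℝ])) p q)
    (fun _ q hq x hx => by
      have := hinv q hq x hx
      simpa using this) (fun _ => one_pos) (fun _ => le_rfl) (fun x => by simp)
    (by
      rw [hfr]
      simp only [Finset.sum_const, Finset.card_univ, Fintype.card_unit, one_smul, one_pow]
      exact_mod_cast (by omega : 1 ≤ 4 * n))
  rw [hfr] at h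
  exact h

end Pool.Agent.Zk68.Q
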