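import Mathlib
import Pool.Agent.Zk68.Mats
import Pool.Agent.Results.MP_eba1ef_gt.CompactLieSymmetries

set_option autoImplicit false
set_option linter.unusedSectionVars false

/-!
All sizes of matrices.
-/

namespace Pool.Agent.Zk68.Q

open MeasureTheory Module Set Quaternion Filter Matrix
open scoped ENNReal Pointwise Topology

theorem few_equiv {E F : Type} [TopologicalSpace E] [AddCommGroup E] [Module ℝ E]
    [TopologicalSpace F] [AddCommGroup F] [Module ℝ F] (e : E ≃L[ℝ] F) (K : Set E) (a : ℝ)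
    (h : Few (e '' K) a) : Few K a := by
  obtain ⟨T, hT, hc⟩ := h
  refine ⟨T.map e.symm.toLinearEquiv.toEquiv.toEmbedding, by rw [Finset.card_map]; exact hT, ?_⟩
  intro x hx
  have h1 := hc (mem_image_of_mem e hx)
  rw [mem_iUnion₂] at h1 ⊢
  obtain ⟨t, ht, y, hy, hyx⟩ := h1
  refine ⟨e.symm t, ?_, e.symm y, ?_, ?_⟩
  · rw [Finset.mem_map]
    exact ⟨t, ht, rfl⟩
  · have h2 : e '' interior K = interior (e '' K) := e.toHomeomorph.image_interior K
    rw [← h2] at hy
    obtain ⟨w, hw, rfl⟩ := hy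
    rw [e.symm_apply_apply]; exact hw
  · simp only at hyx ⊢
    rw [← map_add, hyx, e.symm_apply_apply]

theorem large_m (ε : ℝ) (hε : 0 < ε) : ∃ m0 : ℕ, ∀ m : ℕ, m0 ≤ m → ∀ d : ℕ, 1 ≤ d →
    m ≤ d → (d : ℝ) ≤ (m : ℝ) ^ 10 →
    1 + 13 * d * Real.log (2 * d ^ 2 + 2 * d + 1) * 2 ^ d * Real.exp (-(((m : ℝ) - 4) / 3840))
      ≤ ε * 2 ^ d := by
  have h := Real.isLittleO_log_id_atTop.def (show (0 : ℝ) < 1 / 400000 by norm_num)
  have h2 : ∀ᶠ x : ℝ in atTop, 40 * Real.log x ≤ (x - 4) / 3840 := by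
    filter_upwards [h, eventually_ge_atTop (1 : ℝ), eventually_ge_atTop (100000 : ℝ)] with x hx hx1 hx2
    rw [Real.norm_of_nonneg (Real.log_nonneg hx1), id, Real.norm_of_nonneg (by linarith)] at hx
    linarith
  have h3 : ∀ᶠ x : ℝ in atTop, 80 / ε + 5 ≤ x := eventually_ge_atTop _
  obtain ⟨m0, hm0⟩ := eventually_atTop.mp
    (tendsto_natCast_atTop_atTop.eventually (h2.and h3))
  refine ⟨m0, fun m hm d hd hmd hdm => ?_⟩
  obtain ⟨h4, h5⟩ := hm0 m hm
  have hd1 : (1 : ℝ) ≤ d := by exact_mod_cast hd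
  have hε8 : 0 < 80 / ε := by positivity
  have hm1 : (5 : ℝ) ≤ m := by linarith
  have hmp : (0 : ℝ) < m := by linarith
  have h6 : Real.exp (-(((m : ℝ) - 4) / 3840)) ≤ ((m : ℝ) ^ 40)⁻¹ := by
    have h7 : Real.exp (40 * Real.log m) = (m : ℝ) ^ 40 := by
      rw [show (40 : ℝ) * Real.log m = ((40 : ℕ) : ℝ) * Real.log m by norm_num,
        Real.exp_nat_mul, Real.exp_log hmp]
    rw [← h7, ← Real.exp_neg]
    exact Real.exp_le_exp.mpr (by linarith)
  have h8 : Real.log (2 * (d : ℝ) ^ 2 + 2 * d + 1) ≤ 5 * (d : ℝ) ^ 2 := by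
    have h9 := Real.log_le_sub_one_of_pos (show (0 : ℝ) < 2 * (d : ℝ) ^ 2 + 2 * d + 1 by positivity)
    nlinarith
  have h10 : 13 * (d : ℝ) * Real.log (2 * d ^ 2 + 2 * d + 1) * 2 ^ d *
      Real.exp (-(((m : ℝ) - 4) / 3840)) ≤ (65 / m) * 2 ^ d := by
    calc 13 * (d : ℝ) * Real.log (2 * d ^ 2 + 2 * d + 1) * 2 ^ d *
          Real.exp (-(((m : ℝ) - 4) / 3840))
        ≤ 13 * (d : ℝ) * (5 * (d : ℝ) ^ 2) * 2 ^ d * ((m : ℝ) ^ 40)⁻¹ := by
          gcongr
      _ = 65 * (d : ℝ) ^ 3 * 2 ^ d * ((m : ℝ) ^ 40)⁻¹ := by ring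
      _ ≤ 65 * ((m : ℝ) ^ 10) ^ 3 * 2 ^ d * ((m : ℝ) ^ 40)⁻¹ := by gcongr
      _ = (65 / (m : ℝ) ^ 10) * 2 ^ d := by
          field_simp
      _ ≤ (65 / (m : ℝ)) * 2 ^ d := by
          gcongr
          exact le_self_pow₀ (by linarith) (by norm_num)
  have h11 : (1 : ℝ) ≤ (1 / m) * 2 ^ d := by
    have h12 : (m : ℝ) ≤ 2 ^ d := by
      exact_mod_cast (hmd.trans (Nat.lt_two_pow_self (n := d)).le)
    rw [one_div, inv_mul_eq_div, le_div_iff₀ hmp]
    linarith
  have h13 : (65 / m + 1 / m : ℝ) ≤ ε := by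
    rw [← add_div, div_le_iff₀ hmp]
    have h14 : 80 / ε ≤ m := by linarith
    rw [div_le_iff₀ hε] at h14
    linarith
  have h15 : (0 : ℝ) < 2 ^ d := by positivity
  nlinarith

/-- real matrices -/
theorem matR (ε : ℝ) (hε : 0 < ε) : ∃ d0 : ℕ, ∀ m k : ℕ, 4 ≤ m → d0 ≤ m * k →
      ∀ K : Set (Matrix (Fin m) (Fin k) ℝ), Convex ℝ K → IsCompact K → (interior K).Nonempty →
      (∀ x ∈ K, -x ∈ K) → (∀ U ∈ Matrix.specialOrthogonalGroup (Fin m) ℝ,
        ∀ x ∈ K, U * x ∈ K) → Few K (ε * 2 ^ (m * k)) := by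
  obtain ⟨d1, hd1⟩ := mat_aux ε hε (𝕜 := ℝ) (s := 4) (by norm_num) QR_one QR_mul QR_star QR_det
  obtain ⟨m0, hm0⟩ := large_m ε hε
  refine ⟨max 1 (max d1 (m0 ^ 10)), fun m k hm hd K hK hKc hKi hKs hinv => ?_⟩
  have hd1' : 1 ≤ m * k := (le_max_left _ _).trans hd
  have hd2 : d1 ≤ m * k := (le_max_left _ _).trans ((le_max_right _ _).trans hd)
  have hd3 : m0 ^ 10 ≤ m * k := (le_max_right _ _).trans ((le_max_right _ _).trans hd)
  have hfr : finrank ℝ (Matrix (Fin m) (Fin k) ℝ) = m * k := by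
    rw [Module.finrank_matrix]; simp
  have hk1 : 1 ≤ k := Nat.pos_of_ne_zero fun h => by simp [h] at hd1'
  by_cases hmk : m ^ 9 ≤ k
  · have h := hd1 m k hm (by rw [hfr]; exact hd2) (by
        rw [hfr]
        calc m ^ 10 = m * m ^ 9 := by ring
          _ ≤ m * k := Nat.mul_le_mul_left _ hmk) K hK hKc hKi hKs
      (fun U hU1 hU2 x hx => hinv U (by
        rw [Matrix.mem_specialOrthogonalGroup_iff]
        refine ⟨?_, hU2⟩
        rw [Matrix.mem_orthogonalGroup_iff]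
        simpa using hU1) x hx)
    rw [hfr] at h
    exact h
  · push Not at hmk
    have hmm : m0 ≤ m := by
      by_contra hcon
      push Not at hcon
      have h1 : m * k < m * m ^ 9 := Nat.mul_lt_mul_of_pos_left hmk (by omega)
      have h2 : m ^ 10 ≤ m0 ^ 10 := Nat.pow_le_pow_left hcon.le 10
      have h3 : m * m ^ 9 = m ^ 10 := by ring
      omega
    let e0 : Matrix (Fin m) (Fin k) ℝ ≃ₗ[ℝ] EuclideanSpace ℝ (Fin m × Fin k) :=
      { toFun := fun x => WithLp.toLp 2 fun p => x p.1 p.2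
        invFun := fun y => fun i j => y (i, j)
        map_add' := fun x y => by ext p; rfl
        map_smul' := fun c x => by ext p; rfl
        left_inv := fun x => rfl
        right_inv := fun y => by ext p; rfl }
    let e : Matrix (Fin m) (Fin k) ℝ ≃L[ℝ] EuclideanSpace ℝ (Fin m × Fin k) :=
      e0.toContinuousLinearEquiv
    have hfr2 : finrank ℝ (EuclideanSpace ℝ (Fin m × Fin k)) = m * k := by simp
    obtain ⟨T, hT1, hT2, -⟩ := Pool.Agent.Results.MP_eba1ef_gt.CompactLieSymmetries.result.2 m k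
      (by omega) hk1 (e '' K) (hK.is_linear_image e.toLinearMap.isLinear)
      (hKc.image e.continuous) (by
        obtain ⟨x, hx⟩ := hKi
        have h2 : e '' interior K = interior (e '' K) := e.toHomeomorph.image_interior K
        rw [← h2]
        exact ⟨e x, mem_image_of_mem e hx⟩) (by
        rintro U _ ⟨x, hx, rfl⟩
        refine ⟨(U : Matrix (Fin m) (Fin m) ℝ) * x, hinv _ U.2 x hx, ?_⟩
        ext p
        rfl)
    refine few_equiv e K _ ⟨T, ?_, hT1⟩
    rw [hfr2] at hT2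
    have h1 : ((m * k : ℕ) : ℝ) ≤ (m : ℝ) ^ 10 := by
      have h1 : m * k < m * m ^ 9 := Nat.mul_lt_mul_of_pos_left hmk (by omega)
      have h3 : m * m ^ 9 = m ^ 10 := by ring
      exact_mod_cast (by omega : m * k ≤ m ^ 10)
    have h2 := hm0 m hmm (m * k) hd1' (Nat.le_mul_of_pos_right m hk1) h1
    exact hT2.trans h2

/-- complex matrices -/
theorem matC (ε : ℝ) (hε : 0 < ε) : ∃ d0 : ℕ, ∀ m k : ℕ, 2 ≤ m → d0 ≤ 2 * (m * k) →
      ∀ K : Set (Matrix (Fin m) (Fin k) ℂ), Convex ℝ K → IsCompact K → (interior K).Nonempty →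
      (∀ x ∈ K, -x ∈ K) → (∀ U ∈ Matrix.specialUnitaryGroup (Fin m) ℂ,
        ∀ x ∈ K, U * x ∈ K) → Few K (ε * 2 ^ (2 * (m * k))) := by
  obtain ⟨d1, hd1⟩ := mat_aux ε hε (𝕜 := ℂ) (s := 2) (by norm_num) QC_one QC_mul QC_star QC_det
  obtain ⟨d2, hd2⟩ := matR ε hε
  refine ⟨max (3 ^ 10) (max d1 d2), fun m k hm hd K hK hKc hKi hKs hinv => ?_⟩
  have hd1' : 3 ^ 10 ≤ 2 * (m * k) := (le_max_left _ _).trans hd
  have hd2' : d1 ≤ 2 * (m * k) := (le_max_left _ _).trans ((le_max_right _ _).trans hd)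
  have hd3 : d2 ≤ 2 * (m * k) := (le_max_right _ _).trans ((le_max_right _ _).trans hd)
  have hfr : finrank ℝ (Matrix (Fin m) (Fin k) ℂ) = 2 * (m * k) := by
    rw [Module.finrank_matrix, Complex.finrank_real_complex]; simp; ring
  by_cases hm3 : m ≤ 3
  · have h := hd1 m k hm (by rw [hfr]; exact hd2') (by
        rw [hfr]
        exact (Nat.pow_le_pow_left hm3 10).trans hd1') K hK hKc hKi hKs
      (fun U hU1 hU2 x hx => hinv U (by
        rw [Matrix.mem_specialUnitaryGroup_iff]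
        refine ⟨?_, hU2⟩
        rw [Matrix.mem_unitaryGroup_iff]
        exact hU1) x hx)
    rw [hfr] at h
    exact h
  · push Not at hm3
    let e1 : (Fin k → ℂ) ≃ₗ[ℝ] (Fin (k * 2) → ℝ) :=
      ((LinearEquiv.piCongrRight fun _ => Complex.basisOneI.equivFun).trans
        (LinearEquiv.curry ℝ ℝ (Fin k) (Fin 2)).symm).trans
        (LinearEquiv.funCongrLeft ℝ ℝ finProdFinEquiv.symm)
    let e0 : Matrix (Fin m) (Fin k) ℂ ≃ₗ[ℝ] Matrix (Fin m) (Fin (k * 2)) ℝ :=
      LinearEquiv.piCongrRight fun _ => e1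
    let e : Matrix (Fin m) (Fin k) ℂ ≃L[ℝ] Matrix (Fin m) (Fin (k * 2)) ℝ :=
      e0.toContinuousLinearEquiv
    have hmul : ∀ (U : Matrix (Fin m) (Fin m) ℝ) (x : Matrix (Fin m) (Fin k) ℂ),
        e (U.map ((↑) : ℝ → ℂ) * x) = U * e x := by
      intro U x
      have h1 : ∀ i, e (U.map ((↑) : ℝ → ℂ) * x) i = e1 ((U.map ((↑) : ℝ → ℂ) * x) i) :=
        fun i => rfl
      have h2 : ∀ i, (U.map ((↑) : ℝ → ℂ) * x) i = ∑ j, U i j • x j := by
        intro i
        ext l
        rw [Matrix.mul_apply, Finset.sum_apply]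
        refine Finset.sum_congr rfl fun j _ => ?_
        simp [Matrix.map_apply]
      ext i l
      rw [h1, h2, map_sum, Finset.sum_apply, Matrix.mul_apply]
      refine Finset.sum_congr rfl fun j _ => ?_
      rw [map_smul]
      rfl
    have hdd : m * (k * 2) = 2 * (m * k) := by ring
    have h := hd2 m (k * 2) (by omega) (by rw [hdd]; exact hd3) (e '' K)
      (hK.is_linear_image e.toLinearMap.isLinear) (hKc.image e.continuous) (by
        obtain ⟨x, hx⟩ := hKi
        have h2 : e '' interior K = interior (e '' K) := e.toHomeomorph.image_interior K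
        rw [← h2]
        exact ⟨e x, mem_image_of_mem e hx⟩) (by
        rintro _ ⟨x, hx, rfl⟩
        exact ⟨-x, hKs x hx, map_neg e x⟩) (by
        rintro U hU _ ⟨x, hx, rfl⟩
        refine ⟨U.map ((↑) : ℝ → ℂ) * x, hinv _ ?_ x hx, hmul U x⟩
        rw [Matrix.mem_specialOrthogonalGroup_iff] at hU
        obtain ⟨hU1, hU2⟩ := hU
        rw [Matrix.mem_orthogonalGroup_iff] at hU1
        rw [Matrix.mem_specialUnitaryGroup_iff]
        constructor
        · rw [Matrix.mem_unitaryGroup_iff]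
          have h3 : star (U.map ((↑) : ℝ → ℂ)) = (star U).map ((↑) : ℝ → ℂ) := by
            ext i j
            simp [Matrix.star_apply]
          rw [h3]
          have h4 : (U.map ((↑) : ℝ → ℂ)) * (star U).map ((↑) : ℝ → ℂ) =
              (U * star U).map ((↑) : ℝ → ℂ) := by
            exact (Matrix.map_mul (f := Complex.ofRealHom)).symm
          have h7 : U * star U = 1 := by
            rw [Matrix.star_eq_conjTranspose, Matrix.conjTranspose_eq_transpose_of_trivial]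
            exact hU1
          rw [h4, h7]
          ext i j
          rw [Matrix.map_apply, Matrix.one_apply, Matrix.one_apply]
          split_ifs <;> simp
        · have h5 := (Complex.ofRealHom.map_det U).symm
          have h6 : Complex.ofRealHom.mapMatrix U = U.map ((↑) : ℝ → ℂ) := rfl
          rw [h6] at h5
          rw [h5, hU2]
          simp)
    rw [hdd] at h
    exact few_equiv e K _ h

end Pool.Agent.Zk68.Q
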